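import Pool.Agent.Lib.MP_264cca_an.Taylor

/-!
# The point `y = v ∘ Φ_U` and the parts in the fibre `|q| = 1`
-/

open Set Topology Filter Metric
open scoped ComplexConjugate Real

namespace Pool.Agent.Lib.MP_264cca_an

/-- the property required of the base point `v` -/
def BasePoint (v : MaxSpace Hp) : Prop :=
  ap v g0 = 1 ∧ ∀ x' : MaxSpace Hp, ap x' g0 = 1 → x' ≠ v →
    ∃ F : ℂ → ℂ, BH Hp F ∧ (∀ x'' ∈ part x', ap x'' F = 0) ∧ ap v F ≠ 0

lemma LH_wpow (N : ℤ → ℕ) : LH 1 (fun (j : ℤ) z => ww z ^ N j) :=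
  (LH.const (A := 1) ww_differentiableOn (fun _ hz => (norm_ww_lt_one hz).le)).pow N

lemma y_ind {v : MaxSpace Hp} (hv : ap v g0 = 1) {U : Ultrafilter ℤ} {J : Set ℤ} (hJ : J ∈ U) :
    ap (compPhi U v) (Psi (ind J)) = 1 := by
  rw [ap_compPhi_Psi hv U (LH_ind J)]
  have : ap v (shiftLim U (ind J) 0) = ap v (fun _ => 1) := by
    apply ap_congr v (BH.const 1)
    intro z _
    apply ulim_eq
    apply tendsto_const_nhds.congr'
    have h : ∀ᶠ j in (U : Filter ℤ), j ∈ J := hJ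
    filter_upwards [h] with j hj
    rw [zero_add, ind_of_mem hj]
  rw [this, ap_const]

lemma y_wpow {v : MaxSpace Hp} (hv : ap v g0 = 1) {U : Ultrafilter ℤ} {N : ℤ → ℕ}
    (hN : Tendsto N U atTop) :
    ap (compPhi U v) (Psi (fun j z => ww z ^ N j)) = 0 := by
  rw [ap_compPhi_Psi hv U (LH_wpow N)]
  have : ap v (shiftLim U (fun (j : ℤ) z => ww z ^ N j) 0) = ap v (fun _ => 0) := by
    apply ap_congr v (BH.const 0)
    intro z hz
    apply ulim_eq
    simp only [zero_add]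
    exact (tendsto_pow_atTop_nhds_zero_of_norm_lt_one (norm_ww_lt_one hz)).comp hN
  rw [this, ap_const]

lemma y_const {v : MaxSpace Hp} (hv : ap v g0 = 1) (U : Ultrafilter ℤ) {g : ℂ → ℂ}
    (hg : BH Hp g) : ap (compPhi U v) (Psi (fun _ => g)) = ap v g := by
  obtain ⟨A, hA⟩ := hg.2
  rw [ap_compPhi_Psi hv U (LH.const hg.1 hA)]
  apply ap_congr v hg
  intro z _
  exact ulim_eq tendsto_const_nhds

lemma closure_const {P : Set (MaxSpace Hp)} {y : MaxSpace Hp} (hy : y ∈ closure P) {g : ℂ → ℂ}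
    (hg : BH Hp g) {c : ℂ} (h : ∀ x ∈ P, ap x g = c) : ap y g = c := by
  have : closure P ⊆ {x | ap x g = c} :=
    closure_minimal h (isClosed_eq (continuous_ap hg) continuous_const)
  exact this hy

lemma ap_Psi_g0 {x : MaxSpace Hp} (hx : ap x qq = 1) : ap x (Psi (fun _ => g0)) = 1 := by
  have hL : LH 1 (fun _ : ℤ => g0) := LH.const g0_differentiableOn (fun z hz => norm_g0_le hz)
  have hpi := Real.pi_gt_three
  rw [ap_eq_of_fibre hx (BH_Psi hL) (BH.const 1) (C := 8 * π * 1 + 1), ap_const]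
  intro z hz
  rcases le_or_gt ‖qq z - 1‖ (1 / 2) with h | h
  · obtain ⟨l, hl⟩ := exists_int_near h
    have h1 := norm_Psi_sub_le hL hz l
    have h2 : ‖g0 (z - l) - 1‖ ≤ ‖z - l‖ := by
      have h3 := sub_int_mem_Hp hz l
      have h4 := add_I_ne_zero h3
      have h5 : g0 (z - l) - 1 = -(z - l) / (z - l + Complex.I) := by
        unfold g0; field_simp; ring
      rw [h5, norm_div, norm_neg]
      exact div_le_self (norm_nonneg _) (norm_add_I_ge h3)
    calc ‖Psi (fun _ => g0) z - 1‖ = ‖(Psi (fun _ => g0) z - g0 (z - l)) + (g0 (z - l) - 1)‖ := by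
          congr 1; ring
      _ ≤ 8 * π * 1 * ‖z - l‖ + ‖z - l‖ := (norm_add_le _ _).trans (add_le_add h1 h2)
      _ = (8 * π * 1 + 1) * ‖z - l‖ := by ring
      _ ≤ (8 * π * 1 + 1) * ‖qq z - 1‖ := by gcongr
  · have h1 := norm_Psi_le hL hz
    calc ‖Psi (fun _ => g0) z - 1‖ ≤ 1 + ‖(1 : ℂ)‖ :=
          (norm_sub_le _ _).trans (add_le_add h1 le_rfl)
      _ = 2 := by rw [norm_one]; norm_num
      _ ≤ (8 * π * 1 + 1) * ‖qq z - 1‖ := by nlinarith

theorem eq_of_mem_closure_part {v : MaxSpace Hp} (hv : BasePoint v) {U : Ultrafilter ℤ}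
    (hnp : Tendsto (fun j : ℤ => j.natAbs) U atTop) {x₀ : MaxSpace Hp}
    (hcl : compPhi U v ∈ closure (part x₀)) (hq : ‖ap x₀ qq‖ = 1) : x₀ = compPhi U v := by
  set y := compPhi U v with hy
  obtain ⟨hv0, hstar⟩ := hv
  have hyq : ap y qq = 1 := by rw [hy, ap_compPhi_qq, ap_qq_of_over hv0]
  have hqd : DifferentiableOn ℂ qq Hp := BH_qq.1
  have hqn : ∀ z ∈ Hp, ‖qq z‖ ≤ 1 := fun z hz => (norm_qq_lt_one hz).le
  -- unimodular values are constant on the part
  have huni : ∀ g : ℂ → ℂ, DifferentiableOn ℂ g Hp → (∀ z ∈ Hp, ‖g z‖ ≤ 1) → ‖ap x₀ g‖ = 1 →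
      ap y g = ap x₀ g := by
    intro g hd hg h1
    apply closure_const hcl ⟨hd, 1, hg⟩
    intro x hx
    obtain ⟨ρ, hρ, hn⟩ := mem_part_iff.mp hx
    exact hn.eq_of_norm_eq_one hρ hd hg h1
  -- step 1
  have hx0q : ap x₀ qq = 1 := by rw [← huni qq hqd hqn hq, hyq]
  have hxq : ∀ x ∈ part x₀, ap x qq = 1 := by
    intro x hx
    obtain ⟨ρ, hρ, hn⟩ := mem_part_iff.mp hx
    rw [hn.eq_of_norm_eq_one hρ hqd hqn hq, hx0q]
  -- step 2
  have hU : ∀ J : Set ℤ, J ∈ U → ap x₀ (Psi (ind J)) = 1 := by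
    intro J hJ
    rcases ap_ind_eq hx0q J with h | h
    · exfalso
      have h1 : ap y (Psi (ind J)) = 0 := by
        apply closure_const hcl (BH_Psi (LH_ind J))
        intro x hx
        obtain ⟨ρ, hρ, hn⟩ := mem_part_iff.mp hx
        rcases ap_ind_eq (hxq x hx) J with h2 | h2
        · exact h2
        · have := hn.symm.eq_of_norm_eq_one hρ (BH_Psi (LH_ind J)).1
            (fun z hz => norm_Psi_le (LH_ind J) hz) (by rw [h2, norm_one])
          rw [h, h2] at this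
          exact absurd this (by norm_num)
      rw [hy, y_ind hv0 hJ] at h1
      exact one_ne_zero h1
    · exact h
  -- step 3
  have hw : ∀ N : ℤ → ℕ, Tendsto N U atTop → ap x₀ (Psi (fun j z => ww z ^ N j)) = 0 := by
    intro N hN
    by_contra hc
    set c := ap x₀ (Psi (fun (j : ℤ) z => ww z ^ N j)) with hcdef
    set N' : ℤ → ℕ := fun j => Nat.sqrt (N j) with hN'
    have hN't : Tendsto N' U atTop := by
      rw [Filter.tendsto_atTop]
      intro n
      filter_upwards [hN.eventually_ge_atTop (n * n)] with j hj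
      exact Nat.le_sqrt.mpr hj
    set c' := ap x₀ (Psi (fun (j : ℤ) z => ww z ^ N' j)) with hc'
    have hc'1 : ‖c'‖ ≤ 1 := norm_ap_Psi_le x₀ (LH_wpow N')
    have hpow : ∀ r : ℕ, ‖c‖ ≤ ‖c'‖ ^ r := by
      intro r
      set M : ℤ → ℕ := fun j => N j - r * N' j with hM
      have hLG : LH (1 * 1) (fun (j : ℤ) z => (ww z ^ N' j) ^ r * ww z ^ M j) :=
        ((LH_wpow N').pow (fun _ => r)).mul (LH_wpow M)
      have hJ : {j | r * N' j ≤ N j} ∈ U := by
        have : ∀ᶠ j in (U : Filter ℤ), r ≤ N' j := hN't.eventually_ge_atTop r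
        filter_upwards [this] with j hj
        calc r * N' j ≤ N' j * N' j := Nat.mul_le_mul_right _ hj
          _ ≤ N j := Nat.sqrt_le (N j)
      have hdiff : ap x₀ (Psi (fun (j : ℤ) z => ww z ^ N j -
          (ww z ^ N' j) ^ r * ww z ^ M j)) = 0 := by
        have := norm_ap_Psi_le_of_ind hx0q (hU _ hJ) (le_refl (0 : ℝ)) ((LH_wpow N).sub hLG)
          (by
            intro j hj z hz
            have hj' : r * N' j ≤ N j := hj
            have : ww z ^ N j = (ww z ^ N' j) ^ r * ww z ^ M j := by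
              rw [← pow_mul, ← pow_add]
              congr 1
              rw [hM]
              simp only
              rw [mul_comm (N' j) r]
              omega
            rw [this, sub_self, norm_zero])
        exact norm_le_zero_iff.mp this
      rw [ap_Psi_sub x₀ (LH_wpow N) hLG, ap_Psi_mul hx0q ((LH_wpow N').pow (fun _ => r)) (LH_wpow M),
        ap_Psi_pow hx0q (LH_wpow N')] at hdiff
      rw [hcdef, sub_eq_zero.mp hdiff, norm_mul, norm_pow]
      calc ‖c'‖ ^ r * ‖ap x₀ (Psi (fun (j : ℤ) z => ww z ^ M j))‖ ≤ ‖c'‖ ^ r * 1 :=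
            mul_le_mul_of_nonneg_left (norm_ap_Psi_le x₀ (LH_wpow M)) (by positivity)
        _ = ‖c'‖ ^ r := mul_one _
    have hc'eq : ‖c'‖ = 1 := by
      rcases lt_or_eq_of_le hc'1 with h | h
      · exfalso
        have h1 : ‖c‖ ≤ 0 :=
          ge_of_tendsto' (tendsto_pow_atTop_nhds_zero_of_lt_one (norm_nonneg _) h) hpow
        exact hc (norm_le_zero_iff.mp h1)
      · exact h
    have h1 := huni _ (BH_Psi (LH_wpow N')).1 (fun z hz => norm_Psi_le (LH_wpow N') hz) hc'eq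
    rw [hy, y_wpow hv0 hN't] at h1
    rw [← hc'] at h1
    rw [← h1, norm_zero] at hc'eq
    exact zero_ne_one hc'eq
  -- step 4
  have hx0 : ∀ f, BH Hp f → ap x₀ f = ap x₀ (Psi (fun _ => Phi U f)) := fun f hf =>
    ap_eq_of_fibre_U hx0q hnp hU hw hf
  obtain ⟨xc, hxc⟩ := exists_xc hx0q
  have hxc0 : ap xc g0 = 1 := by rw [hxc g0 BH_g0, ap_Psi_g0 hx0q]
  have hxcv : xc = v := by
    by_contra hne
    obtain ⟨F, hF, hF0, hFv⟩ := hstar xc hxc0 hne
    apply hFv
    rw [← y_const hv0 U hF]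
    obtain ⟨A, hA⟩ := hF.2
    apply closure_const hcl (BH_Psi (LH.const hF.1 hA))
    intro x hx
    obtain ⟨xc', hxc'⟩ := exists_xc (hxq x hx)
    rw [← hxc' F hF]
    apply hF0
    obtain ⟨ρ, hρ, hn⟩ := mem_part_iff.mp hx
    rw [mem_part_iff]
    refine ⟨ρ, hρ, ?_⟩
    intro g hd hg
    rw [hxc g ⟨hd, 1, hg⟩, hxc' g ⟨hd, 1, hg⟩]
    have hL : LH 1 (fun _ : ℤ => g) := LH.const hd hg
    exact hn _ (BH_Psi hL).1 (fun z hz => norm_Psi_le hL hz)
  apply ap_ext
  intro f hf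
  rw [hx0 f hf, hy, ap_compPhi U v hf, ← hxcv, hxc _ (hf.Phi U)]

end Pool.Agent.Lib.MP_264cca_an
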