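import Pool.Agent.Lib.MP_264cca_an.Extremal
import Pool.Agent.Lib.MP_264cca_an.CaseC

/-!
# Existence of a base point over `0`
-/

open Set Topology Filter Metric
open scoped ComplexConjugate Real

namespace Pool.Agent.Lib.MP_264cca_an

/-- closed sets of characters that bound all functions on `Hp` -/
def IsB (E : Set (MaxSpace Hp)) : Prop :=
  IsClosed E ∧ ∀ g, BH Hp g → ∀ a : ℝ, (∀ y ∈ E, ‖ap y g‖ ≤ a) → ∀ z ∈ Hp, ‖g z‖ ≤ a

lemma IsB_univ : IsB univ := by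
  refine ⟨isClosed_univ, fun g hg a ha z hz => ?_⟩
  obtain ⟨y, hy⟩ := exists_ev hz
  rw [← hy g hg]
  exact ha y (mem_univ _)

lemma exists_minimal_IsB : ∃ E : Set (MaxSpace Hp), Minimal (· ∈ {E | IsB E}) E := by
  obtain ⟨m, _, hm⟩ := zorn_superset_nonempty {E : Set (MaxSpace Hp) | IsB E}
    (fun c hc hchain hne => by
      refine ⟨⋂₀ c, ?_, fun s hs => sInter_subset_of_mem hs⟩
      refine ⟨isClosed_sInter (fun s hs => (hc hs).1), fun g hg a ha z hz => ?_⟩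
      by_contra hlt
      push Not at hlt
      obtain ⟨b, hab, hbz⟩ := exists_between hlt
      have hcont : Continuous (fun y : MaxSpace Hp => ‖ap y g‖) := (continuous_ap hg).norm
      have : Nonempty c := hne.to_subtype
      have hkey : (⋂ s : c, ((s : Set (MaxSpace Hp)) ∩ {y | b ≤ ‖ap y g‖})).Nonempty := by
        apply IsCompact.nonempty_iInter_of_directed_nonempty_isCompact_isClosed
        · rintro ⟨s, hs⟩ ⟨t, ht⟩
          rcases hchain.total hs ht with h | h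
          · exact ⟨⟨s, hs⟩, subset_rfl, inter_subset_inter_left _ h⟩
          · exact ⟨⟨t, ht⟩, inter_subset_inter_left _ h, subset_rfl⟩
        · rintro ⟨s, hs⟩
          by_contra hempty
          rw [not_nonempty_iff_eq_empty] at hempty
          have : ∀ y ∈ s, ‖ap y g‖ ≤ b := by
            intro y hy
            by_contra h
            push Not at h
            have : y ∈ s ∩ {y | b ≤ ‖ap y g‖} := ⟨hy, h.le⟩
            rw [hempty] at this
            exact this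
          have := (hc hs).2 g hg b this z hz
          linarith
        · rintro ⟨s, hs⟩
          exact (((hc hs).1).inter (isClosed_le continuous_const hcont)).isCompact
        · rintro ⟨s, hs⟩
          exact ((hc hs).1).inter (isClosed_le continuous_const hcont)
      obtain ⟨y, hy⟩ := hkey
      rw [mem_iInter] at hy
      have hy1 : y ∈ ⋂₀ c := by
        intro s hs
        exact (hy ⟨s, hs⟩).1
      obtain ⟨s, hs⟩ := hne
      have hy2 : b ≤ ‖ap y g‖ := (hy ⟨s, hs⟩).2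
      have := ha y hy1
      linarith) univ IsB_univ
  exact ⟨m, hm⟩

/-- peak-like functions at points of the minimal boundary -/
lemma exists_peak {E₀ : Set (MaxSpace Hp)} (hE : Minimal (· ∈ {E | IsB E}) E₀)
    {v : MaxSpace Hp} (hv : v ∈ E₀) {f₁ f₂ : ℂ → ℂ} (h₁ : BH Hp f₁) (h₂ : BH Hp f₂)
    (hv₁ : ap v f₁ = 0) (hv₂ : ap v f₂ = 0) {ε : ℝ} (hε : 0 < ε) :
    ∃ h, BH Hp h ∧ (∀ z ∈ Hp, ‖h z‖ ≤ 1) ∧ (∃ z₀ ∈ Hp, 1 / 2 < ‖h z₀‖) ∧
      ∀ z ∈ Hp, 1 / 2 < ‖h z‖ → ‖f₁ z‖ < ε ∧ ‖f₂ z‖ < ε := by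
  have hB : IsB E₀ := hE.prop
  set W : Set (MaxSpace Hp) := {x | ‖ap x f₁‖ < ε / 2} ∩ {x | ‖ap x f₂‖ < ε / 2} with hW
  have hWo : IsOpen W :=
    (isOpen_lt (continuous_ap h₁).norm continuous_const).inter
      (isOpen_lt (continuous_ap h₂).norm continuous_const)
  have hvW : v ∈ W := by
    constructor
    · show ‖ap v f₁‖ < ε / 2
      rw [hv₁, norm_zero]; positivity
    · show ‖ap v f₂‖ < ε / 2
      rw [hv₂, norm_zero]; positivity
  set E₁ : Set (MaxSpace Hp) := E₀ ∩ Wᶜ with hE₁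
  have hE₁c : IsClosed E₁ := hB.1.inter hWo.isClosed_compl
  have hnot : ¬ IsB E₁ := by
    intro h
    have := hE.le_of_le h inter_subset_left hv
    exact this.2 hvW
  -- a function that is large somewhere but small on `E₁`
  obtain ⟨g, hg, a, ha0, ha, z₁, hz₁, hgz₁⟩ : ∃ g, BH Hp g ∧ ∃ a : ℝ, 0 ≤ a ∧
      (∀ y ∈ E₁, ‖ap y g‖ ≤ a) ∧ ∃ z₁ ∈ Hp, a < ‖g z₁‖ := by
    by_cases hemp : E₁.Nonempty
    · have : ∃ g, BH Hp g ∧ ∃ a : ℝ, (∀ y ∈ E₁, ‖ap y g‖ ≤ a) ∧ ∃ z₁ ∈ Hp, a < ‖g z₁‖ := by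
        by_contra hcon
        push Not at hcon
        exact hnot ⟨hE₁c, hcon⟩
      obtain ⟨g, hg, a, ha, z₁, hz₁, h⟩ := this
      obtain ⟨y, hy⟩ := hemp
      exact ⟨g, hg, a, (norm_nonneg _).trans (ha y hy), ha, z₁, hz₁, h⟩
    · refine ⟨fun _ => 1, BH.const 1, 0, le_rfl, ?_, Complex.I, I_mem_Hp, by simp⟩
      intro y hy
      exact absurd ⟨y, hy⟩ hemp
  obtain ⟨C, hC⟩ := hg.2
  set s : ℝ := sSup ((fun z => ‖g z‖) '' Hp) with hs
  have hbdd : BddAbove ((fun z => ‖g z‖) '' Hp) := by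
    refine ⟨C, ?_⟩
    rintro _ ⟨z, hz, rfl⟩
    exact hC z hz
  have hgs : ∀ z ∈ Hp, ‖g z‖ ≤ s := fun z hz => le_csSup hbdd ⟨z, hz, rfl⟩
  have has : a < s := lt_of_lt_of_le hgz₁ (hgs z₁ hz₁)
  have hs0 : 0 < s := lt_of_le_of_lt ha0 has
  obtain ⟨C₁, hC₁⟩ := h₁.2
  obtain ⟨C₂, hC₂⟩ := h₂.2
  have hC₁0 : 0 ≤ C₁ := (norm_nonneg _).trans (hC₁ _ hz₁)
  have hC₂0 : 0 ≤ C₂ := (norm_nonneg _).trans (hC₂ _ hz₁)
  have hq0 : 0 ≤ a / s := by positivity
  have hq1 : a / s < 1 := (div_lt_one hs0).mpr has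
  obtain ⟨N, hN⟩ : ∃ N : ℕ, (a / s) ^ N < ε / 2 / (C₁ + C₂ + 1) :=
    exists_pow_lt_of_lt_one (by positivity) hq1
  have hN1 : (a / s) ^ N * C₁ ≤ ε / 2 := by
    rw [lt_div_iff₀ (by positivity)] at hN
    have : 0 ≤ (a / s) ^ N := by positivity
    nlinarith
  have hN2 : (a / s) ^ N * C₂ ≤ ε / 2 := by
    rw [lt_div_iff₀ (by positivity)] at hN
    have : 0 ≤ (a / s) ^ N := by positivity
    nlinarith
  set h : ℂ → ℂ := fun z => ((s : ℂ)⁻¹ * g z) ^ N with hh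
  have hgB : BH Hp (fun z => (s : ℂ)⁻¹ * g z) := hg.const_mul _
  have hhB : BH Hp h := hgB.pow N
  have hsn : ‖(s : ℂ)⁻¹‖ = s⁻¹ := by
    rw [norm_inv, Complex.norm_real, Real.norm_of_nonneg hs0.le]
  have hg1 : ∀ z ∈ Hp, ‖(s : ℂ)⁻¹ * g z‖ ≤ 1 := by
    intro z hz
    rw [norm_mul, hsn]
    calc s⁻¹ * ‖g z‖ ≤ s⁻¹ * s := mul_le_mul_of_nonneg_left (hgs z hz) (by positivity)
      _ = 1 := inv_mul_cancel₀ hs0.ne'
  have hh1 : ∀ z ∈ Hp, ‖h z‖ ≤ 1 := by
    intro z hz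
    simp only [hh]
    rw [norm_pow]
    exact pow_le_one₀ (norm_nonneg _) (hg1 z hz)
  have haph : ∀ y ∈ E₁, ‖ap y h‖ ≤ (a / s) ^ N := by
    intro y hy
    have e : ap y h = ((s : ℂ)⁻¹ * ap y g) ^ N := by
      simp only [hh]
      rw [ap_pow y hgB, ap_const_mul y _ hg]
    rw [e, norm_pow, norm_mul, hsn]
    apply pow_le_pow_left₀ (by positivity)
    calc s⁻¹ * ‖ap y g‖ ≤ s⁻¹ * a := mul_le_mul_of_nonneg_left (ha y hy) (by positivity)
      _ = a / s := by rw [div_eq_inv_mul]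
  have haph1 : ∀ y : MaxSpace Hp, ‖ap y h‖ ≤ 1 := fun y => ap_norm_le y hhB.1 hh1
  have key : ∀ f, BH Hp f → ∀ D : ℝ, 0 ≤ D → (∀ z ∈ Hp, ‖f z‖ ≤ D) → (a / s) ^ N * D ≤ ε / 2 →
      (∀ y ∈ W, ‖ap y f‖ < ε / 2) → ∀ z ∈ Hp, 1 / 2 < ‖h z‖ → ‖f z‖ < ε := by
    intro f hf D hD0 hD hND hfW z hz hhz
    have h1 : ∀ y ∈ E₀, ‖ap y (fun z => h z * f z)‖ ≤ ε / 2 := by
      intro y hy
      rw [ap_mul y hhB hf, norm_mul]
      by_cases hyW : y ∈ W
      · calc ‖ap y h‖ * ‖ap y f‖ ≤ 1 * ‖ap y f‖ :=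
              mul_le_mul_of_nonneg_right (haph1 y) (norm_nonneg _)
          _ ≤ ε / 2 := by rw [one_mul]; exact (hfW y hyW).le
      · have hyE : y ∈ E₁ := ⟨hy, hyW⟩
        calc ‖ap y h‖ * ‖ap y f‖ ≤ (a / s) ^ N * D :=
              mul_le_mul (haph y hyE) (ap_norm_le y hf.1 hD) (norm_nonneg _) (by positivity)
          _ ≤ ε / 2 := hND
    have h2 := hB.2 _ (hhB.mul hf) _ h1 z hz
    rw [norm_mul] at h2
    by_contra hcon
    push Not at hcon
    nlinarith [norm_nonneg (h z)]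
  refine ⟨h, hhB, hh1, ?_, fun z hz hhz => ⟨?_, ?_⟩⟩
  · -- a point where `|h| > 1/2`
    have ht : ∀ᶠ t : ℝ in 𝓝 1, 1 / 2 < t ^ N := by
      have : Tendsto (fun t : ℝ => t ^ N) (𝓝 1) (𝓝 (1 ^ N)) := (continuous_pow N).tendsto 1
      rw [one_pow] at this
      exact this.eventually (lt_mem_nhds (by norm_num))
    have ht2 : ∀ᶠ t : ℝ in 𝓝[<] 1, 1 / 2 < t ^ N ∧ 0 < t ∧ t < 1 := by
      have h1 : ∀ᶠ t : ℝ in 𝓝[<] 1, 1 / 2 < t ^ N := nhdsWithin_le_nhds ht
      have h2 : ∀ᶠ t : ℝ in 𝓝[<] 1, 0 < t :=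
        nhdsWithin_le_nhds (lt_mem_nhds (by norm_num))
      filter_upwards [h1, h2, self_mem_nhdsWithin] with t h1 h2 h3
      exact ⟨h1, h2, h3⟩
    obtain ⟨t, ht1, ht0, ht3⟩ := ht2.exists
    have hlt : t * s < s := by nlinarith
    obtain ⟨_, ⟨z₀, hz₀, rfl⟩, hz₀'⟩ := exists_lt_of_lt_csSup (Set.image_nonempty.mpr ⟨z₁, hz₁⟩)
      (show t * s < sSup ((fun z => ‖g z‖) '' Hp) from hlt)
    refine ⟨z₀, hz₀, ht1.trans_le ?_⟩
    simp only [hh]
    rw [norm_pow, norm_mul, hsn]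
    apply pow_le_pow_left₀ ht0.le
    rw [← div_eq_inv_mul, le_div_iff₀ hs0]
    exact hz₀'.le
  · exact key f₁ h₁ C₁ hC₁0 hC₁ hN1 (fun y hy => hy.1) z hz hhz
  · exact key f₂ h₂ C₂ hC₂0 hC₂ hN2 (fun y hy => hy.2) z hz hhz

lemma ap_eq_zero_of_part_of_roots {x x' : MaxSpace Hp} (hx' : x' ∈ part x) {F : ℂ → ℂ}
    (hroots : ∀ m : ℕ, m ≠ 0 → ∃ R : ℂ → ℂ, DifferentiableOn ℂ R Hp ∧
      (∀ z ∈ Hp, ‖R z‖ ≤ 1) ∧ ∀ z ∈ Hp, R z ^ m = F z) (h0 : ap x F = 0) : ap x' F = 0 := by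
  obtain ⟨ρ, hρ, hn⟩ := mem_part_iff.mp hx'
  have hρ0 : 0 ≤ ρ := by
    have := hn (fun _ => 0) (differentiableOn_const _) (fun _ _ => by simp)
    rw [ap_const, ap_const] at this
    simpa using this
  have key : ∀ m : ℕ, m ≠ 0 → ‖ap x' F‖ ≤ ρ ^ m := by
    intro m hm
    obtain ⟨R, hd, hb, hpow⟩ := hroots m hm
    have hB : BH Hp R := ⟨hd, 1, hb⟩
    have e : ∀ w : MaxSpace Hp, ap w F = ap w R ^ m := by
      intro w
      rw [← ap_pow w hB m]
      exact ap_congr w (hB.pow m) (fun z hz => (hpow z hz).symm)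
    have h1 : ap x R = 0 := by
      have := e x
      rw [h0] at this
      exact pow_eq_zero_iff hm |>.mp this.symm
    have h2 := hn.norm_le_of_eq_zero hd hb h1
    rw [e x', norm_pow]
    exact pow_le_pow_left₀ (norm_nonneg _) h2 m
  have ht : Tendsto (fun n : ℕ => ρ ^ n) atTop (𝓝 0) := tendsto_pow_atTop_nhds_zero_of_lt_one hρ0 hρ
  have h3 : ‖ap x' F‖ ≤ 0 := by
    apply ge_of_tendsto ht
    filter_upwards [eventually_ne_atTop 0] with n hn0
    exact key n hn0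
  exact norm_le_zero_iff.mp h3

lemma eq_one_of_norm_ge_one {w : ℂ} (h1 : 1 ≤ ‖w‖) (h2 : ‖2 * w - 1‖ ≤ 1) : w = 1 := by
  have h3 : ‖w‖ ^ 2 = w.re ^ 2 + w.im ^ 2 := by
    rw [← Complex.normSq_eq_norm_sq, Complex.normSq_apply]; ring
  have h4 : ‖2 * w - 1‖ ^ 2 = (2 * w.re - 1) ^ 2 + (2 * w.im) ^ 2 := by
    rw [← Complex.normSq_eq_norm_sq, Complex.normSq_apply]
    simp
    ring
  have h5 : ‖2 * w - 1‖ ^ 2 ≤ 1 := pow_le_one₀ (norm_nonneg _) h2
  have h6 : 1 ≤ ‖w‖ ^ 2 := one_le_pow₀ h1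
  have h7 : w.re ^ 2 + w.im ^ 2 ≤ w.re := by nlinarith
  have h8 : w.re = 1 := by nlinarith [sq_nonneg w.im, sq_nonneg (w.re - 1)]
  have h9 : w.im = 0 := by
    have : w.im ^ 2 ≤ 0 := by nlinarith
    exact pow_eq_zero_iff (two_ne_zero) |>.mp (le_antisymm this (sq_nonneg _))
  exact Complex.ext h8 h9

/-- the localising factor `iε/(z+iε)` -/
noncomputable def gloc (ε : ℝ) (z : ℂ) : ℂ := Complex.I * ε / (z + Complex.I * ε)

lemma gloc_den_im {ε : ℝ} (z : ℂ) : (z + Complex.I * ε).im = z.im + ε := by simp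

lemma gloc_den_ne {ε : ℝ} (hε : 0 < ε) {z : ℂ} (hz : z ∈ Hp) : z + Complex.I * ε ≠ 0 := by
  intro h
  have h1 := congrArg Complex.im h
  rw [gloc_den_im] at h1
  have := mem_Hp.mp hz
  simp at h1
  linarith

lemma gloc_differentiableOn {ε : ℝ} (hε : 0 < ε) : DifferentiableOn ℂ (gloc ε) Hp := by
  unfold gloc
  exact (differentiableOn_const _).div (differentiable_id.add_const _).differentiableOn
    (fun z hz => gloc_den_ne hε hz)

lemma norm_gloc_le_one {ε : ℝ} (hε : 0 < ε) {z : ℂ} (hz : z ∈ Hp) : ‖gloc ε z‖ ≤ 1 := by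
  unfold gloc
  rw [norm_div, norm_mul, Complex.norm_I, one_mul, Complex.norm_real, Real.norm_of_nonneg hε.le]
  apply div_le_one_of_le₀ _ (norm_nonneg _)
  have h1 := Complex.abs_im_le_norm (z + Complex.I * ε)
  rw [gloc_den_im] at h1
  have := mem_Hp.mp hz
  have h2 := le_abs_self (z.im + ε)
  linarith

lemma norm_gloc_le {ε : ℝ} (hε : 0 < ε) {z : ℂ} (hz : z ∈ Hp) : ‖gloc ε z‖ ≤ ε / ‖z‖ := by
  unfold gloc
  rw [norm_div, norm_mul, Complex.norm_I, one_mul, Complex.norm_real, Real.norm_of_nonneg hε.le]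
  have hz0 : 0 < ‖z‖ := norm_pos_iff.mpr (Hp_ne_zero hz)
  apply div_le_div_of_nonneg_left hε.le hz0
  apply le_of_sq_le_sq _ (norm_nonneg _)
  rw [← Complex.normSq_eq_norm_sq, ← Complex.normSq_eq_norm_sq, Complex.normSq_apply,
    Complex.normSq_apply, gloc_den_im]
  have h1 : (z + Complex.I * ε).re = z.re := by simp
  rw [h1]
  have := mem_Hp.mp hz
  nlinarith

lemma ap_gloc {x : MaxSpace Hp} (hx : ap x g0 = 1) {ε : ℝ} (hε : 0 < ε) :
    ap x (gloc ε) = 1 := by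
  have hB : BH Hp (gloc ε) := ⟨gloc_differentiableOn hε, 1, fun z hz => norm_gloc_le_one hε hz⟩
  rw [ap_eq_of_over hx hB (BH.const 1) (C := 1 / ε), ap_const]
  intro z hz
  have hne := gloc_den_ne hε hz
  have e : gloc ε z - 1 = -(z / (z + Complex.I * ε)) := by
    unfold gloc
    field_simp
    ring
  rw [e, norm_neg, norm_div, div_le_iff₀ (norm_pos_iff.mpr hne)]
  have h1 := Complex.abs_im_le_norm (z + Complex.I * ε)
  rw [gloc_den_im] at h1
  have := mem_Hp.mp hz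
  have h2 := le_abs_self (z.im + ε)
  have h3 : ε ≤ ‖z + Complex.I * ε‖ := by linarith
  have h4 : (1 : ℝ) ≤ 1 / ε * ‖z + Complex.I * ε‖ := by
    rw [one_div, ← div_eq_inv_mul, le_div_iff₀ hε]
    linarith
  nlinarith [norm_nonneg z]

theorem exists_basePoint : ∃ v : MaxSpace Hp, BasePoint v := by
  obtain ⟨E₀, hE⟩ := exists_minimal_IsB
  have hB : IsB E₀ := hE.prop
  have hne : E₀.Nonempty := by
    by_contra h
    rw [not_nonempty_iff_eq_empty] at h
    have := hB.2 (fun _ => 1) (BH.const 1) 0 (by rw [h]; simp) Complex.I I_mem_Hp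
    norm_num at this
  obtain ⟨v, hv, hmax⟩ := hB.1.isCompact.exists_isMaxOn hne (continuous_ap BH_g0).norm.continuousOn
  have hv1 : 1 ≤ ‖ap v g0‖ := by
    have h1 : ∀ z ∈ Hp, ‖g0 z‖ ≤ ‖ap v g0‖ := hB.2 g0 BH_g0 _ (fun y hy => hmax hy)
    have h2 : ∀ t : ℝ, 0 < t → 1 / (1 + t) ≤ ‖ap v g0‖ := by
      intro t ht
      have h3 := h1 (t * Complex.I) (by simp [mem_Hp, ht])
      have h4 : ‖g0 (t * Complex.I)‖ = 1 / (1 + t) := by
        unfold g0
        have : (t * Complex.I + Complex.I : ℂ) = ((1 + t : ℝ) : ℂ) * Complex.I := by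
          push_cast; ring
        rw [this, norm_div, norm_mul, Complex.norm_I, mul_one, Complex.norm_real,
          Real.norm_of_nonneg (by positivity)]
      rwa [h4] at h3
    have h5 : Tendsto (fun t : ℝ => 1 / (1 + t)) (𝓝[>] 0) (𝓝 (1 / (1 + 0))) := by
      apply Tendsto.mono_left _ nhdsWithin_le_nhds
      apply ContinuousAt.tendsto
      apply ContinuousAt.div continuousAt_const (by fun_prop) (by norm_num)
    have h6 := le_of_tendsto h5 (by
      filter_upwards [self_mem_nhdsWithin] with t ht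
      exact h2 t ht)
    simpa using h6
  have hv0 : ap v g0 = 1 := by
    apply eq_one_of_norm_ge_one hv1
    have hBg : BH Hp (fun z => 2 * g0 z - 1) := (BH_g0.const_mul 2).sub (BH.const 1)
    have e : ap v (fun z => 2 * g0 z - 1) = 2 * ap v g0 - 1 := by
      rw [ap_sub v (BH_g0.const_mul 2) (BH.const 1), ap_const_mul v 2 BH_g0, ap_const]
    rw [← e]
    apply ap_norm_le v hBg.1
    intro z hz
    have hne := add_I_ne_zero hz
    have e2 : 2 * g0 z - 1 = -ww z := by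
      unfold g0 ww
      field_simp
      ring
    rw [e2, norm_neg]
    exact (norm_ww_lt_one hz).le
  refine ⟨v, hv0, fun x' hx' hxv => ?_⟩
  -- a separating function
  obtain ⟨f, hf, hfne⟩ : ∃ f, BH Hp f ∧ ap x' f ≠ ap v f := by
    by_contra h
    push Not at h
    exact hxv (ap_ext h)
  set c := ap v f with hc
  set η : ℝ := ‖ap x' f - c‖ / 2 with hη
  have hη0 : 0 < η := by
    have : 0 < ‖ap x' f - c‖ := norm_pos_iff.mpr (sub_ne_zero.mpr hfne)
    positivity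
  have hηn : ‖(η : ℂ)⁻¹‖ = η⁻¹ := by
    rw [norm_inv, Complex.norm_real, Real.norm_of_nonneg hη0.le]
  have hfc : BH Hp (fun z => f z - c) := hf.sub (BH.const c)
  set φ : ℂ → ℂ := fun z => (η : ℂ)⁻¹ * (f z - c) with hφ
  have hφB : BH Hp φ := hfc.const_mul _
  obtain ⟨B, hB1, hφb⟩ : ∃ B : ℝ, 1 ≤ B ∧ ∀ z ∈ Hp, ‖φ z‖ ≤ B := by
    obtain ⟨B, hB⟩ := hφB.2
    exact ⟨max B 1, le_max_right _ _, fun z hz => (hB z hz).trans (le_max_left _ _)⟩
  have hapφ : ‖ap x' φ‖ = 2 := by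
    simp only [hφ]
    rw [ap_const_mul x' _ hfc, ap_sub x' hf (BH.const c), ap_const, norm_mul, hηn, hη]
    have : ‖ap x' f - c‖ ≠ 0 := (norm_pos_iff.mpr (sub_ne_zero.mpr hfne)).ne'
    field_simp
  set ε : ℕ → ℝ := fun k => (B ^ k)⁻¹ ^ 2 with hε
  have hBk : ∀ k : ℕ, 1 ≤ B ^ k := fun k => one_le_pow₀ hB1
  have hε0 : ∀ k, 0 < ε k := by
    intro k
    have := hBk k
    simp only [hε]
    positivity
  set H : ℕ → ℂ → ℂ := fun k z => φ z ^ k * gloc (ε k) z with hH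
  have hglB : ∀ k, BH Hp (gloc (ε k)) := fun k =>
    ⟨gloc_differentiableOn (hε0 k), 1, fun z hz => norm_gloc_le_one (hε0 k) hz⟩
  have hHB : ∀ k, BH Hp (H k) := fun k => (hφB.pow k).mul (hglB k)
  obtain ⟨F, hFd, hF1, hFH, hFmax, hroots⟩ := exists_extremal_Hp H (fun k => (hHB k).1)
  have hFB : BH Hp F := ⟨hFd, 1, hF1⟩
  -- the competitor `z / (z + i)`
  have hFpos : ∀ z ∈ Hp, 0 < ‖F z‖ := by
    intro z hz
    have hz0 : 0 < ‖z‖ := norm_pos_iff.mpr (Hp_ne_zero hz)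
    have hK1 : ∀ z ∈ Hp, ‖z / (z + Complex.I)‖ ≤ 1 := by
      intro z hz
      have hz0 : 0 < ‖z‖ := norm_pos_iff.mpr (Hp_ne_zero hz)
      rw [norm_div]
      apply div_le_one_of_le₀ _ (norm_nonneg _)
      apply le_of_sq_le_sq _ (norm_nonneg _)
      rw [← Complex.normSq_eq_norm_sq, ← Complex.normSq_eq_norm_sq, Complex.normSq_apply,
        Complex.normSq_apply]
      have := mem_Hp.mp hz
      simp only [Complex.add_re, Complex.add_im, Complex.I_re, Complex.I_im]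
      nlinarith
    have hK2 : ∀ z ∈ Hp, ‖z / (z + Complex.I)‖ ≤ ‖z‖ := by
      intro z hz
      rw [norm_div]
      exact div_le_self (norm_nonneg _) (norm_add_I_ge hz)
    have hKmem := hFmax (fun z => z / (z + Complex.I))
      (differentiableOn_id.div (differentiable_id.add_const _).differentiableOn
        (fun z hz => add_I_ne_zero hz)) hK1
      (by
        intro k z hz
        have hz0 : 0 < ‖z‖ := norm_pos_iff.mpr (Hp_ne_zero hz)
        have hb := hBk k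
        have hb0 : 0 < B ^ k := by linarith
        have h1 : ‖H k z‖ ≤ B ^ k * ‖gloc (ε k) z‖ := by
          simp only [hH]
          rw [norm_mul, norm_pow]
          exact mul_le_mul_of_nonneg_right (pow_le_pow_left₀ (norm_nonneg _) (hφb z hz) k)
            (norm_nonneg _)
        rw [norm_mul]
        rcases le_total (B ^ k * ‖z‖) 1 with h | h
        · calc ‖z / (z + Complex.I)‖ * ‖H k z‖ ≤ ‖z‖ * (B ^ k * 1) := by
                apply mul_le_mul (hK2 z hz) _ (norm_nonneg _) (norm_nonneg _)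
                exact h1.trans (mul_le_mul_of_nonneg_left (norm_gloc_le_one (hε0 k) hz) hb0.le)
            _ = B ^ k * ‖z‖ := by ring
            _ ≤ 1 := h
        · have h2 : B ^ k * ‖gloc (ε k) z‖ ≤ B ^ k * (ε k / ‖z‖) :=
            mul_le_mul_of_nonneg_left (norm_gloc_le (hε0 k) hz) hb0.le
          have h3 : B ^ k * (ε k / ‖z‖) = 1 / (B ^ k * ‖z‖) := by
            simp only [hε]
            field_simp
          calc ‖z / (z + Complex.I)‖ * ‖H k z‖ ≤ 1 * (1 / (B ^ k * ‖z‖)) := by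
                apply mul_le_mul (hK1 z hz) _ (norm_nonneg _) zero_le_one
                rw [← h3]
                exact h1.trans h2
            _ ≤ 1 := by
                rw [one_mul]
                exact div_le_one_of_le₀ h (by positivity)) z hz
    refine lt_of_lt_of_le ?_ hKmem
    rw [norm_pos_iff]
    exact div_ne_zero (Hp_ne_zero hz) (add_I_ne_zero hz)
  -- `F` vanishes at `x'`
  have hx'F : ap x' F = 0 := by
    have key : ∀ k : ℕ, ‖ap x' F‖ * 2 ^ k ≤ 1 := by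
      intro k
      have h1 : ap x' (H k) = ap x' φ ^ k := by
        simp only [hH]
        rw [ap_mul x' (hφB.pow k) (hglB k), ap_pow x' hφB, ap_gloc hx' (hε0 k), mul_one]
      have h2 : ‖ap x' (fun z => F z * H k z)‖ ≤ 1 :=
        ap_norm_le x' (hFB.mul (hHB k)).1 (hFH k)
      rw [ap_mul x' hFB (hHB k), norm_mul, h1, norm_pow, hapφ] at h2
      exact h2
    by_contra hne
    have hpos : 0 < ‖ap x' F‖ := norm_pos_iff.mpr hne
    obtain ⟨k, hk⟩ := pow_unbounded_of_one_lt (1 / ‖ap x' F‖) (one_lt_two)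
    have h1 := key k
    rw [div_lt_iff₀ hpos] at hk
    linarith
  refine ⟨F, hFB, fun x'' hx'' => ap_eq_zero_of_part_of_roots hx'' hroots hx'F, ?_⟩
  -- `F` does not vanish at `v`
  intro hvF
  have hvf : ap v (fun z => f z - c) = 0 := by
    rw [ap_sub v hf (BH.const c), ap_const, hc, sub_self]
  obtain ⟨h, hhB, hh1, ⟨z₀, hz₀, hhz₀⟩, hh⟩ :=
    exists_peak hE hv hfc hFB hvf hvF (ε := min η (1 / 2)) (by positivity)
  set lam : ℂ := conj (h z₀) / ‖h z₀‖ with hlam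
  have hhz₀0 : 0 < ‖h z₀‖ := by linarith
  have hlam1 : ‖lam‖ = 1 := by
    rw [hlam, norm_div, Complex.norm_conj, Complex.norm_real, norm_norm]
    exact div_self hhz₀0.ne'
  have hlamz : lam * h z₀ = ‖h z₀‖ := by
    rw [hlam, div_mul_eq_mul_div, Complex.conj_mul']
    have : (‖h z₀‖ : ℂ) ≠ 0 := by exact_mod_cast hhz₀0.ne'
    field_simp
  set K : ℂ → ℂ := fun z => (2 / 3) * (F z * (1 + lam * h z)) with hK
  have hKB : BH Hp K := (hFB.mul ((BH.const 1).add (hhB.const_mul lam))).const_mul _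
  have hKn : ∀ z, ‖K z‖ = 2 / 3 * (‖F z‖ * ‖1 + lam * h z‖) := by
    intro z
    simp only [hK]
    rw [norm_mul, norm_mul]
    norm_num
  have hsum : ∀ z, ‖1 + lam * h z‖ ≤ 1 + ‖h z‖ := by
    intro z
    calc ‖1 + lam * h z‖ ≤ ‖(1 : ℂ)‖ + ‖lam * h z‖ := norm_add_le _ _
      _ = 1 + ‖h z‖ := by rw [norm_one, norm_mul, hlam1, one_mul]
  have hcases : ∀ z ∈ Hp, ‖K z‖ ≤ ‖F z‖ ∨ (‖K z‖ ≤ 1 ∧ ‖φ z‖ ≤ 1) := by
    intro z hz
    rcases le_or_gt ‖h z‖ (1 / 2) with hle | hgt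
    · left
      rw [hKn]
      have h1 := hsum z
      nlinarith [norm_nonneg (F z)]
    · right
      obtain ⟨h1, h2⟩ := hh z hz hgt
      constructor
      · rw [hKn]
        have h3 := hsum z
        have h4 := hh1 z hz
        have h5 : ‖F z‖ < 1 / 2 := h2.trans_le (min_le_right _ _)
        have h6 : ‖1 + lam * h z‖ ≤ 2 := by linarith
        nlinarith [norm_nonneg (F z), norm_nonneg (1 + lam * h z)]
      · simp only [hφ]
        rw [norm_mul, hηn, ← div_eq_inv_mul, div_le_one hη0]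
        exact (h1.trans_le (min_le_left _ _)).le
  have hK1 : ∀ z ∈ Hp, ‖K z‖ ≤ 1 := by
    intro z hz
    rcases hcases z hz with h1 | ⟨h1, _⟩
    · exact h1.trans (hF1 z hz)
    · exact h1
  have hKH : ∀ k, ∀ z ∈ Hp, ‖K z * H k z‖ ≤ 1 := by
    intro k z hz
    rcases hcases z hz with h1 | ⟨h1, h2⟩
    · have h3 := hFH k z hz
      rw [norm_mul] at h3 ⊢
      exact (mul_le_mul_of_nonneg_right h1 (norm_nonneg _)).trans h3
    · rw [norm_mul]
      have h3 : ‖H k z‖ ≤ 1 := by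
        simp only [hH]
        rw [norm_mul, norm_pow]
        exact mul_le_one₀ (pow_le_one₀ (norm_nonneg _) h2) (norm_nonneg _)
          (norm_gloc_le_one (hε0 k) hz)
      exact mul_le_one₀ h1 (norm_nonneg _) h3
  have hfinal := hFmax K hKB.1 hK1 hKH z₀ hz₀
  rw [hKn, hlamz] at hfinal
  have h1 : ‖(1 + (‖h z₀‖ : ℂ))‖ = 1 + ‖h z₀‖ := by
    have : (1 + (‖h z₀‖ : ℂ)) = ((1 + ‖h z₀‖ : ℝ) : ℂ) := by push_cast; rfl
    rw [this, Complex.norm_real, Real.norm_of_nonneg (by positivity)]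
  rw [h1] at hfinal
  have h2 := hFpos z₀ hz₀
  nlinarith

end Pool.Agent.Lib.MP_264cca_an
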