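import Pool.Agent.Lib.MP_264cca_an.Defs

/-!
# Basic facts: raw functions, contractivity, Gleason relation, compactness
-/

open Set Topology Filter
open scoped ComplexConjugate

namespace Pool.Agent.Lib.MP_264cca_an

/-- bounded analytic on `Ω` (raw functions on `ℂ`) -/
def BH (Ω : Set ℂ) (g : ℂ → ℂ) : Prop :=
  DifferentiableOn ℂ g Ω ∧ ∃ C : ℝ, ∀ z ∈ Ω, ‖g z‖ ≤ C

variable {Ω : Set ℂ}

lemma BH.diff {g : ℂ → ℂ} (h : BH Ω g) : DifferentiableOn ℂ g Ω := h.1

lemma BH.add {g h : ℂ → ℂ} (hg : BH Ω g) (hh : BH Ω h) : BH Ω (fun z => g z + h z) := by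
  obtain ⟨C, hC⟩ := hg.2
  obtain ⟨D, hD⟩ := hh.2
  exact ⟨hg.1.add hh.1, C + D, fun z hz => (norm_add_le _ _).trans (add_le_add (hC z hz) (hD z hz))⟩

lemma BH.neg {g : ℂ → ℂ} (hg : BH Ω g) : BH Ω (fun z => - g z) := by
  obtain ⟨C, hC⟩ := hg.2
  exact ⟨hg.1.neg, C, fun z hz => by simpa using hC z hz⟩

lemma BH.sub {g h : ℂ → ℂ} (hg : BH Ω g) (hh : BH Ω h) : BH Ω (fun z => g z - h z) := by
  obtain ⟨C, hC⟩ := hg.2
  obtain ⟨D, hD⟩ := hh.2
  exact ⟨hg.1.sub hh.1, C + D, fun z hz => (norm_sub_le _ _).trans (add_le_add (hC z hz) (hD z hz))⟩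

lemma BH.mul {g h : ℂ → ℂ} (hg : BH Ω g) (hh : BH Ω h) : BH Ω (fun z => g z * h z) := by
  obtain ⟨C, hC⟩ := hg.2
  obtain ⟨D, hD⟩ := hh.2
  refine ⟨hg.1.mul hh.1, |C| * |D|, fun z hz => ?_⟩
  rw [norm_mul]
  exact mul_le_mul ((hC z hz).trans (le_abs_self _)) ((hD z hz).trans (le_abs_self _))
    (norm_nonneg _) (abs_nonneg _)

lemma BH.const (c : ℂ) : BH Ω (fun _ => c) :=
  ⟨differentiableOn_const _, ‖c‖, fun _ _ => le_refl _⟩

lemma BH.const_mul {g : ℂ → ℂ} (c : ℂ) (hg : BH Ω g) : BH Ω (fun z => c * g z) :=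
  (BH.const c).mul hg

lemma BH.pow {g : ℂ → ℂ} (hg : BH Ω g) (n : ℕ) : BH Ω (fun z => g z ^ n) := by
  induction n with
  | zero => simpa using BH.const (Ω := Ω) 1
  | succ n ih => simpa [pow_succ] using ih.mul hg

lemma BH.congr {g h : ℂ → ℂ} (hg : BH Ω g) (e : ∀ z ∈ Ω, h z = g z) : BH Ω h := by
  obtain ⟨C, hC⟩ := hg.2
  exact ⟨hg.1.congr e, C, fun z hz => by rw [e z hz]; exact hC z hz⟩

lemma BH.of_bound {g : ℂ → ℂ} (hd : DifferentiableOn ℂ g Ω) {C : ℝ} (hC : ∀ z ∈ Ω, ‖g z‖ ≤ C) :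
    BH Ω g := ⟨hd, C, hC⟩

/-- the element of `H^∞(Ω)` given by a raw function -/
noncomputable def toH (g : ℂ → ℂ) (hg : BH Ω g) : Hinf Ω :=
  ⟨fun z => g z, ⟨⟨g, hg.1, fun _ => rfl⟩, hg.2.choose, fun z => hg.2.choose_spec z z.2⟩⟩

lemma exists_raw (f : Hinf Ω) : ∃ (g : ℂ → ℂ) (hg : BH Ω g), f = toH g hg := by
  obtain ⟨f, ⟨g, hg, hfg⟩, C, hC⟩ := f
  refine ⟨g, ⟨hg, C, fun z hz => ?_⟩, ?_⟩
  · have := hC ⟨z, hz⟩
    rwa [hfg] at this
  · apply Subtype.ext
    funext z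
    exact hfg z

open Classical in
/-- evaluation of a character at a raw function -/
noncomputable def ap (x : MaxSpace Ω) (g : ℂ → ℂ) : ℂ :=
  if hg : BH Ω g then x (toH g hg) else 0

lemma ap_eq (x : MaxSpace Ω) {g : ℂ → ℂ} (hg : BH Ω g) : ap x g = x (toH g hg) := dif_pos hg

lemma toH_congr {g h : ℂ → ℂ} (hg : BH Ω g) (hh : BH Ω h) (e : ∀ z ∈ Ω, g z = h z) :
    toH g hg = toH h hh := by
  apply Subtype.ext
  funext z
  exact e z z.2

lemma ap_congr (x : MaxSpace Ω) {g h : ℂ → ℂ} (hg : BH Ω g) (e : ∀ z ∈ Ω, h z = g z) :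
    ap x h = ap x g := by
  rw [ap_eq x hg, ap_eq x (hg.congr e), toH_congr _ _ e]

lemma ap_add (x : MaxSpace Ω) {g h : ℂ → ℂ} (hg : BH Ω g) (hh : BH Ω h) :
    ap x (fun z => g z + h z) = ap x g + ap x h := by
  rw [ap_eq x hg, ap_eq x hh, ap_eq x (hg.add hh), ← map_add]
  rfl

lemma ap_mul (x : MaxSpace Ω) {g h : ℂ → ℂ} (hg : BH Ω g) (hh : BH Ω h) :
    ap x (fun z => g z * h z) = ap x g * ap x h := by
  rw [ap_eq x hg, ap_eq x hh, ap_eq x (hg.mul hh), ← map_mul]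
  rfl

lemma ap_const (x : MaxSpace Ω) (c : ℂ) : ap x (fun _ => c) = c := by
  rw [ap_eq x (BH.const c)]
  have : toH (fun _ => c) (BH.const (Ω := Ω) c) = algebraMap ℂ (Hinf Ω) c := by
    apply Subtype.ext; funext z; rfl
  rw [this, AlgHom.commutes]
  rfl

lemma ap_const_mul (x : MaxSpace Ω) {g : ℂ → ℂ} (c : ℂ) (hg : BH Ω g) :
    ap x (fun z => c * g z) = c * ap x g := by
  rw [ap_mul x (BH.const c) hg, ap_const]

lemma ap_neg (x : MaxSpace Ω) {g : ℂ → ℂ} (hg : BH Ω g) :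
    ap x (fun z => - g z) = - ap x g := by
  rw [ap_eq x hg, ap_eq x hg.neg, ← map_neg]
  rfl

lemma ap_sub (x : MaxSpace Ω) {g h : ℂ → ℂ} (hg : BH Ω g) (hh : BH Ω h) :
    ap x (fun z => g z - h z) = ap x g - ap x h := by
  rw [ap_eq x hg, ap_eq x hh, ap_eq x (hg.sub hh), ← map_sub]
  rfl

lemma ap_pow (x : MaxSpace Ω) {g : ℂ → ℂ} (hg : BH Ω g) (n : ℕ) :
    ap x (fun z => g z ^ n) = (ap x g) ^ n := by
  induction n with
  | zero => simp only [pow_zero]; exact ap_const x 1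
  | succ n ih =>
    simp only [pow_succ]
    rw [ap_mul x (hg.pow n) hg, ih]

lemma ap_ext {x y : MaxSpace Ω} (h : ∀ g, BH Ω g → ap x g = ap y g) : x = y := by
  apply AlgHom.ext
  intro f
  obtain ⟨g, hg, rfl⟩ := exists_raw f
  have := h g hg
  rwa [ap_eq x hg, ap_eq y hg] at this

/-- constructing characters from functionals on raw functions -/
lemma exists_char (χ : (ℂ → ℂ) → ℂ)
    (hc : ∀ g h, BH Ω g → BH Ω h → (∀ z ∈ Ω, g z = h z) → χ g = χ h)
    (ha : ∀ g h, BH Ω g → BH Ω h → χ (fun z => g z + h z) = χ g + χ h)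
    (hm : ∀ g h, BH Ω g → BH Ω h → χ (fun z => g z * h z) = χ g * χ h)
    (h1 : ∀ c : ℂ, χ (fun _ => c) = c) :
    ∃ x : MaxSpace Ω, ∀ g, BH Ω g → ap x g = χ g := by
  classical
  choose raw hraw hfr using fun f : Hinf Ω => exists_raw f
  have key : ∀ (f : Hinf Ω) (g : ℂ → ℂ) (hg : BH Ω g), f = toH g hg → χ (raw f) = χ g := by
    intro f g hg hf
    apply hc _ _ (hraw f) hg
    intro z hz
    have h2 : toH (raw f) (hraw f) = toH g hg := by rw [← hfr f, hf]
    have h3 := congrArg (fun u : Hinf Ω => (u : Ω → ℂ) ⟨z, hz⟩) h2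
    exact h3
  refine ⟨{ toFun := fun f => χ (raw f)
            map_one' := ?_
            map_mul' := ?_
            map_zero' := ?_
            map_add' := ?_
            commutes' := ?_ }, ?_⟩
  · rw [key 1 (fun _ => 1) (BH.const 1) (by apply Subtype.ext; funext z; rfl)]
    exact h1 1
  · intro f₁ f₂
    rw [key (f₁ * f₂) (fun z => raw f₁ z * raw f₂ z) ((hraw f₁).mul (hraw f₂)), hm _ _ (hraw f₁) (hraw f₂)]
    conv_lhs => rw [hfr f₁, hfr f₂]
    rfl
  · rw [key 0 (fun _ => 0) (BH.const 0) (by apply Subtype.ext; funext z; rfl)]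
    exact h1 0
  · intro f₁ f₂
    rw [key (f₁ + f₂) (fun z => raw f₁ z + raw f₂ z) ((hraw f₁).add (hraw f₂)), ha _ _ (hraw f₁) (hraw f₂)]
    conv_lhs => rw [hfr f₁, hfr f₂]
    rfl
  · intro c
    rw [key (algebraMap ℂ (Hinf Ω) c) (fun _ => c) (BH.const c) (by apply Subtype.ext; funext z; rfl)]
    exact h1 c
  · intro g hg
    rw [ap_eq _ hg]
    exact key (toH g hg) g hg rfl

/-- characters are contractive -/
lemma ap_norm_le (x : MaxSpace Ω) {g : ℂ → ℂ} (hd : DifferentiableOn ℂ g Ω) {C : ℝ}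
    (hC : ∀ z ∈ Ω, ‖g z‖ ≤ C) : ‖ap x g‖ ≤ C := by
  by_contra hlt
  push Not at hlt
  set c := ap x g with hc
  have hg : BH Ω g := ⟨hd, C, hC⟩
  have hne : ∀ z ∈ Ω, g z - c ≠ 0 := by
    intro z hz h
    have : g z = c := sub_eq_zero.mp h
    have h2 := hC z hz
    rw [this] at h2
    linarith
  have hinv : BH Ω (fun z => (g z - c)⁻¹) := by
    refine ⟨(hd.sub_const c).inv hne, (‖c‖ - C)⁻¹, fun z hz => ?_⟩
    rw [norm_inv]
    apply inv_anti₀ (by linarith)
    have h1 := norm_sub_norm_le c (g z)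
    rw [norm_sub_rev] at h1
    have h2 := hC z hz
    linarith
  have hsub : BH Ω (fun z => g z - c) := hg.sub (BH.const c)
  have h0 : ap x (fun z => g z - c) = 0 := by
    rw [ap_sub x hg (BH.const c), ap_const, ← hc, sub_self]
  have h1 : ap x (fun z => (g z - c) * (g z - c)⁻¹) = 1 := by
    rw [ap_congr x (BH.const 1) (h := fun z => (g z - c) * (g z - c)⁻¹)
      (fun z hz => mul_inv_cancel₀ (hne z hz))]
    exact ap_const x 1
  rw [ap_mul x hsub hinv, h0, zero_mul] at h1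
  exact zero_ne_one h1

/-! ### The Gleason relation -/

/-- `x` and `y` are at pseudo-hyperbolic distance at most `ρ`, in the symmetric form -/
def Near (ρ : ℝ) (x y : MaxSpace Ω) : Prop :=
  ∀ g : ℂ → ℂ, DifferentiableOn ℂ g Ω → (∀ z ∈ Ω, ‖g z‖ ≤ 1) →
    ‖ap x g - ap y g‖ ≤ ρ * ‖1 - conj (ap y g) * ap x g‖

lemma Near.symm {ρ : ℝ} {x y : MaxSpace Ω} (h : Near ρ x y) : Near ρ y x := by
  intro g hd hg
  have := h g hd hg
  rw [norm_sub_rev]
  refine this.trans (le_of_eq ?_)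
  congr 1
  rw [← Complex.norm_conj]
  congr 1
  simp only [map_sub, map_one, map_mul, Complex.conj_conj]
  ring

lemma rho_set_bdd (x y : MaxSpace Ω) :
    BddAbove {r : ℝ | ∃ f : Hinf Ω, (∀ z : Ω, ‖(f : Ω → ℂ) z‖ ≤ 1) ∧ x f = 0 ∧ r = ‖y f‖} := by
  refine ⟨1, ?_⟩
  rintro r ⟨f, hf, -, rfl⟩
  obtain ⟨g, hg, rfl⟩ := exists_raw f
  rw [← ap_eq y hg]
  exact ap_norm_le y hg.1 (fun z hz => hf ⟨z, hz⟩)

lemma le_rho (x y : MaxSpace Ω) {g : ℂ → ℂ} (hd : DifferentiableOn ℂ g Ω)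
    (hg : ∀ z ∈ Ω, ‖g z‖ ≤ 1) (h0 : ap x g = 0) : ‖ap y g‖ ≤ rho x y := by
  have hB : BH Ω g := ⟨hd, 1, hg⟩
  apply le_csSup (rho_set_bdd x y)
  refine ⟨toH g hB, fun z => hg z z.2, ?_, ?_⟩
  · rw [← ap_eq x hB]; exact h0
  · rw [← ap_eq y hB]

lemma rho_nonneg (x y : MaxSpace Ω) : 0 ≤ rho x y := by
  have := le_rho x y (g := fun _ => 0) (differentiableOn_const _) (fun z _ => by simp)
    (ap_const x 0)
  exact (norm_nonneg _).trans this

lemma rho_le {x y : MaxSpace Ω} {ρ : ℝ}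
    (h : ∀ g : ℂ → ℂ, DifferentiableOn ℂ g Ω → (∀ z ∈ Ω, ‖g z‖ ≤ 1) → ap x g = 0 →
      ‖ap y g‖ ≤ ρ) : rho x y ≤ ρ := by
  apply csSup_le
  · exact ⟨_, 0, fun z => by simp, map_zero _, rfl⟩
  · rintro r ⟨f, hf, hf0, rfl⟩
    obtain ⟨g, hg, rfl⟩ := exists_raw f
    rw [← ap_eq y hg]
    apply h g hg.1 (fun z hz => hf ⟨z, hz⟩)
    rw [ap_eq x hg]; exact hf0

/-- auxiliary: the Möbius inequality `|a - b| ≤ |1 - conj b a|` on the closed disc -/
lemma norm_sub_le_one_sub_conj_mul {a b : ℂ} (ha : ‖a‖ ≤ 1) (hb : ‖b‖ ≤ 1) :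
    ‖a - b‖ ≤ ‖1 - conj b * a‖ := by
  have h1 : ‖1 - conj b * a‖ ^ 2 - ‖a - b‖ ^ 2 = (1 - ‖a‖ ^ 2) * (1 - ‖b‖ ^ 2) := by
    rw [← Complex.normSq_eq_norm_sq, ← Complex.normSq_eq_norm_sq, ← Complex.normSq_eq_norm_sq,
      ← Complex.normSq_eq_norm_sq]
    simp only [Complex.normSq_apply, Complex.sub_re, Complex.sub_im, Complex.one_re, Complex.one_im,
      Complex.mul_re, Complex.mul_im, Complex.conj_re, Complex.conj_im]
    ring
  have h2 : 0 ≤ (1 - ‖a‖ ^ 2) * (1 - ‖b‖ ^ 2) := by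
    apply mul_nonneg <;> nlinarith [norm_nonneg a, norm_nonneg b]
  apply le_of_sq_le_sq _ (norm_nonneg _)
  linarith

lemma near_of_lt_aux {x y : MaxSpace Ω} {g : ℂ → ℂ} (hd : DifferentiableOn ℂ g Ω)
    (hg : ∀ z ∈ Ω, ‖g z‖ ≤ 1) (hlt : ‖ap x g‖ < 1) :
    ‖ap y g - ap x g‖ ≤ rho x y * ‖1 - conj (ap x g) * ap y g‖ := by
  set b := ap x g with hb
  have hB : BH Ω g := ⟨hd, 1, hg⟩
  have hne : ∀ z ∈ Ω, 1 - conj b * g z ≠ 0 := by
    intro z hz h
    have h1 : conj b * g z = 1 := (sub_eq_zero.mp h).symm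
    have h2 : ‖conj b * g z‖ < 1 := by
      rw [norm_mul, Complex.norm_conj]
      calc ‖b‖ * ‖g z‖ ≤ ‖b‖ * 1 := mul_le_mul_of_nonneg_left (hg z hz) (norm_nonneg _)
        _ < 1 := by linarith
    rw [h1, norm_one] at h2
    exact lt_irrefl _ h2
  have hdd : DifferentiableOn ℂ (fun z => 1 - conj b * g z) Ω :=
    (differentiableOn_const _).sub ((differentiableOn_const _).mul hd)
  set k : ℂ → ℂ := fun z => (g z - b) / (1 - conj b * g z) with hk
  have hkd : DifferentiableOn ℂ k Ω := (hd.sub_const b).div hdd hne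
  have hk1 : ∀ z ∈ Ω, ‖k z‖ ≤ 1 := by
    intro z hz
    rw [hk]
    simp only [norm_div]
    exact div_le_one_of_le₀ (norm_sub_le_one_sub_conj_mul (hg z hz) hlt.le) (norm_nonneg _)
  have hkB : BH Ω k := ⟨hkd, 1, hk1⟩
  have hden : BH Ω (fun z => 1 - conj b * g z) := (BH.const 1).sub (hB.const_mul _)
  have hprod : ∀ u : MaxSpace Ω, ap u k * (1 - conj b * ap u g) = ap u g - b := by
    intro u
    have h1 : ap u (fun z => 1 - conj b * g z) = 1 - conj b * ap u g := by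
      rw [ap_sub u (BH.const 1) (hB.const_mul _), ap_const, ap_const_mul u _ hB]
    rw [← h1, ← ap_mul u hkB hden]
    have h2 : ap u (fun z => g z - b) = ap u g - b := by
      rw [ap_sub u hB (BH.const b), ap_const]
    rw [← h2]
    apply ap_congr u (hB.sub (BH.const b))
    intro z hz
    exact div_mul_cancel₀ _ (hne z hz)
  have hx0 : ap x k = 0 := by
    have h3 := hprod x
    rw [← hb, sub_self] at h3
    rcases mul_eq_zero.mp h3 with h4 | h4
    · exact h4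
    · exfalso
      have h1 : conj b * b = 1 := (sub_eq_zero.mp h4).symm
      have h2 : ‖conj b * b‖ < 1 := by
        rw [norm_mul, Complex.norm_conj]
        nlinarith [norm_nonneg b]
      rw [h1, norm_one] at h2
      exact lt_irrefl _ h2
  have hle := le_rho x y hkd hk1 hx0
  rw [← hprod y, norm_mul]
  exact mul_le_mul_of_nonneg_right hle (norm_nonneg _)

lemma near_of_rho (x y : MaxSpace Ω) : Near (rho x y) y x := by
  intro g hd hg
  have hx1 : ‖ap x g‖ ≤ 1 := ap_norm_le x hd hg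
  rcases lt_or_eq_of_le hx1 with hlt | heq
  · exact near_of_lt_aux hd hg hlt
  · -- scale by `r → 1`
    have hB : BH Ω g := ⟨hd, 1, hg⟩
    have key : ∀ r : ℝ, 0 < r → r < 1 →
        ‖(r : ℂ) * ap y g - r * ap x g‖ ≤
          rho x y * ‖1 - conj ((r : ℂ) * ap x g) * (r * ap y g)‖ := by
      intro r hr0 hr1
      have h1 := near_of_lt_aux (x := x) (y := y) (g := fun z => (r : ℂ) * g z)
        ((differentiableOn_const _).mul hd)
        (fun z hz => by
          rw [norm_mul, Complex.norm_real, Real.norm_of_nonneg hr0.le]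
          nlinarith [hg z hz, norm_nonneg (g z)])
        (by
          rw [ap_const_mul x _ hB, norm_mul, Complex.norm_real, Real.norm_of_nonneg hr0.le, heq]
          linarith)
      rwa [ap_const_mul x _ hB, ap_const_mul y _ hB] at h1
    have hlim1 : Tendsto (fun r : ℝ => ‖(r : ℂ) * ap y g - r * ap x g‖) (𝓝[<] 1)
        (𝓝 ‖((1 : ℝ) : ℂ) * ap y g - (1 : ℝ) * ap x g‖) := by
      apply Tendsto.mono_left _ nhdsWithin_le_nhds
      apply Continuous.tendsto
      fun_prop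
    have hlim2 : Tendsto (fun r : ℝ => rho x y * ‖1 - conj ((r : ℂ) * ap x g) * (r * ap y g)‖)
        (𝓝[<] 1) (𝓝 (rho x y * ‖1 - conj (((1 : ℝ) : ℂ) * ap x g) * ((1 : ℝ) * ap y g)‖)) := by
      apply Tendsto.mono_left _ nhdsWithin_le_nhds
      apply Continuous.tendsto
      have : Continuous (fun r : ℝ => conj ((r : ℂ) * ap x g)) :=
        Complex.continuous_conj.comp (by fun_prop)
      fun_prop
    have h2 := le_of_tendsto_of_tendsto hlim1 hlim2 (by
      have : ∀ᶠ r : ℝ in 𝓝[<] 1, r ∈ Ioo (0 : ℝ) 1 := Ioo_mem_nhdsLT (by norm_num)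
      filter_upwards [this] with r hr
      exact key r hr.1 hr.2)
    simpa using h2

lemma mem_part_iff {x y : MaxSpace Ω} : y ∈ part x ↔ ∃ ρ : ℝ, ρ < 1 ∧ Near ρ x y := by
  constructor
  · intro h
    exact ⟨rho x y, h, (near_of_rho x y).symm⟩
  · rintro ⟨ρ, hρ, h⟩
    show rho x y < 1
    refine lt_of_le_of_lt (rho_le ?_) hρ
    intro g hd hg h0
    have := h.symm g hd hg
    rwa [h0, map_zero, zero_mul, sub_zero, sub_zero, norm_one, mul_one] at this

lemma self_mem_part (x : MaxSpace Ω) : x ∈ part x := by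
  rw [mem_part_iff]
  exact ⟨0, by norm_num, fun g _ _ => by simp⟩

lemma mem_part_symm {x y : MaxSpace Ω} (h : y ∈ part x) : x ∈ part y := by
  rw [mem_part_iff] at h ⊢
  obtain ⟨ρ, h1, h2⟩ := h
  exact ⟨ρ, h1, h2.symm⟩

lemma Near.eq_of_norm_eq_one {ρ : ℝ} (hρ : ρ < 1) {x y : MaxSpace Ω} (h : Near ρ x y)
    {g : ℂ → ℂ} (hd : DifferentiableOn ℂ g Ω) (hg : ∀ z ∈ Ω, ‖g z‖ ≤ 1) (h1 : ‖ap x g‖ = 1) :
    ap y g = ap x g := by
  have h2 := h.symm g hd hg
  -- `|1 - conj a b| = |b - a|` when `|a| = 1`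
  have h3 : ‖1 - conj (ap x g) * ap y g‖ = ‖ap y g - ap x g‖ := by
    have h4 : conj (ap x g) * ap x g = 1 := by
      rw [Complex.conj_mul', h1]; simp
    calc ‖1 - conj (ap x g) * ap y g‖ = ‖conj (ap x g) * (ap x g - ap y g)‖ := by
          rw [mul_sub, h4]
      _ = ‖ap y g - ap x g‖ := by
          rw [norm_mul, Complex.norm_conj, h1, one_mul, norm_sub_rev]
  rw [h3] at h2
  have h5 : ‖ap y g - ap x g‖ = 0 := by
    have h6 := norm_nonneg (ap y g - ap x g)
    by_contra hne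
    have h7 : 0 < ‖ap y g - ap x g‖ := lt_of_le_of_ne h6 (Ne.symm hne)
    nlinarith
  exact sub_eq_zero.mp (norm_eq_zero.mp h5)

lemma Near.norm_le_of_eq_zero {ρ : ℝ} {x y : MaxSpace Ω} (h : Near ρ x y)
    {g : ℂ → ℂ} (hd : DifferentiableOn ℂ g Ω) (hg : ∀ z ∈ Ω, ‖g z‖ ≤ 1) (h0 : ap x g = 0) :
    ‖ap y g‖ ≤ ρ := by
  have := h.symm g hd hg
  rwa [h0, map_zero, zero_mul, sub_zero, sub_zero, norm_one, mul_one] at this

lemma Near.norm_lt_one {ρ : ℝ} (hρ : ρ < 1) {x y : MaxSpace Ω} (h : Near ρ x y)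
    {g : ℂ → ℂ} (hd : DifferentiableOn ℂ g Ω) (hg : ∀ z ∈ Ω, ‖g z‖ ≤ 1) (h0 : ‖ap x g‖ < 1) :
    ‖ap y g‖ < 1 := by
  have h1 : ‖ap y g‖ ≤ 1 := ap_norm_le y hd hg
  rcases lt_or_eq_of_le h1 with h2 | h2
  · exact h2
  · have := h.symm.eq_of_norm_eq_one hρ hd hg h2
    rw [this] at h0
    linarith

/-! ### Topology -/

lemma continuous_eval (f : Hinf Ω) : Continuous (fun m : MaxSpace Ω => m f) := by
  have h : Continuous (fun (m : MaxSpace Ω) (f : Hinf Ω) => m f) := continuous_induced_dom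
  exact (continuous_apply f).comp h

lemma continuous_ap {g : ℂ → ℂ} (hg : BH Ω g) : Continuous (fun m : MaxSpace Ω => ap m g) := by
  have : (fun m : MaxSpace Ω => ap m g) = fun m => m (toH g hg) := by
    funext m; exact ap_eq m hg
  rw [this]
  exact continuous_eval _

lemma bound_eval (f : Hinf Ω) : ∃ C : ℝ, ∀ m : MaxSpace Ω, ‖m f‖ ≤ C := by
  obtain ⟨g, hg, rfl⟩ := exists_raw f
  obtain ⟨C, hC⟩ := hg.2
  refine ⟨C, fun m => ?_⟩
  rw [← ap_eq m hg]
  exact ap_norm_le m hg.1 hC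

instance : CompactSpace (MaxSpace Ω) := by
  choose C hC using fun f : Hinf Ω => bound_eval f
  set Φ : MaxSpace Ω → (Hinf Ω → ℂ) := fun m f => m f with hΦ
  have hind : IsInducing Φ := ⟨rfl⟩
  have hinj : Function.Injective Φ := by
    intro x y h
    apply AlgHom.ext
    intro f
    exact congrFun h f
  -- the range is closed
  have hclosed : IsClosed (range Φ) := by
    have hr : range Φ = (⋂ (f : Hinf Ω) (g : Hinf Ω), {φ : Hinf Ω → ℂ | φ (f + g) = φ f + φ g}) ∩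
        ((⋂ (f : Hinf Ω) (g : Hinf Ω), {φ : Hinf Ω → ℂ | φ (f * g) = φ f * φ g}) ∩
        ⋂ (c : ℂ), {φ : Hinf Ω → ℂ | φ (algebraMap ℂ (Hinf Ω) c) = c}) := by
      apply Subset.antisymm
      · rintro φ ⟨m, rfl⟩
        refine ⟨?_, ?_, ?_⟩
        · simp only [mem_iInter]
          exact fun f g => map_add m f g
        · simp only [mem_iInter]
          exact fun f g => map_mul m f g
        · simp only [mem_iInter]
          exact fun c => AlgHom.commutes m c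
      · rintro φ ⟨h1, h2, h3⟩
        simp only [mem_iInter] at h1 h2 h3
        refine ⟨{ toFun := φ
                  map_one' := by
                    have h4 : φ (algebraMap ℂ (Hinf Ω) 1) = 1 := h3 1
                    rwa [map_one] at h4
                  map_mul' := h2
                  map_zero' := by
                    have h4 : φ (algebraMap ℂ (Hinf Ω) 0) = 0 := h3 0
                    rwa [map_zero] at h4
                  map_add' := h1
                  commutes' := h3 }, rfl⟩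
    rw [hr]
    apply IsClosed.inter
    · refine isClosed_iInter fun f => isClosed_iInter fun g => ?_
      exact isClosed_eq (continuous_apply _)
        (Continuous.add (continuous_apply f) (continuous_apply g))
    · apply IsClosed.inter
      · refine isClosed_iInter fun f => isClosed_iInter fun g => ?_
        exact isClosed_eq (continuous_apply _)
          (Continuous.mul (continuous_apply f) (continuous_apply g))
      · refine isClosed_iInter fun c => ?_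
        exact isClosed_eq (continuous_apply _) continuous_const
  have hcomp : IsCompact (range Φ) := by
    apply IsCompact.of_isClosed_subset
      (isCompact_univ_pi fun f => isCompact_closedBall (0 : ℂ) (C f)) hclosed
    rintro φ ⟨m, rfl⟩ f -
    simpa using hC f m
  rw [← isCompact_univ_iff]
  rw [hind.isCompact_iff, image_univ]
  exact hcomp

instance : T2Space (MaxSpace Ω) := by
  refine ⟨fun x y hxy => ?_⟩
  have : ∃ f : Hinf Ω, x f ≠ y f := by
    by_contra h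
    push Not at h
    exact hxy (AlgHom.ext h)
  obtain ⟨f, hf⟩ := this
  obtain ⟨u, v, hu, hv, hxu, hyv, huv⟩ := t2_separation hf
  exact ⟨_, _, hu.preimage (continuous_eval f), hv.preimage (continuous_eval f), hxu, hyv,
    huv.preimage _⟩

lemma isClosedBoundary_of {P E : Set (MaxSpace Ω)} (hP : P.Nonempty) (hE : IsClosed E)
    (hsub : E ⊆ closure P)
    (h : ∀ g, BH Ω g → ∀ a : ℝ, (∀ y ∈ E, ‖ap y g‖ ≤ a) → ∀ x ∈ P, ‖ap x g‖ ≤ a) :
    IsClosedBoundary P E := by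
  refine ⟨hE, hsub, fun f => ?_⟩
  obtain ⟨g, hg, rfl⟩ := exists_raw f
  have hcont : Continuous (fun m : MaxSpace Ω => ‖ap m g‖) := (continuous_ap hg).norm
  have hne : E.Nonempty := by
    by_contra hne
    rw [not_nonempty_iff_eq_empty] at hne
    obtain ⟨x, hx⟩ := hP
    have h1 := h g hg (-1) (by rw [hne]; simp) x hx
    linarith [norm_nonneg (ap x g)]
  obtain ⟨y, hy, hmax⟩ := hE.isCompact.exists_isMaxOn hne hcont.continuousOn
  refine ⟨y, hy, ?_⟩
  have h2 : ∀ x ∈ P, ‖ap x g‖ ≤ ‖ap y g‖ := h g hg _ (fun y' hy' => hmax hy')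
  have h3 : closure P ⊆ {x | ‖ap x g‖ ≤ ‖ap y g‖} :=
    closure_minimal h2 (isClosed_le hcont continuous_const)
  intro x hx
  have := h3 hx
  rw [← ap_eq x hg, ← ap_eq y hg]
  exact this

lemma shilov_subset_closure {P : Set (MaxSpace Ω)} (hP : P.Nonempty) :
    shilov P ⊆ closure P := by
  intro x hx
  have : IsClosedBoundary P (closure P) :=
    isClosedBoundary_of hP isClosed_closure (le_refl _)
      (fun g hg a h x hx => h x (subset_closure hx))
  exact hx _ this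

end Pool.Agent.Lib.MP_264cca_an
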