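import Pool.Agent.Lib.MP_264cca_an.Separate
import Pool.Agent.Lib.MP_264cca_an.CaseC

/-!
# Parts in `{0 < |q| < 1}`: description and a closed boundary that misses `y`
-/

open Set Topology Filter Metric
open scoped ComplexConjugate Real

namespace Pool.Agent.Lib.MP_264cca_an

/-! ### the root argument: `q = 0` on a whole part or nowhere on it -/

/-- `e^{2π i z / n}` -/
noncomputable def qroot (n : ℕ) (z : ℂ) : ℂ := qq (z / n)

lemma qroot_pow {n : ℕ} (hn : n ≠ 0) (z : ℂ) : qroot n z ^ n = qq z := by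
  unfold qroot qq
  rw [← Complex.exp_nat_mul]
  congr 1
  have : (n : ℂ) ≠ 0 := by exact_mod_cast hn
  field_simp

lemma div_nat_mem_Hp {n : ℕ} (hn : n ≠ 0) {z : ℂ} (hz : z ∈ Hp) : z / n ∈ Hp := by
  have hz' := mem_Hp.mp hz
  have hn' : (0 : ℝ) < n := by exact_mod_cast Nat.pos_of_ne_zero hn
  rw [mem_Hp]
  have : (z / n).im = z.im / n := by
    rw [← Complex.ofReal_natCast, Complex.div_ofReal_im]
  rw [this]
  positivity

lemma qroot_differentiable (n : ℕ) : Differentiable ℂ (qroot n) := by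
  unfold qroot
  exact qq_differentiable.comp (differentiable_id.div_const _)

lemma ap_qq_eq_zero_of_part {x x' : MaxSpace Hp} (hx' : x' ∈ part x) (h0 : ap x qq = 0) :
    ap x' qq = 0 := by
  obtain ⟨ρ, hρ, hn⟩ := mem_part_iff.mp hx'
  have hρ0 : 0 ≤ ρ := by
    have := hn (fun _ => 0) (differentiableOn_const _) (fun _ _ => by simp)
    rw [ap_const, ap_const] at this
    simpa using this
  have key : ∀ n : ℕ, n ≠ 0 → ‖ap x' qq‖ ≤ ρ ^ n := by
    intro n hn0
    have hd : DifferentiableOn ℂ (qroot n) Hp := (qroot_differentiable n).differentiableOn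
    have hb : ∀ z ∈ Hp, ‖qroot n z‖ ≤ 1 := fun z hz => (norm_qq_lt_one (div_nat_mem_Hp hn0 hz)).le
    have hB : BH Hp (qroot n) := ⟨hd, 1, hb⟩
    have e : ∀ w : MaxSpace Hp, ap w qq = ap w (qroot n) ^ n := by
      intro w
      rw [← ap_pow w hB n]
      exact ap_congr w (hB.pow n) (fun z _ => (qroot_pow hn0 z).symm)
    have h1 : ap x (qroot n) = 0 := by
      have := e x
      rw [h0] at this
      exact pow_eq_zero_iff hn0 |>.mp this.symm
    have h2 := hn.norm_le_of_eq_zero hd hb h1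
    rw [e x', norm_pow]
    exact pow_le_pow_left₀ (norm_nonneg _) h2 n
  have ht : Tendsto (fun n : ℕ => ρ ^ n) atTop (𝓝 0) := tendsto_pow_atTop_nhds_zero_of_lt_one hρ0 hρ
  have h3 : ‖ap x' qq‖ ≤ 0 := by
    apply ge_of_tendsto ht
    filter_upwards [eventually_ne_atTop 0] with n hn0
    exact key n hn0
  exact norm_le_zero_iff.mp h3

/-! ### description of the part -/

lemma Phi_map_add (V : Ultrafilter ℤ) (k : ℤ) (g : ℂ → ℂ) (z : ℂ) :
    Phi (V.map (fun m => m + k)) g z = Phi V g (z + k) := by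
  unfold Phi ulim limUnder
  rw [Ultrafilter.coe_map, Filter.map_map]
  congr 1
  congr 1
  funext m
  simp only [Function.comp_apply]
  congr 1
  push_cast
  ring

lemma mem_part_of_evPhi {x₀ x : MaxSpace Hp} {V : Ultrafilter ℤ} {z₀ z : ℂ} (hz₀ : z₀ ∈ Hp)
    (hz : z ∈ Hp) (h₀ : ∀ f, BH Hp f → ap x₀ f = Phi V f z₀)
    (h : ∀ f, BH Hp f → ap x f = Phi V f z) : x ∈ part x₀ := by
  show rho x₀ x < 1
  refine lt_of_le_of_lt (rho_le ?_) (schwarz_ratio_lt_one hz₀ hz)
  intro g hd hg h0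
  have hB : BH Hp g := ⟨hd, 1, hg⟩
  rw [h₀ g hB] at h0
  rw [h g hB]
  have := schwarz_Hp (hB.Phi V).1 (A := 1) (fun w hw => norm_Phi_le V hg hw) hz₀ h0 hz
  rwa [one_mul] at this

lemma exists_of_mem_part {x₀ x : MaxSpace Hp} {V : Ultrafilter ℤ} {z₀ : ℂ} (hz₀ : z₀ ∈ Hp)
    (h₀ : ∀ f, BH Hp f → ap x₀ f = Phi V f z₀) (hx : x ∈ part x₀) :
    ∃ z ∈ Hp, ∀ f, BH Hp f → ap x f = Phi V f z := by
  have hq : ap x₀ qq = qq z₀ := by rw [h₀ qq BH_qq, Phi_qq]
  have hq0 : ap x₀ qq ≠ 0 := by rw [hq]; exact qq_ne_zero z₀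
  have hq1 : ‖ap x₀ qq‖ < 1 := by rw [hq]; exact norm_qq_lt_one hz₀
  obtain ⟨ρ, hρ, hn⟩ := mem_part_iff.mp hx
  have h1 : ‖ap x qq‖ < 1 :=
    hn.norm_lt_one hρ BH_qq.1 (fun z hz => (norm_qq_lt_one hz).le) hq1
  have h0 : ap x qq ≠ 0 := fun h => hq0 (ap_qq_eq_zero_of_part (mem_part_symm hx) h)
  obtain ⟨z₂, hz₂, V', hV'⟩ := exists_ultrafilter_of_q h0 h1
  obtain ⟨k, hk⟩ := exists_shift_of_near hρ hn hz₀ hz₂ h₀ hV'
  refine ⟨z₂ + k, add_int_mem_Hp hz₂ k, fun f hf => ?_⟩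
  rw [hV' f hf, hk, Phi_map_add]

/-! ### the exponents -/

lemma map_add_ne {U : Ultrafilter ℤ} {k : ℤ} (hk : k ≠ 0) : U.map (fun m => m + k) ≠ U := by
  intro h
  have e : ∀ m : ℤ, (m + k) / k = m / k + 1 := by
    intro m
    have := Int.add_mul_ediv_right m 1 hk
    rwa [one_mul] at this
  have h1 : {m : ℤ | Even (m / k)} ∈ U ↔ {m : ℤ | Even (m / k)} ∈ U.map (fun m => m + k) := by
    rw [h]
  rw [Ultrafilter.mem_map] at h1
  have h2 : (fun m => m + k) ⁻¹' {m : ℤ | Even (m / k)} = {m : ℤ | Even (m / k)}ᶜ := by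
    ext m
    show Even ((m + k) / k) ↔ ¬ Even (m / k)
    rw [e, Int.even_add_one]
  rw [h2, Ultrafilter.compl_mem_iff_notMem] at h1
  tauto

lemma exists_exponents (U V : Ultrafilter ℤ) (hnp : Tendsto (fun j : ℤ => j.natAbs) U atTop) :
    ∃ N : ℤ → ℕ, Tendsto N U atTop ∧
      ∀ k : ℤ, V.map (fun m => m + k) ≠ U → ∃ n : ℕ, ∀ᶠ m in (V : Filter ℤ), N (k + m) = n := by
  classical
  have hS : ∀ k : ℤ, ∃ B : Set ℤ, V.map (fun m => m + k) ≠ U →
      B ∈ V.map (fun m => m + k) ∧ B ∉ U := by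
    intro k
    by_cases h : V.map (fun m => m + k) = U
    · exact ⟨∅, fun h' => absurd h h'⟩
    · by_contra hcon
      push Not at hcon
      apply h
      have hle : (U : Filter ℤ) ≤ (V.map (fun m => m + k) : Ultrafilter ℤ) :=
        fun S hS => (hcon S).2 hS
      exact (Ultrafilter.coe_le_coe.mp hle).symm
  choose B hB using hS
  set bad : ℤ → Prop := fun k => V.map (fun m => m + k) ≠ U with hbad
  set T : ℤ → Set ℕ := fun j => {n : ℕ | (∃ k : ℤ, k.natAbs ≤ n ∧ bad k ∧ j ∈ B k) ∨ j.natAbs ≤ n}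
    with hT
  have hTne : ∀ j, (T j).Nonempty := fun j => ⟨j.natAbs, Or.inr le_rfl⟩
  refine ⟨fun j => sInf (T j), ?_, ?_⟩
  · rw [Filter.tendsto_atTop]
    intro M
    have h1 : ∀ᶠ j in (U : Filter ℤ), M < j.natAbs := hnp.eventually (eventually_gt_atTop M)
    have h2 : ∀ᶠ j in (U : Filter ℤ), ∀ k ∈ Finset.Icc (-(M : ℤ)) M, bad k → j ∉ B k := by
      rw [Filter.eventually_all_finset]
      intro k _
      by_cases hk : bad k
      · have : (B k)ᶜ ∈ U := Ultrafilter.compl_mem_iff_notMem.mpr (hB k hk).2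
        filter_upwards [this] with j hj _
        exact hj
      · exact Eventually.of_forall (fun j h => absurd h hk)
    filter_upwards [h1, h2] with j hj1 hj2
    by_contra hlt
    push Not at hlt
    rcases Nat.sInf_mem (hTne j) with ⟨k, hk1, hk2, hk3⟩ | h
    · refine hj2 k ?_ hk2 hk3
      rw [Finset.mem_Icc]
      omega
    · omega
  · intro k hk
    have h1 : ∀ᶠ m in (V : Filter ℤ), sInf (T (k + m)) ≤ k.natAbs := by
      have : ∀ᶠ m in (V : Filter ℤ), m + k ∈ B k := (hB k hk).1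
      filter_upwards [this] with m hm
      apply Nat.sInf_le
      left
      refine ⟨k, le_rfl, hk, ?_⟩
      rwa [add_comm]
    have h2 : Iic k.natAbs ∈ V.map (fun m => sInf (T (k + m))) := h1
    obtain ⟨n, _, hn⟩ := Ultrafilter.eq_pure_of_finite_mem (finite_Iic _) h2
    refine ⟨n, ?_⟩
    have h3 : ({n} : Set ℕ) ∈ V.map (fun m => sInf (T (k + m))) := by
      rw [hn]
      exact Ultrafilter.mem_pure.mpr rfl
    exact h3

lemma shiftLim_wpow_eq {V : Ultrafilter ℤ} {N : ℤ → ℕ} {k : ℤ} {n : ℕ}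
    (h : ∀ᶠ m in (V : Filter ℤ), N (k + m) = n) (z : ℂ) :
    shiftLim V (fun j z => ww z ^ N j) k z = ww z ^ n := by
  apply ulim_eq
  apply tendsto_const_nhds.congr'
  filter_upwards [h] with m hm
  rw [hm]

/-! ### the maximum principle -/

lemma maxprin {G g : ℂ → ℂ} {F : ℤ → ℂ → ℂ} (hF : LH 1 F) (hG : ∀ z ∈ Hp, G z = Psi F z)
    (hg : BH Hp g) {a : ℝ} {l : ℤ} {n : ℕ} (hl : ∀ z ∈ Hp, F l z = ww z ^ n)
    (ha : ∀ z ∈ Hp, ((∀ l' : ℤ, 1 / 128 ≤ ‖z - l'‖) ∨ 1 / 2 ≤ ‖G z‖) → ‖g z‖ ≤ a)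
    {z : ℂ} (hz : z ∈ Hp) (hzl : ‖z - l‖ < 1 / 128) : ‖g z‖ ≤ a := by
  by_cases hGz : 1 / 2 ≤ ‖G z‖
  · exact ha z hz (Or.inr hGz)
  push Not at hGz
  have hGB : BH Hp G := (BH_Psi hF).congr hG
  set W : Set ℂ := (Hp ∩ G ⁻¹' ball 0 (1 / 2)) ∩ ball (l : ℂ) (1 / 128) with hW
  have hWo : IsOpen W :=
    (hGB.1.continuousOn.isOpen_inter_preimage isOpen_Hp isOpen_ball).inter isOpen_ball
  have hWmem : ∀ w, w ∈ W ↔ w ∈ Hp ∧ ‖G w‖ < 1 / 2 ∧ ‖w - l‖ < 1 / 128 := by
    intro w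
    rw [hW]
    simp only [mem_inter_iff, mem_preimage, mem_ball, dist_eq_norm, sub_zero]
    tauto
  set T : Set ℂ := {w | 0 ≤ w.im ∧ ‖w - l‖ ≤ 1 / 128 ∧
    ‖w - l - Complex.I‖ ^ n ≤ 3 / 4 * ‖w - l + Complex.I‖ ^ n} with hT
  have hTc : IsClosed T := by
    have c1 : Continuous (fun w : ℂ => ‖w - l‖) := by fun_prop
    have c2 : Continuous (fun w : ℂ => ‖w - l - Complex.I‖ ^ n) := by fun_prop
    have c3 : Continuous (fun w : ℂ => 3 / 4 * ‖w - l + Complex.I‖ ^ n) := by fun_prop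
    apply IsClosed.inter
    · exact isClosed_le continuous_const Complex.continuous_im
    · apply IsClosed.inter
      · exact isClosed_le c1 continuous_const
      · exact isClosed_le c2 c3
  have hWT : W ⊆ T := by
    intro w hw
    obtain ⟨hw1, hw2, hw3⟩ := (hWmem w).mp hw
    refine ⟨(mem_Hp.mp hw1).le, hw3.le, ?_⟩
    have h1 := norm_Psi_sub_le hF hw1 l
    rw [← hG w hw1, hl _ (sub_int_mem_Hp hw1 l)] at h1
    have hpi := Real.pi_lt_four
    have hpi0 := Real.pi_pos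
    have h2 : 8 * π * 1 * ‖w - l‖ ≤ 1 / 4 := by
      have : 8 * π * 1 * ‖w - l‖ ≤ 8 * 4 * 1 * (1 / 128) := by
        have h0 := norm_nonneg (w - l)
        nlinarith [mul_le_mul hpi.le hw3.le h0 (by norm_num : (0 : ℝ) ≤ 4)]
      linarith
    have h3 : ‖ww (w - l) ^ n‖ ≤ 3 / 4 := by
      have : ‖ww (w - l) ^ n‖ ≤ ‖G w - ww (w - l) ^ n‖ + ‖G w‖ := by
        calc ‖ww (w - l) ^ n‖ = ‖-(G w - ww (w - l) ^ n) + G w‖ := by congr 1; ring
          _ ≤ ‖-(G w - ww (w - l) ^ n)‖ + ‖G w‖ := norm_add_le _ _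
          _ = _ := by rw [norm_neg]
      linarith
    unfold ww at h3
    have hne : 0 < ‖w - l + Complex.I‖ := norm_pos_iff.mpr (add_I_ne_zero (sub_int_mem_Hp hw1 l))
    rw [div_pow, norm_div, norm_pow, norm_pow, div_le_iff₀ (by positivity)] at h3
    exact h3
  have hTH : T ⊆ Hp := by
    rintro w ⟨hw1, hw2, hw3⟩
    rcases lt_or_eq_of_le hw1 with h | h
    · exact h
    · exfalso
      have e : ‖w - l - Complex.I‖ = ‖w - l + Complex.I‖ := by
        have h1 : conj (w - l - Complex.I) = w - l + Complex.I := by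
          have h2 : conj w = w := Complex.conj_eq_iff_im.mpr h.symm
          rw [map_sub, map_sub, h2, Complex.conj_I, map_intCast]
          ring
        rw [← h1, Complex.norm_conj]
      rw [e] at hw3
      have hne : 0 < ‖w - l + Complex.I‖ := by
        rw [norm_pos_iff]
        intro h0
        have := congrArg Complex.im h0
        simp [← h] at this
      have hpos : 0 < ‖w - l + Complex.I‖ ^ n := by positivity
      linarith
  have hcl : closure W ⊆ T := closure_minimal hWT hTc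
  have hbd : Bornology.IsBounded W := isBounded_ball.subset inter_subset_right
  have hd : DiffContOnCl ℂ g W := (hg.1.mono (hcl.trans hTH)).diffContOnCl
  apply Complex.norm_le_of_forall_mem_frontier_norm_le hbd hd _
    (subset_closure ((hWmem z).mpr ⟨hz, hGz, hzl⟩))
  intro w hw
  have hw1 : w ∈ T := hcl (frontier_subset_closure hw)
  have hw2 : w ∉ W := by
    rw [hWo.frontier_eq] at hw
    exact hw.2
  have hwH := hTH hw1
  apply ha w hwH
  rw [hWmem] at hw2
  by_cases hc : 1 / 2 ≤ ‖G w‖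
  · exact Or.inr hc
  left
  push Not at hc
  have hwl : 1 / 128 ≤ ‖w - l‖ := by
    by_contra h
    push Not at h
    exact hw2 ⟨hwH, hc, h⟩
  intro l'
  by_cases hll : l' = l
  · rw [hll]; exact hwl
  · have h1 : (1 : ℝ) ≤ ‖((l : ℂ) - l')‖ := by
      have h2 : ((l : ℂ) - l') = ((l - l' : ℤ) : ℂ) := by push_cast; rfl
      rw [h2, Complex.norm_intCast]
      have h3 : (1 : ℤ) ≤ |l - l'| := Int.one_le_abs (sub_ne_zero.mpr (Ne.symm hll))
      exact_mod_cast h3
    have h2 : ‖((l : ℂ) - l')‖ ≤ ‖w - l‖ + ‖w - l'‖ := by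
      calc ‖((l : ℂ) - l')‖ = ‖(w - l') - (w - l)‖ := by congr 1; ring
        _ ≤ ‖w - l'‖ + ‖w - l‖ := norm_sub_le _ _
        _ = _ := add_comm _ _
    have h3 := hw1.2.1
    linarith

/-! ### the closed boundary -/

theorem notMem_shilov_of_q {v : MaxSpace Hp} (hv : ap v g0 = 1) {U : Ultrafilter ℤ}
    (hnp : Tendsto (fun j : ℤ => j.natAbs) U atTop)
    (hrec : ∀ g, BH Hp g → ∀ z ∈ Hp, Phi U (Phi U g) z = Phi U g z)
    {x₀ : MaxSpace Hp} (hq0 : ap x₀ qq ≠ 0) (hq1 : ‖ap x₀ qq‖ < 1) :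
    compPhi U v ∉ shilov (part x₀) := by
  -- normalise `V`
  obtain ⟨z₀, hz₀, V, h₀, hVU⟩ : ∃ z₀ ∈ Hp, ∃ V : Ultrafilter ℤ,
      (∀ f, BH Hp f → ap x₀ f = Phi V f z₀) ∧
      ((∀ k : ℤ, V.map (fun m => m + k) ≠ U) ∨ V = U) := by
    obtain ⟨z₀, hz₀, V, h₀⟩ := exists_ultrafilter_of_q hq0 hq1
    by_cases h : ∃ k : ℤ, V.map (fun m => m + k) = U
    · obtain ⟨k, hk⟩ := h
      refine ⟨z₀ - k, sub_int_mem_Hp hz₀ k, U, fun f hf => ?_, Or.inr rfl⟩
      rw [← hk, Phi_map_add, sub_add_cancel, h₀ f hf]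
    · push Not at h
      exact ⟨z₀, hz₀, V, h₀, Or.inl h⟩
  obtain ⟨N, hN, hNk⟩ := exists_exponents U V hnp
  set wp : ℤ → ℂ → ℂ := fun j z => ww z ^ N j with hwp
  have hwpL : LH 1 wp := LH_wpow N
  set F : ℂ → ℂ := Psi wp with hFdef
  have hFB : BH Hp F := BH_Psi hwpL
  have hSL : LH 1 (shiftLim V wp) := LH_shiftLim V hwpL
  set E : Set (MaxSpace Hp) := {x | x ∈ closure (part x₀) ∧
    (1 / 2 ≤ ‖ap x F‖ ∨ 1 / 128 ≤ ‖ap x (fun z => qq z - 1)‖)} with hE
  have hqB : BH Hp (fun z => qq z - 1) := BH_qq.sub (BH.const 1)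
  have hEc : IsClosed E := by
    apply IsClosed.inter isClosed_closure
    apply IsClosed.union
    · exact isClosed_le continuous_const (continuous_ap hFB).norm
    · exact isClosed_le continuous_const (continuous_ap hqB).norm
  have hyE : compPhi U v ∉ E := by
    rintro ⟨-, h | h⟩
    · rw [hFdef, y_wpow hv hN, norm_zero] at h
      norm_num at h
    · rw [ap_sub _ BH_qq (BH.const 1), ap_const, ap_compPhi_qq, ap_qq_of_over hv, sub_self,
        norm_zero] at h
      norm_num at h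
  have hbdry : IsClosedBoundary (part x₀) E := by
    apply isClosedBoundary_of ⟨x₀, self_mem_part x₀⟩ hEc (fun x hx => hx.1)
    intro g hg a ha
    -- bound off the small neighbourhoods
    have hbd : ∀ z ∈ Hp, ((∀ l' : ℤ, 1 / 128 ≤ ‖z - l'‖) ∨ 1 / 2 ≤ ‖Phi V F z‖) →
        ‖Phi V g z‖ ≤ a := by
      intro z hz hcase
      obtain ⟨x, hx⟩ := exists_evPhi V hz
      rw [← hx g hg]
      apply ha
      refine ⟨subset_closure (mem_part_of_evPhi hz₀ hz h₀ hx), ?_⟩
      rcases hcase with h | h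
      · right
        rw [ap_sub _ BH_qq (BH.const 1), ap_const, hx qq BH_qq, Phi_qq]
        by_contra hlt
        push Not at hlt
        obtain ⟨l, hl⟩ := exists_int_near (z := z) (by linarith)
        have := h l
        linarith
      · left
        rw [hx F hFB]
        exact h
    have hmax : ∀ l : ℤ, V.map (fun m => m + l) ≠ U → ∀ z ∈ Hp, ‖z - l‖ < 1 / 128 →
        ‖Phi V g z‖ ≤ a := by
      intro l hl z hz hzl
      obtain ⟨n, hn⟩ := hNk l hl
      exact maxprin (G := Phi V F) hSL (fun w hw => Phi_Psi V hwpL hw) (hg.Phi V)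
        (fun w _ => shiftLim_wpow_eq hn w) hbd hz hzl
    have hall : ∀ z ∈ Hp, ‖Phi V g z‖ ≤ a := by
      intro z hz
      by_cases hc : ∀ l' : ℤ, 1 / 128 ≤ ‖z - l'‖
      · exact hbd z hz (Or.inl hc)
      push Not at hc
      obtain ⟨l, hl⟩ := hc
      rcases hVU with h | h
      · exact hmax l (h l) z hz hl
      · subst h
        by_cases hl0 : l = 0
        · subst hl0
          rw [← hrec g hg z hz]
          apply norm_ulim_le
          have h1 : ∀ᶠ j in (V : Filter ℤ), 0 < j.natAbs := hnp.eventually (eventually_gt_atTop 0)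
          filter_upwards [h1] with m hm
          apply hmax m (map_add_ne (by omega)) _ (add_int_mem_Hp hz m)
          rw [add_sub_cancel_right]
          simpa using hl
        · exact hmax l (map_add_ne hl0) z hz hl
    intro x hx
    obtain ⟨z, hz, hxz⟩ := exists_of_mem_part hz₀ h₀ hx
    rw [hxz g hg]
    exact hall z hz
  intro hmem
  exact hyE (hmem E hbdry)

/-- the case `q = 0` -/
theorem notMem_closure_of_q_zero {v : MaxSpace Hp} (hv : ap v g0 = 1) {U : Ultrafilter ℤ}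
    {x₀ : MaxSpace Hp} (hq0 : ap x₀ qq = 0) : compPhi U v ∉ closure (part x₀) := by
  intro h
  have h1 := closure_const h BH_qq (c := 0) (fun x hx => ap_qq_eq_zero_of_part hx hq0)
  rw [ap_compPhi_qq, ap_qq_of_over hv] at h1
  exact one_ne_zero h1

end Pool.Agent.Lib.MP_264cca_an
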