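import Mathlib

/-!
# Definitions for MP_264cca_an

`H^∞(Ω)`, its maximal ideal space, Gleason parts and Shilov boundaries of the restriction
algebras `H^∞|_P`.
-/

open Set Topology

namespace Pool.Agent.Lib.MP_264cca_an

/-- `H^∞(Ω)`: the algebra of bounded analytic functions on the open set `Ω ⊆ ℂ`, as a subalgebra of
all functions `Ω → ℂ`.  A function on `Ω` is analytic if it is the restriction of some
`g : ℂ → ℂ` that is complex differentiable on `Ω`. -/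
noncomputable def Hinf (Ω : Set ℂ) : Subalgebra ℂ (Ω → ℂ) where
  carrier := {f | (∃ g : ℂ → ℂ, DifferentiableOn ℂ g Ω ∧ ∀ z : Ω, f z = g z) ∧
    ∃ C : ℝ, ∀ z : Ω, ‖f z‖ ≤ C}
  mul_mem' := by
    rintro f₁ f₂ ⟨⟨g₁, hg₁, h₁⟩, C₁, hC₁⟩ ⟨⟨g₂, hg₂, h₂⟩, C₂, hC₂⟩
    refine ⟨⟨fun z => g₁ z * g₂ z, hg₁.mul hg₂, fun z => by simp [h₁, h₂]⟩, |C₁| * |C₂|, ?_⟩
    intro z
    rw [Pi.mul_apply, norm_mul]
    exact mul_le_mul ((hC₁ z).trans (le_abs_self _)) ((hC₂ z).trans (le_abs_self _))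
      (norm_nonneg _) (abs_nonneg _)
  add_mem' := by
    rintro f₁ f₂ ⟨⟨g₁, hg₁, h₁⟩, C₁, hC₁⟩ ⟨⟨g₂, hg₂, h₂⟩, C₂, hC₂⟩
    refine ⟨⟨fun z => g₁ z + g₂ z, hg₁.add hg₂, fun z => by simp [h₁, h₂]⟩, C₁ + C₂, ?_⟩
    intro z
    rw [Pi.add_apply]
    exact (norm_add_le _ _).trans (add_le_add (hC₁ z) (hC₂ z))
  algebraMap_mem' := by
    intro c
    exact ⟨⟨fun _ => c, differentiableOn_const _, fun z => rfl⟩, ‖c‖, fun z => le_refl _⟩

/-- The maximal ideal space of `H^∞(Ω)`: the nonzero multiplicative linear functionals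
`H^∞(Ω) → ℂ`, that is, the unital `ℂ`-algebra homomorphisms. -/
noncomputable abbrev MaxSpace (Ω : Set ℂ) := Hinf Ω →ₐ[ℂ] ℂ

/-- The Gelfand topology: pointwise convergence on `H^∞(Ω)`. -/
noncomputable instance instTopologicalSpaceMaxSpace (Ω : Set ℂ) : TopologicalSpace (MaxSpace Ω) :=
  TopologicalSpace.induced (fun (m : MaxSpace Ω) (f : Hinf Ω) => m f) inferInstance

/-- The pseudo-hyperbolic distance
`ρ(m₁,m₂) = sup {|m₂(f)| : f ∈ H^∞(Ω), ‖f‖_∞ ≤ 1, m₁(f) = 0}`. -/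
noncomputable def rho {Ω : Set ℂ} (m₁ m₂ : MaxSpace Ω) : ℝ :=
  sSup {r : ℝ | ∃ f : Hinf Ω, (∀ z : Ω, ‖(f : Ω → ℂ) z‖ ≤ 1) ∧ m₁ f = 0 ∧ r = ‖m₂ f‖}

/-- The Gleason part of `m`. -/
def part {Ω : Set ℂ} (m : MaxSpace Ω) : Set (MaxSpace Ω) := {m' | rho m m' < 1}

/-- `P` is a nontrivial Gleason part: a Gleason part that is not a single point. -/
def IsNontrivialPart {Ω : Set ℂ} (P : Set (MaxSpace Ω)) : Prop :=
  (∃ m, P = part m) ∧ ¬ ∃ m, P = {m}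

/-- `E` is a closed boundary for the restriction algebra `H^∞(Ω)|_P`, regarded as an algebra of
continuous functions on `clos P`: `E` is a closed subset of `clos P` on which every `|f|`,
`f ∈ H^∞(Ω)`, attains its maximum over `clos P`. -/
def IsClosedBoundary {Ω : Set ℂ} (P E : Set (MaxSpace Ω)) : Prop :=
  IsClosed E ∧ E ⊆ closure P ∧ ∀ f : Hinf Ω, ∃ y ∈ E, ∀ x ∈ closure P, ‖x f‖ ≤ ‖y f‖

/-- The Shilov boundary `∂P` of `H^∞(Ω)|_P` (a subset of `clos P`): the intersection of all closed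
boundaries, that is, the smallest closed boundary. -/
def shilov {Ω : Set ℂ} (P : Set (MaxSpace Ω)) : Set (MaxSpace Ω) :=
  ⋂₀ {E | IsClosedBoundary P E}

end Pool.Agent.Lib.MP_264cca_an
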