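import Pool.Agent.Lib.MP_264cca_an.Fiber

/-!
# Division by `w = (z-i)/(z+i)` and the key lemma on `ker Φ_U`
-/

open Set Topology Filter Metric
open scoped ComplexConjugate Real

namespace Pool.Agent.Lib.MP_264cca_an

/-- the Cayley map `w(z) = (z-i)/(z+i)` -/
noncomputable def ww (z : ℂ) : ℂ := (z - Complex.I) / (z + Complex.I)

/-- its inverse `c(ζ) = i(1+ζ)/(1-ζ)` -/
noncomputable def cc (ζ : ℂ) : ℂ := Complex.I * (1 + ζ) / (1 - ζ)

lemma I_mem_Hp : Complex.I ∈ Hp := by simp [mem_Hp]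

lemma norm_ww_lt_one {z : ℂ} (hz : z ∈ Hp) : ‖ww z‖ < 1 := by
  unfold ww
  have h0 : 0 < ‖z + Complex.I‖ := norm_pos_iff.mpr (add_I_ne_zero hz)
  rw [norm_div, div_lt_one h0]
  apply lt_of_pow_lt_pow_left₀ 2 (norm_nonneg _)
  rw [← Complex.normSq_eq_norm_sq, ← Complex.normSq_eq_norm_sq]
  simp only [Complex.normSq_apply, Complex.sub_re, Complex.sub_im, Complex.add_re, Complex.add_im,
    Complex.I_re, Complex.I_im]
  have := mem_Hp.mp hz
  nlinarith

lemma ww_differentiableOn : DifferentiableOn ℂ ww Hp :=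
  (differentiable_id.sub_const _).differentiableOn.div
    (differentiable_id.add_const _).differentiableOn (fun _ hz => add_I_ne_zero hz)

lemma BH_ww : BH Hp ww := ⟨ww_differentiableOn, 1, fun _ hz => (norm_ww_lt_one hz).le⟩

lemma ww_I : ww Complex.I = 0 := by simp [ww]

lemma ww_eq_zero_iff {z : ℂ} (hz : z ∈ Hp) : ww z = 0 ↔ z = Complex.I := by
  unfold ww
  rw [div_eq_zero_iff]
  constructor
  · rintro (h | h)
    · exact sub_eq_zero.mp h
    · exact absurd h (add_I_ne_zero hz)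
  · rintro rfl; left; simp

lemma one_sub_ne_zero_of_mem_ball {ζ : ℂ} (h : ζ ∈ ball (0 : ℂ) 1) : 1 - ζ ≠ 0 := by
  intro h0
  have h1 : ζ = 1 := (sub_eq_zero.mp h0).symm
  rw [h1] at h
  simp at h

lemma cc_ww {z : ℂ} (hz : z ∈ Hp) : cc (ww z) = z := by
  have h1 := add_I_ne_zero hz
  have h2 : 1 - ww z ≠ 0 := one_sub_ne_zero_of_mem_ball (by simpa using norm_ww_lt_one hz)
  unfold cc
  rw [div_eq_iff h2]
  unfold ww
  field_simp
  ring

lemma cc_mem_Hp {ζ : ℂ} (h : ζ ∈ ball (0 : ℂ) 1) : cc ζ ∈ Hp := by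
  have h1 := one_sub_ne_zero_of_mem_ball h
  rw [mem_Hp]
  unfold cc
  have h2 : ‖ζ‖ < 1 := by simpa using h
  have h3 : Complex.normSq ζ < 1 := by
    rw [Complex.normSq_eq_norm_sq]; nlinarith [norm_nonneg ζ]
  have h4 : 0 < Complex.normSq (1 - ζ) := Complex.normSq_pos.mpr h1
  have h5 : (Complex.I * (1 + ζ) / (1 - ζ)).im = (1 - Complex.normSq ζ) / Complex.normSq (1 - ζ) := by
    rw [Complex.div_im]
    simp only [Complex.normSq_apply, Complex.mul_re, Complex.mul_im, Complex.I_re, Complex.I_im,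
      Complex.add_re, Complex.add_im, Complex.one_re, Complex.one_im, Complex.sub_re,
      Complex.sub_im]
    ring
  rw [h5]
  apply div_pos _ h4
  linarith

lemma cc_differentiableOn : DifferentiableOn ℂ cc (ball 0 1) := by
  unfold cc
  apply DifferentiableOn.div
  · exact (by fun_prop : Differentiable ℂ fun ζ : ℂ => Complex.I * (1 + ζ)).differentiableOn
  · exact (by fun_prop : Differentiable ℂ fun ζ : ℂ => 1 - ζ).differentiableOn
  · intro ζ hζ; exact one_sub_ne_zero_of_mem_ball hζ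

lemma cc_zero : cc 0 = Complex.I := by simp [cc]

/-- division of `g - g(i)` by `w` -/
noncomputable def divw (g : ℂ → ℂ) (z : ℂ) : ℂ := dslope (fun ζ => g (cc ζ)) 0 (ww z)

lemma divw_spec (g : ℂ → ℂ) {z : ℂ} (hz : z ∈ Hp) :
    g z = g Complex.I + ww z * divw g z := by
  have h := sub_smul_dslope (fun ζ => g (cc ζ)) 0 (ww z)
  simp only [sub_zero, smul_eq_mul, cc_ww hz, cc_zero] at h
  unfold divw
  rw [h]; ring

lemma comp_cc_differentiableOn {g : ℂ → ℂ} (hd : DifferentiableOn ℂ g Hp) :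
    DifferentiableOn ℂ (fun ζ => g (cc ζ)) (ball 0 1) :=
  hd.comp cc_differentiableOn (fun _ h => cc_mem_Hp h)

lemma ww_mapsTo : MapsTo ww Hp (ball 0 1) := fun z hz => by simpa using norm_ww_lt_one hz

lemma divw_differentiableOn {g : ℂ → ℂ} (hd : DifferentiableOn ℂ g Hp) :
    DifferentiableOn ℂ (divw g) Hp := by
  have h1 : DifferentiableOn ℂ (dslope (fun ζ => g (cc ζ)) 0) (ball 0 1) :=
    (Complex.differentiableOn_dslope (isOpen_ball.mem_nhds (mem_ball_self one_pos))).mpr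
      (comp_cc_differentiableOn hd)
  exact h1.comp ww_differentiableOn ww_mapsTo

lemma norm_divw_le {g : ℂ → ℂ} (hd : DifferentiableOn ℂ g Hp) {C : ℝ}
    (hC : ∀ z ∈ Hp, ‖g z - g Complex.I‖ ≤ C) {z : ℂ} (hz : z ∈ Hp) : ‖divw g z‖ ≤ C := by
  have h := Complex.norm_dslope_le_div_of_mapsTo_ball (R₁ := 1) (R₂ := C)
    (comp_cc_differentiableOn hd)
    (fun ζ hζ => by
      rw [mem_closedBall, dist_eq_norm]
      simp only [cc_zero]
      exact hC _ (cc_mem_Hp hζ)) (ww_mapsTo hz)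
  rwa [div_one] at h

/-- iterated division -/
noncomputable def rr (g : ℂ → ℂ) : ℕ → ℂ → ℂ
  | 0 => g
  | (n + 1) => divw (rr g n)

/-- Taylor coefficients in `w` -/
noncomputable def tc (g : ℂ → ℂ) (n : ℕ) : ℂ := rr g n Complex.I

lemma rr_differentiableOn {g : ℂ → ℂ} (hd : DifferentiableOn ℂ g Hp) (n : ℕ) :
    DifferentiableOn ℂ (rr g n) Hp := by
  induction n with
  | zero => exact hd
  | succ n ih => exact divw_differentiableOn ih

lemma taylor_spec (g : ℂ → ℂ) (n : ℕ) {z : ℂ} (hz : z ∈ Hp) :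
    g z = (∑ k ∈ Finset.range n, tc g k * ww z ^ k) + ww z ^ n * rr g n z := by
  induction n with
  | zero => simp [rr]
  | succ n ih =>
    rw [Finset.sum_range_succ]
    have h := divw_spec (rr g n) hz
    rw [ih, h]
    have : rr g (n + 1) z = divw (rr g n) z := rfl
    rw [this]
    unfold tc
    ring

lemma norm_rr_le {g : ℂ → ℂ} (hd : DifferentiableOn ℂ g Hp) {C : ℝ}
    (hC : ∀ z ∈ Hp, ‖g z‖ ≤ C) (n : ℕ) {z : ℂ} (hz : z ∈ Hp) :
    ‖rr g n z‖ ≤ C + ∑ k ∈ Finset.range n, ‖tc g k‖ := by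
  induction n generalizing z with
  | zero => simpa [rr] using hC z hz
  | succ n ih =>
    rw [Finset.sum_range_succ, ← add_assoc]
    apply norm_divw_le (rr_differentiableOn hd n) _ hz
    intro z hz
    exact (norm_sub_le _ _).trans (add_le_add (ih hz) (le_refl _))

lemma tendsto_divw {ι : Type*} (𝒰 : Ultrafilter ι) (e : ι → ℂ → ℂ)
    (hd : ∀ i, DifferentiableOn ℂ (e i) Hp) {C : ℝ} (hC : ∀ i, ∀ z ∈ Hp, ‖e i z‖ ≤ C)
    (h0 : ∀ z ∈ Hp, Tendsto (fun i => e i z) 𝒰 (𝓝 0)) :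
    ∀ z ∈ Hp, Tendsto (fun i => divw (e i) z) 𝒰 (𝓝 0) := by
  have hb : ∀ i, ∀ z ∈ Hp, ‖divw (e i) z‖ ≤ 2 * C := by
    intro i z hz
    apply norm_divw_le (hd i) _ hz
    intro z hz
    calc ‖e i z - e i Complex.I‖ ≤ C + C :=
          (norm_sub_le _ _).trans (add_le_add (hC i z hz) (hC i _ I_mem_Hp))
      _ = 2 * C := by ring
  have hoff : ∀ z ∈ Hp, z ≠ Complex.I → Tendsto (fun i => divw (e i) z) 𝒰 (𝓝 0) := by
    intro z hz hzI
    have hw : ww z ≠ 0 := fun h => hzI ((ww_eq_zero_iff hz).mp h)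
    have h1 : ∀ i, divw (e i) z = (e i z - e i Complex.I) / ww z := by
      intro i
      rw [eq_div_iff hw]
      have := divw_spec (e i) hz
      rw [this]; ring
    simp_rw [h1]
    have h2 : Tendsto (fun i => (e i z - e i Complex.I) / ww z) 𝒰 (𝓝 ((0 - 0) / ww z)) :=
      ((h0 z hz).sub (h0 _ I_mem_Hp)).div_const _
    simpa using h2
  set L : ℂ → ℂ := fun z => ulim 𝒰 (fun i => divw (e i) z) with hL
  have hLt : ∀ z ∈ Hp, Tendsto (fun i => divw (e i) z) 𝒰 (𝓝 (L z)) := fun z hz =>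
    tendsto_ulim 𝒰 (C := 2 * C) (Eventually.of_forall fun i => hb i z hz)
  have hLd : DifferentiableOn ℂ L Hp :=
    ultralim_differentiableOn 𝒰 isOpen_Hp (fun i => divw (e i))
      (fun i => divw_differentiableOn (hd i)) hb hLt
  have hL0 : ∀ z ∈ Hp, z ≠ Complex.I → L z = 0 := fun z hz hzI =>
    tendsto_nhds_unique (hLt z hz) (hoff z hz hzI)
  have hLI : L Complex.I = 0 := by
    have hcont : ContinuousAt L Complex.I :=
      (hLd.differentiableAt (isOpen_Hp.mem_nhds I_mem_Hp)).continuousAt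
    have h1 : Tendsto L (𝓝[≠] Complex.I) (𝓝 (L Complex.I)) := hcont.tendsto.mono_left nhdsWithin_le_nhds
    have h2 : Tendsto L (𝓝[≠] Complex.I) (𝓝 0) := by
      apply tendsto_const_nhds.congr'
      have h3 : ∀ᶠ z in 𝓝[≠] Complex.I, z ∈ Hp :=
        nhdsWithin_le_nhds (isOpen_Hp.mem_nhds I_mem_Hp)
      filter_upwards [h3, self_mem_nhdsWithin] with z hz hzI
      exact (hL0 z hz hzI).symm
    exact tendsto_nhds_unique h1 h2
  intro z hz
  by_cases hzI : z = Complex.I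
  · subst hzI
    have := hLt _ hz
    rwa [hLI] at this
  · exact hoff z hz hzI

/-- the key lemma on families tending to zero -/
theorem ap_Psi_eq_zero_of_tendsto {x : MaxSpace Hp} (hx : ap x qq = 1) {U : Ultrafilter ℤ}
    (hnp : Tendsto (fun j : ℤ => j.natAbs) U atTop)
    (hU : ∀ J : Set ℤ, J ∈ U → ap x (Psi (ind J)) = 1)
    (hw : ∀ N : ℤ → ℕ, Tendsto N U atTop → ap x (Psi (fun j z => ww z ^ N j)) = 0)
    {A : ℝ} {d : ℤ → ℂ → ℂ} (hd : LH A d)
    (h0 : ∀ z ∈ Hp, Tendsto (fun j => d j z) U (𝓝 0)) :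
    ap x (Psi d) = 0 := by
  classical
  -- Taylor coefficients tend to zero
  have hrr : ∀ n : ℕ, (∃ C : ℝ, ∀ j, ∀ z ∈ Hp, ‖rr (d j) n z‖ ≤ C) ∧
      ∀ z ∈ Hp, Tendsto (fun j => rr (d j) n z) U (𝓝 0) := by
    intro n
    induction n with
    | zero => exact ⟨⟨A, hd.2⟩, h0⟩
    | succ n ih =>
      obtain ⟨⟨C, hC⟩, ht⟩ := ih
      constructor
      · refine ⟨2 * C, fun j z hz => ?_⟩
        apply norm_divw_le (rr_differentiableOn (hd.1 j) n) _ hz
        intro z hz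
        calc ‖rr (d j) n z - rr (d j) n Complex.I‖ ≤ C + C :=
              (norm_sub_le _ _).trans (add_le_add (hC j z hz) (hC j _ I_mem_Hp))
          _ = 2 * C := by ring
      · exact tendsto_divw U (fun j => rr (d j) n) (fun j => rr_differentiableOn (hd.1 j) n) hC ht
  have htc : ∀ n : ℕ, Tendsto (fun j => ‖tc (d j) n‖) U (𝓝 0) := by
    intro n
    have := ((hrr n).2 _ I_mem_Hp).norm
    simpa [tc] using this
  -- the exponents
  let P : ℤ → ℕ → Prop := fun j n => (∑ k ∈ Finset.range n, ‖tc (d j) k‖) * (n + 1) ≤ 1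
  set N : ℤ → ℕ := fun j => Nat.findGreatest (P j) j.natAbs with hN
  have hP0 : ∀ j, P j 0 := by intro j; simp [P]
  have hPN : ∀ j, P j (N j) := fun j => Nat.findGreatest_spec (Nat.zero_le _) (hP0 j)
  have hNtop : Tendsto N U atTop := by
    rw [Filter.tendsto_atTop]
    intro n
    have h1 : Tendsto (fun j => (∑ k ∈ Finset.range n, ‖tc (d j) k‖) * ((n : ℝ) + 1)) U
        (𝓝 ((∑ _k ∈ Finset.range n, (0 : ℝ)) * ((n : ℝ) + 1))) :=
      (tendsto_finsetSum _ (fun k _ => htc k)).mul_const _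
    simp only [Finset.sum_const_zero, zero_mul] at h1
    have h2 : ∀ᶠ j in (U : Filter ℤ),
        (∑ k ∈ Finset.range n, ‖tc (d j) k‖) * ((n : ℝ) + 1) < 1 :=
      h1.eventually (gt_mem_nhds zero_lt_one)
    filter_upwards [h2, hnp.eventually_ge_atTop n] with j hj1 hj2
    exact Nat.le_findGreatest hj2 hj1.le
  have hsum : ∀ j, ∑ k ∈ Finset.range (N j), ‖tc (d j) k‖ ≤ 1 / ((N j : ℝ) + 1) := by
    intro j
    rw [le_div_iff₀ (by positivity)]
    exact hPN j
  have hsum1 : ∀ j, ∑ k ∈ Finset.range (N j), ‖tc (d j) k‖ ≤ 1 := by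
    intro j
    refine (hsum j).trans ?_
    rw [div_le_one (by positivity)]
    have : (0 : ℝ) ≤ N j := Nat.cast_nonneg _
    linarith
  -- the pieces
  set p : ℤ → ℂ → ℂ := fun j z => ∑ k ∈ Finset.range (N j), tc (d j) k * ww z ^ k with hp
  set g : ℤ → ℂ → ℂ := fun j => rr (d j) (N j) with hg
  have hpn : ∀ j, ∀ z ∈ Hp, ‖p j z‖ ≤ 1 / ((N j : ℝ) + 1) := by
    intro j z hz
    refine le_trans ?_ (hsum j)
    apply norm_sum_le_of_le
    intro k _
    rw [norm_mul, norm_pow]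
    have h1 : ‖ww z‖ ^ k ≤ 1 := pow_le_one₀ (norm_nonneg _) (norm_ww_lt_one hz).le
    calc ‖tc (d j) k‖ * ‖ww z‖ ^ k ≤ ‖tc (d j) k‖ * 1 :=
          mul_le_mul_of_nonneg_left h1 (norm_nonneg _)
      _ = _ := mul_one _
  have hpL : LH 1 p := by
    refine ⟨fun j => ?_, fun j z hz => ?_⟩
    · apply DifferentiableOn.fun_sum
      intro k _
      exact (differentiableOn_const _).mul (ww_differentiableOn.pow k)
    · refine (hpn j z hz).trans ?_
      rw [div_le_one (by positivity)]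
      have : (0 : ℝ) ≤ N j := Nat.cast_nonneg _
      linarith
  have hgL : LH (A + 1) g := by
    refine ⟨fun j => rr_differentiableOn (hd.1 j) _, fun j z hz => ?_⟩
    exact (norm_rr_le (hd.1 j) (hd.2 j) (N j) hz).trans (add_le_add (le_refl _) (hsum1 j))
  have hwL : LH 1 (fun (j : ℤ) z => ww z ^ N j) :=
    (LH.const (A := 1) ww_differentiableOn (fun z hz => (norm_ww_lt_one hz).le)).pow N
  have hdec : ∀ j, ∀ z ∈ Hp, d j z = p j z + ww z ^ N j * g j z := fun j z hz =>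
    taylor_spec (d j) (N j) hz
  have h1 : ap x (Psi d) = ap x (Psi p) := by
    rw [ap_Psi_congr x (hpL.add (hwL.mul hgL)) hdec, ap_Psi_add x hpL (hwL.mul hgL),
      ap_Psi_mul hx hwL hgL, hw N hNtop, zero_mul, add_zero]
  rw [h1]
  have h2 : ∀ n : ℕ, ‖ap x (Psi p)‖ ≤ 1 / ((n : ℝ) + 1) := by
    intro n
    apply norm_ap_Psi_le_of_ind hx (J := {j | n ≤ N j}) (hU _ (hNtop.eventually_ge_atTop n))
      (by positivity) hpL
    intro j hj z hz
    refine (hpn j z hz).trans ?_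
    have : (n : ℝ) ≤ N j := by exact_mod_cast hj
    exact one_div_le_one_div_of_le (by positivity) (by linarith)
  have h3 : ‖ap x (Psi p)‖ ≤ 0 :=
    ge_of_tendsto' tendsto_one_div_add_atTop_nhds_zero_nat h2
  exact norm_le_zero_iff.mp h3

/-- `x = x_c ∘ Φ_U` -/
theorem ap_eq_of_fibre_U {x : MaxSpace Hp} (hx : ap x qq = 1) {U : Ultrafilter ℤ}
    (hnp : Tendsto (fun j : ℤ => j.natAbs) U atTop)
    (hU : ∀ J : Set ℤ, J ∈ U → ap x (Psi (ind J)) = 1)
    (hw : ∀ N : ℤ → ℕ, Tendsto N U atTop → ap x (Psi (fun j z => ww z ^ N j)) = 0)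
    {f : ℂ → ℂ} (hf : BH Hp f) : ap x f = ap x (Psi (fun _ => Phi U f)) := by
  obtain ⟨A, hA⟩ := hf.2
  have hL1 : LH A (fun (j : ℤ) z => f (z + j)) := LH.translates hf.1 hA
  have hL2 : LH A (fun (_ : ℤ) => Phi U f) :=
    LH.const (Phi_differentiableOn U hf) (fun z hz => norm_Phi_le U hA hz)
  have h := ap_Psi_eq_zero_of_tendsto hx hnp hU hw (hL1.sub hL2) (by
    intro z hz
    have := (tendsto_Phi U hf hz).sub_const (Phi U f z)
    rwa [sub_self] at this)
  rw [ap_Psi_sub x hL1 hL2, ap_Psi_translates hx hf] at h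
  exact sub_eq_zero.mp h

end Pool.Agent.Lib.MP_264cca_an
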