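import Pool.Agent.Lib.MP_264cca_an.TrigApprox
import Pool.Agent.Lib.MP_264cca_an.Taylor

/-!
# Extremal bounded analytic functions below a weight `1 / sup(1, |h_k|)`
-/

open Set Topology Filter Metric
open scoped ComplexConjugate Real

namespace Pool.Agent.Lib.MP_264cca_an

/-- running maximum of `1, |H_0|, …, |H_{n-1}|` -/
noncomputable def MM (H : ℕ → ℂ → ℂ) : ℕ → ℂ → ℝ
  | 0 => fun _ => 1
  | (n + 1) => fun ζ => max (MM H n ζ) ‖H n ζ‖

lemma one_le_MM (H : ℕ → ℂ → ℂ) (n : ℕ) (ζ : ℂ) : 1 ≤ MM H n ζ := by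
  induction n with
  | zero => exact le_rfl
  | succ n ih => exact ih.trans (le_max_left _ _)

lemma le_MM (H : ℕ → ℂ → ℂ) {k n : ℕ} (h : k < n) (ζ : ℂ) : ‖H k ζ‖ ≤ MM H n ζ := by
  induction n with
  | zero => omega
  | succ n ih =>
    rcases Nat.lt_succ_iff_lt_or_eq.mp h with h | rfl
    · exact (ih h).trans (le_max_left _ _)
    · exact le_max_right _ _

lemma mul_MM_le (H : ℕ → ℂ → ℂ) (n : ℕ) (ζ : ℂ) {c : ℝ} (hc0 : 0 ≤ c) (hc1 : c ≤ 1)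
    (hc : ∀ k, c * ‖H k ζ‖ ≤ 1) : c * MM H n ζ ≤ 1 := by
  induction n with
  | zero => simpa [MM] using hc1
  | succ n ih =>
    show c * max (MM H n ζ) ‖H n ζ‖ ≤ 1
    rw [mul_max_of_nonneg _ _ hc0]
    exact max_le ih (hc n)

lemma continuousOn_MM {s : Set ℂ} (H : ℕ → ℂ → ℂ) (hH : ∀ k, ContinuousOn (H k) s) (n : ℕ) :
    ContinuousOn (MM H n) s := by
  induction n with
  | zero => exact continuousOn_const
  | succ n ih => exact ih.sup (hH n).norm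

lemma maxdisc {f : ℂ → ℂ} (hd : DifferentiableOn ℂ f (closedBall 0 1)) {C : ℝ}
    (hC : ∀ ζ ∈ sphere (0 : ℂ) 1, ‖f ζ‖ ≤ C) {ζ : ℂ} (hζ : ζ ∈ closedBall (0 : ℂ) 1) :
    ‖f ζ‖ ≤ C := by
  have hcl : closure (ball (0 : ℂ) 1) = closedBall 0 1 := closure_ball 0 one_ne_zero
  have hfr : frontier (ball (0 : ℂ) 1) = sphere 0 1 := frontier_ball 0 one_ne_zero
  apply Complex.norm_le_of_forall_mem_frontier_norm_le (U := ball (0 : ℂ) 1) isBounded_ball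
  · apply DifferentiableOn.diffContOnCl
    rw [hcl]; exact hd
  · rw [hfr]; exact hC
  · rw [hcl]; exact hζ

theorem exists_extremal_disc (H : ℕ → ℂ → ℂ) (hH : ∀ k, DifferentiableOn ℂ (H k) (ball 0 1)) :
    ∃ F : ℂ → ℂ, DifferentiableOn ℂ F (ball 0 1) ∧ (∀ ζ ∈ ball (0 : ℂ) 1, ‖F ζ‖ ≤ 1) ∧
      (∀ k, ∀ ζ ∈ ball (0 : ℂ) 1, ‖F ζ * H k ζ‖ ≤ 1) ∧
      (∀ K : ℂ → ℂ, DifferentiableOn ℂ K (ball 0 1) → (∀ ζ ∈ ball (0 : ℂ) 1, ‖K ζ‖ ≤ 1) →
        (∀ k, ∀ ζ ∈ ball (0 : ℂ) 1, ‖K ζ * H k ζ‖ ≤ 1) → ∀ ζ ∈ ball (0 : ℂ) 1, ‖K ζ‖ ≤ ‖F ζ‖) ∧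
      (∀ m : ℕ, m ≠ 0 → ∃ R : ℂ → ℂ, DifferentiableOn ℂ R (ball 0 1) ∧
        (∀ ζ ∈ ball (0 : ℂ) 1, ‖R ζ‖ ≤ 1) ∧ ∀ ζ ∈ ball (0 : ℂ) 1, R ζ ^ m = F ζ) := by
  -- radii
  set r : ℕ → ℝ := fun n => 1 - 1 / ((n : ℝ) + 2) with hr
  have hr0 : ∀ n, 0 < r n := by
    intro n
    have : 1 / ((n : ℝ) + 2) < 1 := by
      rw [div_lt_one (by positivity)]
      have : (0 : ℝ) ≤ n := Nat.cast_nonneg n
      linarith
    simp only [hr]; linarith
  have hr1 : ∀ n, r n < 1 := by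
    intro n
    have : (0 : ℝ) < 1 / ((n : ℝ) + 2) := by positivity
    simp only [hr]; linarith
  have hrt : Tendsto r atTop (𝓝 1) := by
    have h1 : Tendsto (fun n : ℕ => 1 / ((n : ℝ) + 2)) atTop (𝓝 0) := by
      have h2 : Tendsto (fun n : ℕ => ((n : ℝ) + 2)) atTop atTop :=
        tendsto_atTop_add_const_right _ _ tendsto_natCast_atTop_atTop
      exact Tendsto.const_div_atTop h2 1
    have h3 := h1.const_sub 1
    rwa [sub_zero] at h3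
  set e : ℕ → ℝ := fun n => 1 / ((n : ℝ) + 1) with he
  have he0 : ∀ n, 0 < e n := fun n => by simp only [he]; positivity
  have he1 : ∀ n, e n ≤ 1 := by
    intro n
    simp only [he]
    rw [div_le_one (by positivity)]
    have : (0 : ℝ) ≤ n := Nat.cast_nonneg n
    linarith
  have het : Tendsto e atTop (𝓝 0) := tendsto_one_div_add_atTop_nhds_zero_nat
  have hexp : Tendsto (fun n => Real.exp (e n)) atTop (𝓝 1) := by
    have := (Real.continuous_exp.tendsto 0).comp het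
    rwa [Real.exp_zero] at this
  have hmem : ∀ n, ∀ ζ ∈ closedBall (0 : ℂ) 1, (r n : ℂ) * ζ ∈ ball (0 : ℂ) 1 := by
    intro n ζ hζ
    have h1 : ‖ζ‖ ≤ 1 := by simpa using hζ
    rw [mem_ball_zero_iff, norm_mul, Complex.norm_real, Real.norm_of_nonneg (hr0 n).le]
    have := hr0 n
    have := hr1 n
    nlinarith [norm_nonneg ζ]
  have hcomp : ∀ n, ∀ K : ℂ → ℂ, DifferentiableOn ℂ K (ball 0 1) →
      DifferentiableOn ℂ (fun ζ => K ((r n : ℂ) * ζ)) (closedBall 0 1) := by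
    intro n K hK
    exact hK.comp (differentiable_id.const_mul _).differentiableOn (hmem n)
  -- the weight on the circle
  set Hr : ℕ → ℕ → ℂ → ℂ := fun n k ζ => H k ((r n : ℂ) * ζ) with hHr
  set u : ℕ → ℂ → ℝ := fun n ζ => Real.log (MM (Hr n) n ζ) with hu
  have hsub : sphere (0 : ℂ) 1 ⊆ closedBall 0 1 := sphere_subset_closedBall
  have hMMpos : ∀ n ζ, 0 < MM (Hr n) n ζ := fun n ζ => lt_of_lt_of_le one_pos (one_le_MM _ _ _)
  have hucont : ∀ n, ContinuousOn (u n) (sphere 0 1) := by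
    intro n
    apply ContinuousOn.log
    · apply continuousOn_MM
      intro k
      exact ((hcomp n (H k) (hH k)).continuousOn).mono hsub
    · intro ζ _
      exact (hMMpos n ζ).ne'
  have hu0 : ∀ n ζ, 0 ≤ u n ζ := fun n ζ => Real.log_nonneg (one_le_MM _ _ _)
  have huexp : ∀ n ζ, Real.exp (u n ζ) = MM (Hr n) n ζ := fun n ζ => Real.exp_log (hMMpos n ζ)
  choose P hPd hP using fun n => exists_entire_re_approx (hucont n) (he0 n)
  -- the approximants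
  set R : ℕ → ℕ → ℂ → ℂ := fun n m ζ => Complex.exp (-(P n ζ) / m) with hR
  have hRd : ∀ n m, Differentiable ℂ (R n m) := by
    intro n m
    have := hPd n
    simp only [hR]
    fun_prop
  have hRn : ∀ n m ζ, ‖R n m ζ‖ = Real.exp (-(P n ζ).re / m) := by
    intro n m ζ
    simp only [hR]
    rw [Complex.norm_exp]
    congr 1
    rw [← Complex.ofReal_natCast, Complex.div_ofReal_re, Complex.neg_re]
  have hRb : ∀ n m, m ≠ 0 → ∀ ζ ∈ closedBall (0 : ℂ) 1, ‖R n m ζ‖ ≤ Real.exp (e n) := by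
    intro n m hm ζ hζ
    refine maxdisc (hRd n m).differentiableOn ?_ hζ
    intro ξ hξ
    rw [hRn, Real.exp_le_exp]
    have h1 := (abs_lt.mp (hP n ξ hξ)).1
    have h2 := hu0 n ξ
    have hm' : (1 : ℝ) ≤ m := by exact_mod_cast Nat.one_le_iff_ne_zero.mpr hm
    have h3 : -(P n ξ).re ≤ e n := by linarith
    rw [div_le_iff₀ (by linarith)]
    nlinarith [he0 n]
  have hRb' : ∀ n m, m ≠ 0 → ∀ ζ ∈ ball (0 : ℂ) 1, ‖R n m ζ‖ ≤ Real.exp 1 := by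
    intro n m hm ζ hζ
    exact (hRb n m hm ζ (ball_subset_closedBall hζ)).trans (Real.exp_le_exp.mpr (he1 n))
  set 𝒰 : Ultrafilter ℕ := hyperfilter ℕ with h𝒰
  have hle : (𝒰 : Filter ℕ) ≤ atTop := Nat.hyperfilter_le_atTop
  set S : ℕ → ℂ → ℂ := fun m ζ => ulim 𝒰 (fun n => R n m ζ) with hS
  have hSt : ∀ m, m ≠ 0 → ∀ ζ ∈ ball (0 : ℂ) 1, Tendsto (fun n => R n m ζ) 𝒰 (𝓝 (S m ζ)) := by
    intro m hm ζ hζ
    exact tendsto_ulim 𝒰 (Eventually.of_forall fun n => hRb' n m hm ζ hζ)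
  have hSd : ∀ m, m ≠ 0 → DifferentiableOn ℂ (S m) (ball 0 1) := by
    intro m hm
    exact ultralim_differentiableOn 𝒰 isOpen_ball (fun n => R n m)
      (fun n => (hRd n m).differentiableOn) (C := Real.exp 1)
      (fun n ζ hζ => hRb' n m hm ζ hζ) (hSt m hm)
  have hSb : ∀ m, m ≠ 0 → ∀ ζ ∈ ball (0 : ℂ) 1, ‖S m ζ‖ ≤ 1 := by
    intro m hm ζ hζ
    refine le_of_tendsto_of_tendsto (hSt m hm ζ hζ).norm (hexp.mono_left hle)
      (Eventually.of_forall fun n => hRb n m hm ζ (ball_subset_closedBall hζ))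
  have hSpow : ∀ m, m ≠ 0 → ∀ ζ ∈ ball (0 : ℂ) 1, S m ζ ^ m = S 1 ζ := by
    intro m hm ζ hζ
    have h1 := (hSt m hm ζ hζ).pow m
    have h2 := hSt 1 one_ne_zero ζ hζ
    apply tendsto_nhds_unique h1
    refine h2.congr ?_
    intro n
    simp only [hR]
    rw [← Complex.exp_nat_mul]
    congr 1
    have : (m : ℂ) ≠ 0 := by exact_mod_cast hm
    field_simp
    simp
  have hR1 : ∀ n ζ, ‖R n 1 ζ‖ = Real.exp (-(P n ζ).re) := by
    intro n ζ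
    rw [hRn]; simp
  have hrlim : ∀ ζ : ℂ, Tendsto (fun n => (r n : ℂ) * ζ) 𝒰 (𝓝 ζ) := by
    intro ζ
    have h1 : Tendsto (fun n => (r n : ℂ)) 𝒰 (𝓝 1) := by
      have := (Complex.continuous_ofReal.tendsto 1).comp (hrt.mono_left hle)
      rwa [Complex.ofReal_one] at this
    have h2 := h1.mul_const ζ
    rwa [one_mul] at h2
  have hKlim : ∀ K : ℂ → ℂ, DifferentiableOn ℂ K (ball 0 1) → ∀ ζ ∈ ball (0 : ℂ) 1,
      Tendsto (fun n => K ((r n : ℂ) * ζ)) 𝒰 (𝓝 (K ζ)) := by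
    intro K hK ζ hζ
    exact ((hK.continuousOn.continuousAt (isOpen_ball.mem_nhds hζ)).tendsto).comp (hrlim ζ)
  refine ⟨S 1, hSd 1 one_ne_zero, hSb 1 one_ne_zero, ?_, ?_, ?_⟩
  · intro k ζ hζ
    have h1 := ((hSt 1 one_ne_zero ζ hζ).mul (hKlim (H k) (hH k) ζ hζ)).norm
    refine le_of_tendsto_of_tendsto h1 (hexp.mono_left hle) ?_
    have h2 : ∀ᶠ n in (𝒰 : Filter ℕ), k < n := hle (eventually_gt_atTop k)
    filter_upwards [h2] with n hn
    have hd : DifferentiableOn ℂ (fun ζ => R n 1 ζ * H k ((r n : ℂ) * ζ)) (closedBall 0 1) :=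
      (hRd n 1).differentiableOn.mul (hcomp n (H k) (hH k))
    refine maxdisc hd ?_ (ball_subset_closedBall hζ)
    intro ξ hξ
    rw [norm_mul, hR1]
    have h3 : ‖H k ((r n : ℂ) * ξ)‖ ≤ Real.exp (u n ξ) := by
      rw [huexp]
      exact le_MM (Hr n) hn ξ
    have h4 := (abs_lt.mp (hP n ξ hξ)).1
    calc Real.exp (-(P n ξ).re) * ‖H k ((r n : ℂ) * ξ)‖
        ≤ Real.exp (-(P n ξ).re) * Real.exp (u n ξ) :=
          mul_le_mul_of_nonneg_left h3 (Real.exp_pos _).le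
      _ = Real.exp (-(P n ξ).re + u n ξ) := (Real.exp_add _ _).symm
      _ ≤ Real.exp (e n) := Real.exp_le_exp.mpr (by linarith)
  · intro K hKd hK1 hKH ζ hζ
    have h1 := (hKlim K hKd ζ hζ).norm
    have h2 : Tendsto (fun n => Real.exp (e n) * ‖R n 1 ζ‖) 𝒰 (𝓝 (1 * ‖S 1 ζ‖)) :=
      (hexp.mono_left hle).mul (hSt 1 one_ne_zero ζ hζ).norm
    rw [one_mul] at h2
    refine le_of_tendsto_of_tendsto h1 h2 (Eventually.of_forall fun n => ?_)
    have hd : DifferentiableOn ℂ (fun ζ => K ((r n : ℂ) * ζ) * Complex.exp (P n ζ))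
        (closedBall 0 1) := (hcomp n K hKd).mul ((hPd n).cexp).differentiableOn
    have h3 : ‖K ((r n : ℂ) * ζ) * Complex.exp (P n ζ)‖ ≤ Real.exp (e n) := by
      refine maxdisc hd ?_ (ball_subset_closedBall hζ)
      intro ξ hξ
      rw [norm_mul, Complex.norm_exp]
      have hξ' := hmem n ξ (hsub hξ)
      have h4 : ‖K ((r n : ℂ) * ξ)‖ * Real.exp (u n ξ) ≤ 1 := by
        rw [huexp]
        apply mul_MM_le _ _ _ (norm_nonneg _) (hK1 _ hξ')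
        intro k
        have := hKH k _ hξ'
        rwa [norm_mul] at this
      have h5 := (abs_lt.mp (hP n ξ hξ)).2
      calc ‖K ((r n : ℂ) * ξ)‖ * Real.exp (P n ξ).re
          ≤ ‖K ((r n : ℂ) * ξ)‖ * (Real.exp (u n ξ) * Real.exp (e n)) := by
            apply mul_le_mul_of_nonneg_left _ (norm_nonneg _)
            rw [← Real.exp_add]
            exact Real.exp_le_exp.mpr (by linarith)
        _ = (‖K ((r n : ℂ) * ξ)‖ * Real.exp (u n ξ)) * Real.exp (e n) := by ring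
        _ ≤ 1 * Real.exp (e n) := mul_le_mul_of_nonneg_right h4 (Real.exp_pos _).le
        _ = Real.exp (e n) := one_mul _
    show ‖K ((r n : ℂ) * ζ)‖ ≤ Real.exp (e n) * ‖R n 1 ζ‖
    rw [hR1]
    rw [norm_mul, Complex.norm_exp] at h3
    have h6 : ‖K ((r n : ℂ) * ζ)‖ =
        ‖K ((r n : ℂ) * ζ)‖ * Real.exp (P n ζ).re * Real.exp (-(P n ζ).re) := by
      rw [mul_assoc, ← Real.exp_add]; simp
    rw [h6]
    exact mul_le_mul_of_nonneg_right h3 (Real.exp_pos _).le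
  · intro m hm
    exact ⟨S m, hSd m hm, hSb m hm, hSpow m hm⟩

lemma ww_cc {ζ : ℂ} (h : ζ ∈ ball (0 : ℂ) 1) : ww (cc ζ) = ζ := by
  have h1 := one_sub_ne_zero_of_mem_ball h
  have h2 := add_I_ne_zero (cc_mem_Hp h)
  unfold ww
  rw [div_eq_iff h2]
  unfold cc
  field_simp
  ring

/-- the extremal function on the half plane -/
theorem exists_extremal_Hp (H : ℕ → ℂ → ℂ) (hH : ∀ k, DifferentiableOn ℂ (H k) Hp) :
    ∃ F : ℂ → ℂ, DifferentiableOn ℂ F Hp ∧ (∀ z ∈ Hp, ‖F z‖ ≤ 1) ∧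
      (∀ k, ∀ z ∈ Hp, ‖F z * H k z‖ ≤ 1) ∧
      (∀ K : ℂ → ℂ, DifferentiableOn ℂ K Hp → (∀ z ∈ Hp, ‖K z‖ ≤ 1) →
        (∀ k, ∀ z ∈ Hp, ‖K z * H k z‖ ≤ 1) → ∀ z ∈ Hp, ‖K z‖ ≤ ‖F z‖) ∧
      (∀ m : ℕ, m ≠ 0 → ∃ R : ℂ → ℂ, DifferentiableOn ℂ R Hp ∧
        (∀ z ∈ Hp, ‖R z‖ ≤ 1) ∧ ∀ z ∈ Hp, R z ^ m = F z) := by
  obtain ⟨F, hd, h1, h2, h3, h4⟩ := exists_extremal_disc (fun k ζ => H k (cc ζ))
    (fun k => comp_cc_differentiableOn (hH k))
  refine ⟨fun z => F (ww z), hd.comp ww_differentiableOn ww_mapsTo,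
    fun z hz => h1 _ (ww_mapsTo hz), ?_, ?_, ?_⟩
  · intro k z hz
    have := h2 k _ (ww_mapsTo hz)
    rwa [cc_ww hz] at this
  · intro K hK hK1 hKH z hz
    have := h3 (fun ζ => K (cc ζ)) (comp_cc_differentiableOn hK)
      (fun ζ hζ => hK1 _ (cc_mem_Hp hζ)) (fun k ζ hζ => hKH k _ (cc_mem_Hp hζ)) _ (ww_mapsTo hz)
    rwa [cc_ww hz] at this
  · intro m hm
    obtain ⟨R, hR1, hR2, hR3⟩ := h4 m hm
    exact ⟨fun z => R (ww z), hR1.comp ww_differentiableOn ww_mapsTo,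
      fun z hz => hR2 _ (ww_mapsTo hz), fun z hz => hR3 _ (ww_mapsTo hz)⟩

end Pool.Agent.Lib.MP_264cca_an
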