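import Pool.Agent.Lib.MP_264cca_an.HalfPlane

/-!
# The fibre `q = 1` and the characters `F ↦ x(Ψ F)`
-/

open Set Topology Filter Metric
open scoped ComplexConjugate Real

namespace Pool.Agent.Lib.MP_264cca_an

/-! ### Closure properties of `LH` -/

lemma LH.BH {A : ℝ} {F : ℤ → ℂ → ℂ} (hF : LH A F) (j : ℤ) : BH Hp (F j) :=
  ⟨hF.1 j, A, hF.2 j⟩

lemma LH.mono {A B : ℝ} {F : ℤ → ℂ → ℂ} (hF : LH A F) (h : A ≤ B) : LH B F :=
  ⟨hF.1, fun j z hz => (hF.2 j z hz).trans h⟩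

lemma LH.mul {A B : ℝ} {F G : ℤ → ℂ → ℂ} (hF : LH A F) (hG : LH B G) :
    LH (A * B) (fun j z => F j z * G j z) := by
  refine ⟨fun j => (hF.1 j).mul (hG.1 j), fun j z hz => ?_⟩
  rw [norm_mul]
  exact mul_le_mul (hF.2 j z hz) (hG.2 j z hz) (norm_nonneg _) hF.nonneg

lemma LH.add {A B : ℝ} {F G : ℤ → ℂ → ℂ} (hF : LH A F) (hG : LH B G) :
    LH (A + B) (fun j z => F j z + G j z) :=
  ⟨fun j => (hF.1 j).add (hG.1 j), fun j z hz =>
    (norm_add_le _ _).trans (add_le_add (hF.2 j z hz) (hG.2 j z hz))⟩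

lemma LH.sub {A B : ℝ} {F G : ℤ → ℂ → ℂ} (hF : LH A F) (hG : LH B G) :
    LH (A + B) (fun j z => F j z - G j z) :=
  ⟨fun j => (hF.1 j).sub (hG.1 j), fun j z hz =>
    (norm_sub_le _ _).trans (add_le_add (hF.2 j z hz) (hG.2 j z hz))⟩

lemma LH.const {A : ℝ} {g : ℂ → ℂ} (hd : DifferentiableOn ℂ g Hp) (hg : ∀ z ∈ Hp, ‖g z‖ ≤ A) :
    LH A (fun _ => g) := ⟨fun _ => hd, fun _ => hg⟩

lemma LH.pow {F : ℤ → ℂ → ℂ} (hF : LH 1 F) (n : ℤ → ℕ) :
    LH 1 (fun j z => F j z ^ n j) := by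
  refine ⟨fun j => (hF.1 j).pow _, fun j z hz => ?_⟩
  rw [norm_pow]
  exact pow_le_one₀ (norm_nonneg _) (hF.2 j z hz)

lemma LH.translates {A : ℝ} {g : ℂ → ℂ} (hd : DifferentiableOn ℂ g Hp)
    (hg : ∀ z ∈ Hp, ‖g z‖ ≤ A) : LH A (fun j z => g (z + j)) := by
  refine ⟨fun j => ?_, fun j z hz => hg _ (add_int_mem_Hp hz j)⟩
  exact hd.comp (differentiable_id.add_const _).differentiableOn
    (fun z hz => add_int_mem_Hp hz j)

lemma Psi_congr {F G : ℤ → ℂ → ℂ} (h : ∀ j, ∀ z ∈ Hp, F j z = G j z) {z : ℂ} (hz : z ∈ Hp) :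
    Psi F z = Psi G z := by
  unfold Psi
  congr 1
  funext j
  rw [h j _ (sub_int_mem_Hp hz j)]

lemma Psi_add {A B : ℝ} {F G : ℤ → ℂ → ℂ} (hF : LH A F) (hG : LH B G) {z : ℂ} (hz : z ∈ Hp) :
    Psi (fun j z => F j z + G j z) z = Psi F z + Psi G z := by
  unfold Psi
  rw [← (summable_term hF hz).tsum_add (summable_term hG hz)]
  congr 1
  funext j
  ring

lemma Psi_sub {A B : ℝ} {F G : ℤ → ℂ → ℂ} (hF : LH A F) (hG : LH B G) {z : ℂ} (hz : z ∈ Hp) :
    Psi (fun j z => F j z - G j z) z = Psi F z - Psi G z := by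
  unfold Psi
  rw [← (summable_term hF hz).tsum_sub (summable_term hG hz)]
  congr 1
  funext j
  ring

/-! ### The fibre `q = 1` -/

/-- functions that are `O(|q-1|)` vanish on the fibre `q = 1` -/
lemma ap_eq_zero_of_fibre {x : MaxSpace Hp} (hx : ap x qq = 1) {g : ℂ → ℂ}
    (hd : DifferentiableOn ℂ g Hp) {C : ℝ} (hC : ∀ z ∈ Hp, ‖g z‖ ≤ C * ‖qq z - 1‖) :
    ap x g = 0 := by
  set h : ℂ → ℂ := fun z => g z / (qq z - 1) with hh
  have hsub : BH Hp (fun z => qq z - 1) := BH_qq.sub (BH.const 1)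
  have hhB : BH Hp h := by
    refine ⟨hd.div hsub.1 (fun z hz => qq_ne_one hz), C, fun z hz => ?_⟩
    rw [hh]
    simp only [norm_div]
    rw [div_le_iff₀ (norm_pos_iff.mpr (qq_ne_one hz))]
    exact hC z hz
  have h1 : ap x g = ap x (fun z => (qq z - 1) * h z) := by
    apply ap_congr x (hsub.mul hhB)
    intro z hz
    rw [hh]
    field_simp [qq_ne_one hz]
  rw [h1, ap_mul x hsub hhB, ap_sub x BH_qq (BH.const 1), hx, ap_const, sub_self, zero_mul]

lemma ap_eq_of_fibre {x : MaxSpace Hp} (hx : ap x qq = 1) {g h : ℂ → ℂ}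
    (hg : BH Hp g) (hh : BH Hp h) {C : ℝ} (hC : ∀ z ∈ Hp, ‖g z - h z‖ ≤ C * ‖qq z - 1‖) :
    ap x g = ap x h := by
  have := ap_eq_zero_of_fibre (g := fun z => g z - h z) hx (hg.1.sub hh.1) hC
  rw [ap_sub x hg hh] at this
  exact sub_eq_zero.mp this

lemma Psi_mul_aux {A B : ℝ} {F G : ℤ → ℂ → ℂ} (hF : LH A F) (hG : LH B G) {z : ℂ}
    (hz : z ∈ Hp) :
    ‖Psi F z * Psi G z - Psi (fun j z => F j z * G j z) z‖ ≤ (24 * π * (A * B)) * ‖qq z - 1‖ := by
  have hA := hF.nonneg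
  have hB := hG.nonneg
  have hFG := hF.mul hG
  have hpi := Real.pi_gt_three
  rcases le_or_gt ‖qq z - 1‖ (1 / 2) with h | h
  · obtain ⟨l, hl⟩ := exists_int_near h
    have h1 := norm_Psi_sub_le hF hz l
    have h2 := norm_Psi_sub_le hG hz l
    have h3 := norm_Psi_sub_le hFG hz l
    have hP := norm_Psi_le hF hz
    have hg := hG.2 l _ (sub_int_mem_Hp hz l)
    set s := ‖qq z - 1‖
    set P := Psi F z
    set Q := Psi G z
    set R := Psi (fun j z => F j z * G j z) z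
    set f := F l (z - l)
    set g := G l (z - l)
    have h1' : ‖P - f‖ ≤ 8 * π * A * s := h1.trans (by gcongr)
    have h2' : ‖Q - g‖ ≤ 8 * π * B * s := h2.trans (by gcongr)
    have h3' : ‖R - f * g‖ ≤ 8 * π * (A * B) * s := h3.trans (by gcongr)
    calc ‖P * Q - R‖ = ‖P * (Q - g) + (P - f) * g - (R - f * g)‖ := by congr 1; ring
      _ ≤ ‖P * (Q - g)‖ + ‖(P - f) * g‖ + ‖R - f * g‖ :=
          (norm_sub_le _ _).trans (add_le_add (norm_add_le _ _) le_rfl)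
      _ ≤ A * (8 * π * B * s) + (8 * π * A * s) * B + 8 * π * (A * B) * s := by
          rw [norm_mul, norm_mul]
          gcongr
      _ = (24 * π * (A * B)) * s := by ring
  · have hP := norm_Psi_le hF hz
    have hQ := norm_Psi_le hG hz
    have hR := norm_Psi_le hFG hz
    have hAB : 0 ≤ A * B := mul_nonneg hA hB
    calc ‖Psi F z * Psi G z - Psi (fun j z => F j z * G j z) z‖
        ≤ ‖Psi F z * Psi G z‖ + ‖Psi (fun j z => F j z * G j z) z‖ := norm_sub_le _ _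
      _ ≤ A * B + A * B := by
          rw [norm_mul]
          gcongr
      _ = (2 * (A * B)) * 1 := by ring
      _ ≤ (24 * π * (A * B)) * ‖qq z - 1‖ := by
          have h4 : 4 * (A * B) ≤ 24 * π * (A * B) := by nlinarith
          nlinarith [mul_le_mul_of_nonneg_left h.le hAB]

lemma ap_Psi_mul {x : MaxSpace Hp} (hx : ap x qq = 1) {A B : ℝ} {F G : ℤ → ℂ → ℂ}
    (hF : LH A F) (hG : LH B G) :
    ap x (Psi (fun j z => F j z * G j z)) = ap x (Psi F) * ap x (Psi G) := by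
  rw [← ap_mul x (BH_Psi hF) (BH_Psi hG)]
  exact (ap_eq_of_fibre hx ((BH_Psi hF).mul (BH_Psi hG)) (BH_Psi (hF.mul hG))
    (fun z hz => Psi_mul_aux hF hG hz)).symm

lemma ap_Psi_add (x : MaxSpace Hp) {A B : ℝ} {F G : ℤ → ℂ → ℂ}
    (hF : LH A F) (hG : LH B G) :
    ap x (Psi (fun j z => F j z + G j z)) = ap x (Psi F) + ap x (Psi G) := by
  rw [← ap_add x (BH_Psi hF) (BH_Psi hG)]
  exact ap_congr x ((BH_Psi hF).add (BH_Psi hG)) (fun z hz => Psi_add hF hG hz)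

lemma ap_Psi_sub (x : MaxSpace Hp) {A B : ℝ} {F G : ℤ → ℂ → ℂ}
    (hF : LH A F) (hG : LH B G) :
    ap x (Psi (fun j z => F j z - G j z)) = ap x (Psi F) - ap x (Psi G) := by
  rw [← ap_sub x (BH_Psi hF) (BH_Psi hG)]
  exact ap_congr x ((BH_Psi hF).sub (BH_Psi hG)) (fun z hz => Psi_sub hF hG hz)

lemma ap_Psi_translates {x : MaxSpace Hp} (hx : ap x qq = 1) {g : ℂ → ℂ} (hg : BH Hp g) :
    ap x (Psi (fun j z => g (z + j))) = ap x g := by
  obtain ⟨A, hA⟩ := hg.2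
  have hL : LH A (fun (j : ℤ) z => g (z + j)) := LH.translates hg.1 hA
  have hA0 := hL.nonneg
  have hpi := Real.pi_gt_three
  apply ap_eq_of_fibre hx (BH_Psi hL) hg (C := 8 * π * A)
  intro z hz
  rcases le_or_gt ‖qq z - 1‖ (1 / 2) with h | h
  · obtain ⟨l, hl⟩ := exists_int_near h
    have h1 := norm_Psi_sub_le hL hz l
    simp only [sub_add_cancel] at h1
    exact h1.trans (by gcongr)
  · have h1 := norm_Psi_le hL hz
    have h2 := hA z hz
    calc ‖Psi (fun j z => g (z + j)) z - g z‖ ≤ A + A :=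
          (norm_sub_le _ _).trans (add_le_add h1 h2)
      _ ≤ 8 * π * A * ‖qq z - 1‖ := by
          have h4 : 4 * A ≤ 8 * π * A := by nlinarith
          nlinarith [mul_le_mul_of_nonneg_left h.le hA0]

lemma norm_ap_Psi_le (x : MaxSpace Hp) {A : ℝ} {F : ℤ → ℂ → ℂ} (hF : LH A F) :
    ‖ap x (Psi F)‖ ≤ A := ap_norm_le x (BH_Psi hF).1 (fun _ hz => norm_Psi_le hF hz)

lemma ap_Psi_congr (x : MaxSpace Hp) {A : ℝ} {F G : ℤ → ℂ → ℂ} (hF : LH A F)
    (h : ∀ j, ∀ z ∈ Hp, G j z = F j z) : ap x (Psi G) = ap x (Psi F) :=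
  ap_congr x (BH_Psi hF) (fun _ hz => Psi_congr h hz)

/-- `x(Ψ(constant sequence c)) = c` -/
lemma ap_Psi_const {x : MaxSpace Hp} (hx : ap x qq = 1) (c : ℂ) :
    ap x (Psi (fun _ _ => c)) = c := by
  have := ap_Psi_translates hx (BH.const (Ω := Hp) c)
  rwa [ap_const] at this

lemma ap_Psi_pow {x : MaxSpace Hp} (hx : ap x qq = 1) {F : ℤ → ℂ → ℂ}
    (hF : LH 1 F) (n : ℕ) :
    ap x (Psi (fun j z => F j z ^ n)) = ap x (Psi F) ^ n := by
  induction n with
  | zero =>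
    simp only [pow_zero]
    exact ap_Psi_const hx 1
  | succ n ih =>
    rw [pow_succ, ← ih, ← ap_Psi_mul hx (hF.pow (fun _ => n)) hF]
    simp only [pow_succ]

/-- the local character `x_c : g ↦ x(Ψ(constant sequence g))` -/
lemma exists_xc {x : MaxSpace Hp} (hx : ap x qq = 1) :
    ∃ y : MaxSpace Hp, ∀ g, BH Hp g → ap y g = ap x (Psi (fun _ => g)) := by
  apply exists_char (fun g => ap x (Psi (fun _ => g)))
  · intro g h hg hh e
    obtain ⟨A, hA⟩ := hh.2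
    exact ap_Psi_congr x (LH.const hh.1 hA) (fun _ => e)
  · intro g h hg hh
    obtain ⟨A, hA⟩ := hg.2
    obtain ⟨B, hB⟩ := hh.2
    exact ap_Psi_add x (LH.const hg.1 hA) (LH.const hh.1 hB)
  · intro g h hg hh
    obtain ⟨A, hA⟩ := hg.2
    obtain ⟨B, hB⟩ := hh.2
    exact ap_Psi_mul hx (LH.const hg.1 hA) (LH.const hh.1 hB)
  · intro c
    exact ap_Psi_const hx c

/-- the indicator family -/
noncomputable def ind (J : Set ℤ) : ℤ → ℂ → ℂ := by
  classical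
  exact fun j _ => if j ∈ J then 1 else 0

lemma ind_of_mem {J : Set ℤ} {j : ℤ} (h : j ∈ J) (z : ℂ) : ind J j z = 1 := by
  simp [ind, h]

lemma ind_of_notMem {J : Set ℤ} {j : ℤ} (h : j ∉ J) (z : ℂ) : ind J j z = 0 := by
  simp [ind, h]

lemma LH_ind (J : Set ℤ) : LH 1 (ind J) := by
  refine ⟨fun j => ?_, fun j z _ => ?_⟩
  · by_cases h : j ∈ J
    · have : ind J j = fun _ => 1 := by funext z; exact ind_of_mem h z
      rw [this]; exact differentiableOn_const _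
    · have : ind J j = fun _ => 0 := by funext z; exact ind_of_notMem h z
      rw [this]; exact differentiableOn_const _
  · by_cases h : j ∈ J
    · rw [ind_of_mem h]; simp
    · rw [ind_of_notMem h]; simp

lemma ap_ind_eq {x : MaxSpace Hp} (hx : ap x qq = 1) (J : Set ℤ) :
    ap x (Psi (ind J)) = 0 ∨ ap x (Psi (ind J)) = 1 := by
  have h1 := ap_Psi_mul hx (LH_ind J) (LH_ind J)
  have h2 : ap x (Psi (fun j z => ind J j z * ind J j z)) = ap x (Psi (ind J)) := by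
    apply ap_Psi_congr x (LH_ind J)
    intro j z _
    by_cases h : j ∈ J
    · rw [ind_of_mem h]; simp
    · rw [ind_of_notMem h]; simp
  rw [h2] at h1
  have h3 : ap x (Psi (ind J)) * (1 - ap x (Psi (ind J))) = 0 := by
    rw [mul_sub, mul_one, ← h1, sub_self]
  rcases mul_eq_zero.mp h3 with h | h
  · left; exact h
  · right; exact (sub_eq_zero.mp h).symm

/-- if `x` gives `J` mass one, then `x(Ψ F)` only depends on `F_j`, `j ∈ J` -/
lemma norm_ap_Psi_le_of_ind {x : MaxSpace Hp} (hx : ap x qq = 1) {J : Set ℤ}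
    (hJ : ap x (Psi (ind J)) = 1) {A B : ℝ} (hB : 0 ≤ B) {F : ℤ → ℂ → ℂ} (hF : LH A F)
    (hFJ : ∀ j ∈ J, ∀ z ∈ Hp, ‖F j z‖ ≤ B) : ‖ap x (Psi F)‖ ≤ B := by
  have h1 := ap_Psi_mul hx (LH_ind J) hF
  rw [hJ, one_mul] at h1
  rw [← h1]
  apply norm_ap_Psi_le
  refine ⟨fun j => ((LH_ind J).1 j).mul (hF.1 j), fun j z hz => ?_⟩
  show ‖ind J j z * F j z‖ ≤ B
  by_cases h : j ∈ J
  · rw [ind_of_mem h, one_mul]; exact hFJ j h z hz
  · rw [ind_of_notMem h, zero_mul, norm_zero]; exact hB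

/-! ### Limits of translates of `Ψ(F)` -/

/-- `(shiftLim V F)_l = lim_{m → V} F_{l+m}` -/
noncomputable def shiftLim (V : Ultrafilter ℤ) (F : ℤ → ℂ → ℂ) (l : ℤ) (z : ℂ) : ℂ :=
  ulim V (fun m : ℤ => F (l + m) z)

lemma tendsto_shiftLim (V : Ultrafilter ℤ) {A : ℝ} {F : ℤ → ℂ → ℂ} (hF : LH A F) (l : ℤ)
    {z : ℂ} (hz : z ∈ Hp) : Tendsto (fun m : ℤ => F (l + m) z) V (𝓝 (shiftLim V F l z)) :=
  tendsto_ulim V (C := A) (Eventually.of_forall fun m => hF.2 _ z hz)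

lemma LH_shiftLim (V : Ultrafilter ℤ) {A : ℝ} {F : ℤ → ℂ → ℂ} (hF : LH A F) :
    LH A (shiftLim V F) := by
  refine ⟨fun l => ?_, fun l z hz => ?_⟩
  · exact ultralim_differentiableOn V isOpen_Hp (fun m z => F (l + m) z)
      (fun _ => hF.1 _) (fun _ z hz => hF.2 _ z hz) (fun z hz => tendsto_shiftLim V hF l hz)
  · exact norm_ulim_le (Eventually.of_forall fun m => hF.2 _ z hz)

lemma Phi_Psi (V : Ultrafilter ℤ) {A : ℝ} {F : ℤ → ℂ → ℂ} (hF : LH A F) {z : ℂ}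
    (hz : z ∈ Hp) : Phi V (Psi F) z = Psi (shiftLim V F) z := by
  apply ulim_eq
  have h1 : ∀ m : ℤ, Psi F (z + m) = ∑' l : ℤ, F (l + m) (z - l) * kap (z - l) := by
    intro m
    unfold Psi
    rw [← (Equiv.addRight m).tsum_eq]
    congr 1
    funext l
    simp only [Equiv.coe_addRight]
    have : z + m - ((l + m : ℤ) : ℂ) = z - l := by push_cast; ring
    rw [this]
  simp_rw [h1]
  unfold Psi
  apply tendsto_tsum_of_dominated_convergence (bound := fun l : ℤ => A * ‖kap (z - l)‖)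
  · exact (summable_norm_kap hz).mul_left A
  · intro l
    exact (tendsto_shiftLim V hF l (sub_int_mem_Hp hz l)).mul_const _
  · refine Eventually.of_forall fun m l => ?_
    rw [norm_mul]
    exact mul_le_mul_of_nonneg_right (hF.2 _ _ (sub_int_mem_Hp hz l)) (norm_nonneg _)

/-! ### Characters over the boundary point `0` -/

/-- `g₀(z) = i/(z+i)`; a character is over `0` if it sends `g₀` to `1` -/
noncomputable def g0 (z : ℂ) : ℂ := Complex.I / (z + Complex.I)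

lemma add_I_ne_zero {z : ℂ} (hz : z ∈ Hp) : z + Complex.I ≠ 0 := by
  intro h
  have := congrArg Complex.im h
  simp at this
  have h2 := mem_Hp.mp hz
  linarith

lemma norm_add_I_ge {z : ℂ} (hz : z ∈ Hp) : 1 ≤ ‖z + Complex.I‖ := by
  have h1 : |(z + Complex.I).im| ≤ ‖z + Complex.I‖ := Complex.abs_im_le_norm _
  have h2 : (z + Complex.I).im = z.im + 1 := by simp
  rw [h2] at h1
  have h3 := mem_Hp.mp hz
  exact le_trans (by linarith [le_abs_self (z.im + 1)]) h1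

lemma g0_differentiableOn : DifferentiableOn ℂ g0 Hp :=
  (differentiableOn_const _).div (differentiable_id.add_const _).differentiableOn
    (fun _ hz => add_I_ne_zero hz)

lemma norm_g0_le {z : ℂ} (hz : z ∈ Hp) : ‖g0 z‖ ≤ 1 := by
  unfold g0
  rw [norm_div, Complex.norm_I]
  exact div_le_one_of_le₀ (norm_add_I_ge hz) (norm_nonneg _)

lemma BH_g0 : BH Hp g0 := ⟨g0_differentiableOn, 1, fun _ hz => norm_g0_le hz⟩

lemma ap_eq_zero_of_over {v : MaxSpace Hp} (hv : ap v g0 = 1) {g : ℂ → ℂ} (hg : BH Hp g)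
    {C : ℝ} (hC : ∀ z ∈ Hp, ‖g z‖ ≤ C * ‖z‖) : ap v g = 0 := by
  obtain ⟨D, hD⟩ := hg.2
  set h : ℂ → ℂ := fun z => g z * (z + Complex.I) / z with hh
  have hsub : BH Hp (fun z => 1 - g0 z) := (BH.const 1).sub BH_g0
  have hD0 : 0 ≤ D := (norm_nonneg _).trans (hD Complex.I (by simp [mem_Hp]))
  have hC0 : 0 ≤ C := by
    have := (norm_nonneg _).trans (hC Complex.I (by simp [mem_Hp]))
    simpa using this
  have hhB : BH Hp h := by
    refine ⟨(hg.1.mul (differentiable_id.add_const _).differentiableOn).div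
      differentiable_id.differentiableOn (fun z hz => Hp_ne_zero hz), 2 * C + 2 * D,
      fun z hz => ?_⟩
    have hz0 : 0 < ‖z‖ := norm_pos_iff.mpr (Hp_ne_zero hz)
    have h1 : ‖z + Complex.I‖ ≤ ‖z‖ + 1 := by
      have := norm_add_le z Complex.I
      rwa [Complex.norm_I] at this
    rw [hh]
    simp only [norm_div, norm_mul]
    rw [div_le_iff₀ hz0]
    rcases le_or_gt ‖z‖ 1 with h2 | h2
    · calc ‖g z‖ * ‖z + Complex.I‖ ≤ (C * ‖z‖) * 2 := by
            apply mul_le_mul (hC z hz) (by linarith) (norm_nonneg _) (by positivity)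
        _ ≤ (2 * C + 2 * D) * ‖z‖ := by nlinarith
    · calc ‖g z‖ * ‖z + Complex.I‖ ≤ D * (2 * ‖z‖) := by
            apply mul_le_mul (hD z hz) (by linarith) (norm_nonneg _) hD0
        _ ≤ (2 * C + 2 * D) * ‖z‖ := by nlinarith
  have h1 : ap v g = ap v (fun z => (1 - g0 z) * h z) := by
    apply ap_congr v (hsub.mul hhB)
    intro z hz
    have h2 := Hp_ne_zero hz
    have h3 := add_I_ne_zero hz
    rw [hh]
    unfold g0
    field_simp
    ring
  rw [h1, ap_mul v hsub hhB, ap_sub v (BH.const 1) BH_g0, hv, ap_const, sub_self, zero_mul]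

lemma ap_eq_of_over {v : MaxSpace Hp} (hv : ap v g0 = 1) {g h : ℂ → ℂ} (hg : BH Hp g)
    (hh : BH Hp h) {C : ℝ} (hC : ∀ z ∈ Hp, ‖g z - h z‖ ≤ C * ‖z‖) : ap v g = ap v h := by
  have := ap_eq_zero_of_over (g := fun z => g z - h z) hv (hg.sub hh) hC
  rw [ap_sub v hg hh] at this
  exact sub_eq_zero.mp this

lemma ap_qq_of_over {v : MaxSpace Hp} (hv : ap v g0 = 1) : ap v qq = 1 := by
  have h := ap_eq_of_over hv BH_qq (BH.const 1) (C := 2 * π) (fun z hz => by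
    have := norm_exp_sub_one_le_of_re_nonpos (Hp_re_nonpos hz)
    rw [norm_two_pi_I_mul] at this
    exact this)
  rw [h, ap_const]

lemma Phi_qq (V : Ultrafilter ℤ) (z : ℂ) : Phi V qq z = qq z := by
  unfold Phi
  simp only [qq_add_int]
  exact ulim_eq tendsto_const_nhds

lemma ap_compPhi_qq (V : Ultrafilter ℤ) (x : MaxSpace Hp) :
    ap (compPhi V x) qq = ap x qq := by
  rw [ap_compPhi V x BH_qq]
  exact ap_congr x BH_qq (fun z _ => Phi_qq V z)

/-- evaluation of `y = v ∘ Φ_U` at `Ψ(F)` -/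
lemma ap_compPhi_Psi {v : MaxSpace Hp} (hv : ap v g0 = 1) (U : Ultrafilter ℤ) {A : ℝ}
    {F : ℤ → ℂ → ℂ} (hF : LH A F) :
    ap (compPhi U v) (Psi F) = ap v (shiftLim U F 0) := by
  have hG := LH_shiftLim U hF
  rw [ap_compPhi U v (BH_Psi hF)]
  rw [ap_congr v (BH_Psi hG) (fun z hz => Phi_Psi U hF hz)]
  apply ap_eq_of_over hv (BH_Psi hG) (hG.BH 0) (C := 8 * π * A)
  intro z hz
  have := norm_Psi_sub_le hG hz 0
  simpa using this

end Pool.Agent.Lib.MP_264cca_an
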