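import Pool.Agent.Lib.MP_264cca_an.UltraLim

/-!
# The kernel `κ` and the operator `Ψ`
-/

open Set Topology Filter Metric
open scoped ComplexConjugate Real

namespace Pool.Agent.Lib.MP_264cca_an

/-! ### Exponential estimates -/

lemma norm_exp_sub_one_le_of_re_nonpos {u : ℂ} (hu : u.re ≤ 0) : ‖Complex.exp u - 1‖ ≤ ‖u‖ := by
  have hconv : Convex ℝ {w : ℂ | w.re ≤ 0} := convex_halfSpace_re_le 0
  have := hconv.norm_image_sub_le_of_norm_hasDerivWithin_le (f := Complex.exp)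
    (f' := Complex.exp) (C := 1) (x := 0) (y := u)
    (fun w _ => (Complex.hasDerivAt_exp w).hasDerivWithinAt)
    (fun w hw => by
      rw [Complex.norm_exp]
      exact Real.exp_le_one_iff.mpr hw)
    (by simp) hu
  simpa using this

lemma norm_exp_sub_one_sub_le_of_re_nonpos {u : ℂ} (hu : u.re ≤ 0) :
    ‖Complex.exp u - 1 - u‖ ≤ ‖u‖ ^ 2 := by
  have hconv : Convex ℝ ({w : ℂ | w.re ≤ 0} ∩ closedBall 0 ‖u‖) :=
    (convex_halfSpace_re_le 0).inter (convex_closedBall _ _)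
  have := hconv.norm_image_sub_le_of_norm_hasDerivWithin_le
    (f := fun w => Complex.exp w - 1 - w)
    (f' := fun w => Complex.exp w - 1) (C := ‖u‖) (x := 0) (y := u)
    (fun w _ => (((Complex.hasDerivAt_exp w).sub_const 1).sub (hasDerivAt_id w)).hasDerivWithinAt)
    (fun w hw => by
      refine (norm_exp_sub_one_le_of_re_nonpos hw.1).trans ?_
      simpa using hw.2)
    (by simp) ⟨hu, by simp⟩
  simpa [sq] using this

/-! ### The function `q` -/

/-- `q(z) = e^{2πiz}` -/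
noncomputable def qq (z : ℂ) : ℂ := Complex.exp (2 * π * Complex.I * z)

lemma qq_add_int (z : ℂ) (m : ℤ) : qq (z + m) = qq z := by
  unfold qq
  rw [mul_add, Complex.exp_add]
  have : Complex.exp (2 * π * Complex.I * m) = 1 := by
    rw [mul_comm]; exact Complex.exp_int_mul_two_pi_mul_I m
  rw [this, mul_one]

lemma qq_sub_int (z : ℂ) (m : ℤ) : qq (z - m) = qq z := by
  have := qq_add_int (z - m) m
  rw [sub_add_cancel] at this
  exact this.symm

lemma two_pi_I_mul_re (z : ℂ) : (2 * π * Complex.I * z).re = -(2 * π * z.im) := by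
  simp

lemma norm_qq (z : ℂ) : ‖qq z‖ = Real.exp (-(2 * π * z.im)) := by
  unfold qq
  rw [Complex.norm_exp, two_pi_I_mul_re]

lemma norm_qq_lt_one {z : ℂ} (hz : z ∈ Hp) : ‖qq z‖ < 1 := by
  rw [norm_qq, Real.exp_lt_one_iff]
  have : 0 < 2 * π * z.im := by
    have := Real.pi_pos
    have := mem_Hp.mp hz
    positivity
  linarith

lemma qq_differentiable : Differentiable ℂ qq := by
  unfold qq
  fun_prop

lemma qq_ne_one {z : ℂ} (hz : z ∈ Hp) : qq z - 1 ≠ 0 := by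
  intro h
  have h1 : qq z = 1 := sub_eq_zero.mp h
  have := norm_qq_lt_one hz
  rw [h1, norm_one] at this
  exact lt_irrefl _ this

lemma BH_qq : BH Hp qq := ⟨qq_differentiable.differentiableOn, 1, fun _ hz => (norm_qq_lt_one hz).le⟩

lemma Hp_re_nonpos {z : ℂ} (hz : z ∈ Hp) : (2 * π * Complex.I * z).re ≤ 0 := by
  rw [two_pi_I_mul_re]
  have := Real.pi_pos
  have := mem_Hp.mp hz
  have : 0 < 2 * π * z.im := by positivity
  linarith

lemma Hp_ne_zero {z : ℂ} (hz : z ∈ Hp) : z ≠ 0 := by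
  rintro rfl
  simp [mem_Hp] at hz

lemma norm_two_pi_I_mul (z : ℂ) : ‖2 * π * Complex.I * z‖ = 2 * π * ‖z‖ := by
  simp [abs_of_pos Real.pi_pos]

/-- if `q(z)` is close to `1` then `z` is close to an integer -/
lemma exists_int_near {z : ℂ} (h : ‖qq z - 1‖ ≤ 1 / 2) :
    ∃ l : ℤ, ‖z - l‖ ≤ ‖qq z - 1‖ := by
  have hne : qq z ≠ 0 := Complex.exp_ne_zero _
  set L := Complex.log (qq z) with hL
  have h1 : Complex.exp (2 * π * Complex.I * z) = Complex.exp L := by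
    rw [hL, Complex.exp_log hne]; rfl
  obtain ⟨n, hn⟩ := Complex.exp_eq_exp_iff_exists_int.mp h1
  have h2 : ‖L‖ ≤ 3 / 2 * ‖qq z - 1‖ := by
    have := Complex.norm_log_one_add_half_le_self (z := qq z - 1) h
    rwa [add_sub_cancel] at this
  refine ⟨n, ?_⟩
  have h3 : 2 * π * Complex.I * (z - n) = L := by
    rw [mul_sub, hn]; ring
  have h4 : 2 * π * ‖z - n‖ = ‖L‖ := by rw [← h3, norm_two_pi_I_mul]
  have hpi := Real.pi_gt_three
  have h5 : 0 ≤ ‖z - n‖ := norm_nonneg _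
  nlinarith

/-! ### The kernel -/

/-- `b(z) = (q(z)-1)/(2πiz)` -/
noncomputable def bb (z : ℂ) : ℂ := (qq z - 1) / (2 * π * Complex.I * z)

/-- `κ = b²` -/
noncomputable def kap (z : ℂ) : ℂ := bb z ^ 2

lemma norm_bb_le_one {z : ℂ} (hz : z ∈ Hp) : ‖bb z‖ ≤ 1 := by
  unfold bb
  rw [norm_div]
  exact div_le_one_of_le₀ (norm_exp_sub_one_le_of_re_nonpos (Hp_re_nonpos hz)) (norm_nonneg _)

lemma norm_one_sub_bb_le {z : ℂ} (hz : z ∈ Hp) : ‖1 - bb z‖ ≤ 2 * π * ‖z‖ := by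
  have hz0 := Hp_ne_zero hz
  have hne : 2 * π * Complex.I * z ≠ 0 := by
    simp [hz0, Real.pi_ne_zero]
  have hpos : 0 < ‖2 * π * Complex.I * z‖ := norm_pos_iff.mpr hne
  have h1 : 1 - bb z = -((qq z - 1 - 2 * π * Complex.I * z) / (2 * π * Complex.I * z)) := by
    unfold bb
    field_simp
    ring
  rw [h1, norm_neg, norm_div, div_le_iff₀ hpos]
  have h2 := norm_exp_sub_one_sub_le_of_re_nonpos (Hp_re_nonpos hz)
  have h3 : ‖qq z - 1 - 2 * π * Complex.I * z‖ ≤ ‖2 * π * Complex.I * z‖ ^ 2 := h2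
  rw [norm_two_pi_I_mul] at *
  nlinarith

lemma norm_kap_le_one {z : ℂ} (hz : z ∈ Hp) : ‖kap z‖ ≤ 1 := by
  unfold kap
  rw [norm_pow]
  exact pow_le_one₀ (norm_nonneg _) (norm_bb_le_one hz)

lemma norm_one_sub_kap_le {z : ℂ} (hz : z ∈ Hp) : ‖1 - kap z‖ ≤ 4 * π * ‖z‖ := by
  have h1 : 1 - kap z = (1 - bb z) * (1 + bb z) := by unfold kap; ring
  rw [h1, norm_mul]
  have h2 : ‖1 + bb z‖ ≤ 2 := by
    calc ‖1 + bb z‖ ≤ ‖(1 : ℂ)‖ + ‖bb z‖ := norm_add_le _ _
      _ ≤ 1 + 1 := by rw [norm_one]; linarith [norm_bb_le_one hz]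
      _ = 2 := by norm_num
  have h3 := norm_one_sub_bb_le hz
  calc ‖1 - bb z‖ * ‖1 + bb z‖ ≤ (2 * π * ‖z‖) * 2 :=
        mul_le_mul h3 h2 (norm_nonneg _) (by positivity)
    _ = 4 * π * ‖z‖ := by ring

lemma norm_kap_le {z : ℂ} (hz : z ∈ Hp) : ‖kap z‖ ≤ 2 / (1 + ‖z‖ ^ 2) := by
  rcases le_or_gt ‖z‖ 1 with h | h
  · refine (norm_kap_le_one hz).trans ?_
    rw [le_div_iff₀ (by positivity)]
    nlinarith [norm_nonneg z]
  · have hz0 : 0 < ‖z‖ := by linarith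
    have h1 : ‖bb z‖ ≤ 1 / ‖z‖ := by
      unfold bb
      rw [norm_div, norm_two_pi_I_mul, div_le_div_iff₀ (by positivity) hz0]
      have h2 : ‖qq z - 1‖ ≤ 2 := by
        calc ‖qq z - 1‖ ≤ ‖qq z‖ + ‖(1 : ℂ)‖ := norm_sub_le _ _
          _ ≤ 1 + 1 := by rw [norm_one]; linarith [norm_qq_lt_one hz]
          _ = 2 := by norm_num
      have := Real.pi_gt_three
      nlinarith
    unfold kap
    rw [norm_pow]
    calc ‖bb z‖ ^ 2 ≤ (1 / ‖z‖) ^ 2 := pow_le_pow_left₀ (norm_nonneg _) h1 2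
      _ = 1 / ‖z‖ ^ 2 := by rw [div_pow, one_pow]
      _ ≤ 2 / (1 + ‖z‖ ^ 2) := by
          rw [div_le_div_iff₀ (by positivity) (by positivity)]
          nlinarith

lemma kap_differentiableOn : DifferentiableOn ℂ kap Hp := by
  unfold kap bb
  apply DifferentiableOn.pow
  apply DifferentiableOn.div
  · exact (qq_differentiable.sub_const 1).differentiableOn
  · exact (by fun_prop : Differentiable ℂ fun z : ℂ => 2 * π * Complex.I * z).differentiableOn
  · intro z hz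
    simp [Hp_ne_zero hz, Real.pi_ne_zero]

/-- `b(z-n)` is the `n`-th Fourier coefficient of `s ↦ e^{2πizs}` on `[0,1]` -/
lemma fourierCoeffOn_eq_bb {z : ℂ} (hz : z ∈ Hp) (n : ℤ) :
    fourierCoeffOn (zero_lt_one' ℝ) (fun s : ℝ => Complex.exp (2 * π * Complex.I * z * s)) n =
      bb (z - n) := by
  rw [fourierCoeffOn_eq_integral]
  have hne : 2 * π * Complex.I * (z - n) ≠ 0 := by
    have := Hp_ne_zero (sub_int_mem_Hp hz n)
    simp [this, Real.pi_ne_zero]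
  have h1 : ∀ s : ℝ, (fourier (-n) (s : AddCircle ((1 : ℝ) - 0)) : ℂ) •
      Complex.exp (2 * π * Complex.I * z * s) =
      Complex.exp ((2 * π * Complex.I * (z - n)) * s) := by
    intro s
    rw [fourier_coe_apply, smul_eq_mul, ← Complex.exp_add]
    congr 1
    push_cast
    ring
  simp_rw [h1]
  rw [integral_exp_mul_complex hne]
  unfold bb
  have h2 := qq_sub_int z n
  unfold qq at h2 ⊢
  simp [h2]

lemma hasSum_norm_kap {z : ℂ} (hz : z ∈ Hp) :
    HasSum (fun n : ℤ => ‖kap (z - n)‖)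
      (∫ s in (0 : ℝ)..1, ‖Complex.exp (2 * π * Complex.I * z * s)‖ ^ 2) := by
  have hcont : Continuous (fun s : ℝ => Complex.exp (2 * π * Complex.I * z * s)) := by fun_prop
  have hL2 : MeasureTheory.MemLp (fun s : ℝ => Complex.exp (2 * π * Complex.I * z * s)) 2
      (MeasureTheory.volume.restrict (Ioc (0 : ℝ) 1)) := by
    apply MeasureTheory.MemLp.of_bound hcont.aestronglyMeasurable 1
    rw [MeasureTheory.ae_restrict_iff' measurableSet_Ioc]
    refine Eventually.of_forall fun s hs => ?_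
    rw [Complex.norm_exp, Real.exp_le_one_iff]
    have : (2 * π * Complex.I * z * s).re = -(2 * π * z.im * s) := by simp
    rw [this]
    have := Real.pi_pos
    have := mem_Hp.mp hz
    have := hs.1
    have : 0 < 2 * π * z.im * s := by positivity
    linarith
  have h := hasSum_sq_fourierCoeffOn (zero_lt_one' ℝ) hL2
  simp only [sub_zero, inv_one, one_smul] at h
  convert h using 2 with n
  rw [fourierCoeffOn_eq_bb hz n]
  unfold kap
  rw [norm_pow]

lemma summable_norm_kap {z : ℂ} (hz : z ∈ Hp) : Summable (fun n : ℤ => ‖kap (z - n)‖) :=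
  (hasSum_norm_kap hz).summable

lemma tsum_norm_kap_le_one {z : ℂ} (hz : z ∈ Hp) : ∑' n : ℤ, ‖kap (z - n)‖ ≤ 1 := by
  rw [(hasSum_norm_kap hz).tsum_eq]
  have h1 : ∫ s in (0 : ℝ)..1, ‖Complex.exp (2 * π * Complex.I * z * s)‖ ^ 2 ≤
      ∫ _ in (0 : ℝ)..1, (1 : ℝ) := by
    apply intervalIntegral.integral_mono_on (by norm_num)
    · apply Continuous.intervalIntegrable
      fun_prop
    · exact intervalIntegrable_const
    · intro s hs
      apply pow_le_one₀ (norm_nonneg _)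
      rw [Complex.norm_exp, Real.exp_le_one_iff]
      have : (2 * π * Complex.I * z * s).re = -(2 * π * z.im * s) := by simp
      rw [this]
      have := Real.pi_pos
      have := mem_Hp.mp hz
      have := hs.1
      have : 0 ≤ 2 * π * z.im * s := by positivity
      linarith
  simpa using h1

/-! ### The operator `Ψ` -/

/-- bounded families of bounded analytic functions -/
def LH (A : ℝ) (F : ℤ → ℂ → ℂ) : Prop :=
  (∀ j, DifferentiableOn ℂ (F j) Hp) ∧ ∀ j, ∀ z ∈ Hp, ‖F j z‖ ≤ A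

/-- `Ψ(F)(z) = ∑_j F_j(z-j) κ(z-j)` -/
noncomputable def Psi (F : ℤ → ℂ → ℂ) (z : ℂ) : ℂ := ∑' j : ℤ, F j (z - j) * kap (z - j)

lemma LH.nonneg {A : ℝ} {F : ℤ → ℂ → ℂ} (hF : LH A F) : 0 ≤ A :=
  (norm_nonneg _).trans (hF.2 0 Complex.I (by simp [mem_Hp]))

lemma norm_term_le {A : ℝ} {F : ℤ → ℂ → ℂ} (hF : LH A F) {z : ℂ} (hz : z ∈ Hp) (j : ℤ) :
    ‖F j (z - j) * kap (z - j)‖ ≤ A * ‖kap (z - j)‖ := by
  rw [norm_mul]
  exact mul_le_mul_of_nonneg_right (hF.2 j _ (sub_int_mem_Hp hz j)) (norm_nonneg _)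

lemma summable_norm_term {A : ℝ} {F : ℤ → ℂ → ℂ} (hF : LH A F) {z : ℂ} (hz : z ∈ Hp) :
    Summable (fun j : ℤ => ‖F j (z - j) * kap (z - j)‖) :=
  Summable.of_nonneg_of_le (fun _ => norm_nonneg _) (norm_term_le hF hz)
    ((summable_norm_kap hz).mul_left A)

lemma summable_term {A : ℝ} {F : ℤ → ℂ → ℂ} (hF : LH A F) {z : ℂ} (hz : z ∈ Hp) :
    Summable (fun j : ℤ => F j (z - j) * kap (z - j)) := (summable_norm_term hF hz).of_norm

lemma norm_Psi_le {A : ℝ} {F : ℤ → ℂ → ℂ} (hF : LH A F) {z : ℂ} (hz : z ∈ Hp) :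
    ‖Psi F z‖ ≤ A := by
  calc ‖Psi F z‖ ≤ ∑' j : ℤ, ‖F j (z - j) * kap (z - j)‖ :=
        norm_tsum_le_tsum_norm (summable_norm_term hF hz)
    _ ≤ ∑' j : ℤ, A * ‖kap (z - j)‖ :=
        (summable_norm_term hF hz).tsum_le_tsum (norm_term_le hF hz)
          ((summable_norm_kap hz).mul_left A)
    _ = A * ∑' j : ℤ, ‖kap (z - j)‖ := tsum_mul_left
    _ ≤ A * 1 := mul_le_mul_of_nonneg_left (tsum_norm_kap_le_one hz) hF.nonneg
    _ = A := mul_one A

lemma kap_bound_local {z : ℂ} (hz : z ∈ Hp) (j : ℤ) :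
    ‖kap (z - j)‖ ≤ 4 * (1 + ‖z‖ ^ 2) * (1 / (1 + (j : ℝ) ^ 2)) := by
  have h1 := norm_kap_le (sub_int_mem_Hp hz j)
  refine h1.trans ?_
  rw [mul_one_div, div_le_div_iff₀ (by positivity) (by positivity)]
  -- `1 + j² ≤ 2 (1+|z-j|²)(1+|z|²)`
  have h2 : |(j : ℝ)| ≤ ‖z - j‖ + ‖z‖ := by
    have : ((j : ℝ) : ℂ) = z - (z - j) := by push_cast; ring
    calc |(j : ℝ)| = ‖((j : ℝ) : ℂ)‖ := by simp
      _ = ‖z - (z - j)‖ := by rw [this]
      _ ≤ ‖z‖ + ‖z - j‖ := norm_sub_le _ _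
      _ = ‖z - j‖ + ‖z‖ := add_comm _ _
  have h3 : (j : ℝ) ^ 2 ≤ (‖z - j‖ + ‖z‖) ^ 2 := by
    rw [← sq_abs (j : ℝ)]
    exact pow_le_pow_left₀ (abs_nonneg _) h2 2
  have h4 : (‖z - j‖ + ‖z‖) ^ 2 ≤ 2 * ‖z - j‖ ^ 2 + 2 * ‖z‖ ^ 2 := by
    nlinarith [sq_nonneg (‖z - j‖ - ‖z‖)]
  have h5 : 0 ≤ ‖z - j‖ ^ 2 * ‖z‖ ^ 2 := by positivity
  nlinarith [sq_nonneg ‖z - j‖, sq_nonneg ‖z‖]

lemma summable_inv_one_add_sq : Summable (fun j : ℤ => 1 / (1 + (j : ℝ) ^ 2)) := by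
  have h1 : Summable (fun j : ℤ => 1 / (j : ℝ) ^ 2) :=
    Real.summable_one_div_int_pow.mpr (by norm_num)
  apply Summable.of_norm_bounded_eventually h1
  have : ∀ᶠ j : ℤ in cofinite, j ≠ 0 := (Set.finite_singleton (0 : ℤ)).compl_mem_cofinite
  filter_upwards [this] with j hj
  have hj' : (0 : ℝ) < (j : ℝ) ^ 2 := by
    have : (j : ℝ) ≠ 0 := by exact_mod_cast hj
    positivity
  rw [Real.norm_of_nonneg (by positivity)]
  apply one_div_le_one_div_of_le hj'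
  linarith

lemma Psi_differentiableOn {A : ℝ} {F : ℤ → ℂ → ℂ} (hF : LH A F) :
    DifferentiableOn ℂ (Psi F) Hp := by
  intro z hz
  set R := ‖z‖ + 1 with hR
  have hopen : IsOpen (Hp ∩ ball (0 : ℂ) R) := isOpen_Hp.inter isOpen_ball
  have hzmem : z ∈ Hp ∩ ball (0 : ℂ) R := ⟨hz, by simp [hR]⟩
  have h := Complex.differentiableOn_tsum_of_summable_norm
    (u := fun j : ℤ => A * (4 * (1 + R ^ 2) * (1 / (1 + (j : ℝ) ^ 2))))
    (F := fun (j : ℤ) (z : ℂ) => F j (z - j) * kap (z - j))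
    (U := Hp ∩ ball (0 : ℂ) R)
    ((summable_inv_one_add_sq.mul_left _).mul_left _)
    (by
      intro j
      have hsub : DifferentiableOn ℂ (fun z : ℂ => z - j) (Hp ∩ ball (0 : ℂ) R) :=
        (differentiable_id.sub_const _).differentiableOn
      have hm : MapsTo (fun z : ℂ => z - j) (Hp ∩ ball (0 : ℂ) R) Hp :=
        fun w hw => sub_int_mem_Hp hw.1 j
      exact ((hF.1 j).comp hsub hm).mul (kap_differentiableOn.comp hsub hm))
    hopen
    (by
      intro j w hw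
      refine (norm_term_le hF hw.1 j).trans ?_
      apply mul_le_mul_of_nonneg_left _ hF.nonneg
      refine (kap_bound_local hw.1 j).trans ?_
      have hw2 : ‖w‖ < R := by simpa using hw.2
      have : ‖w‖ ^ 2 ≤ R ^ 2 := pow_le_pow_left₀ (norm_nonneg _) hw2.le 2
      gcongr)
  exact (h.differentiableAt (hopen.mem_nhds hzmem)).differentiableWithinAt

lemma BH_Psi {A : ℝ} {F : ℤ → ℂ → ℂ} (hF : LH A F) : BH Hp (Psi F) :=
  ⟨Psi_differentiableOn hF, A, fun _ hz => norm_Psi_le hF hz⟩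

/-- near the integer `l`, `Ψ(F)` is close to `F_l(· - l)` -/
lemma norm_Psi_sub_le {A : ℝ} {F : ℤ → ℂ → ℂ} (hF : LH A F) {z : ℂ} (hz : z ∈ Hp) (l : ℤ) :
    ‖Psi F z - F l (z - l)‖ ≤ 8 * π * A * ‖z - l‖ := by
  classical
  have hs := summable_term hF hz
  have hsn := summable_norm_term hF hz
  have hk := summable_norm_kap hz
  have hA := hF.nonneg
  have h1 : Psi F z = F l (z - l) * kap (z - l) +
      ∑' j : ℤ, ite (j = l) 0 (F j (z - j) * kap (z - j)) := hs.tsum_eq_add_tsum_ite l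
  have h2 : ∑' n : ℤ, ‖kap (z - n)‖ = ‖kap (z - l)‖ +
      ∑' j : ℤ, ite (j = l) 0 (‖kap (z - j)‖) := hk.tsum_eq_add_tsum_ite l
  have hk' : Summable (fun j : ℤ => ite (j = l) 0 (‖kap (z - j)‖)) := by
    apply Summable.of_nonneg_of_le _ _ hk
    · intro j; split_ifs <;> positivity
    · intro j; split_ifs <;> simp
  have h3 : ‖∑' j : ℤ, ite (j = l) 0 (F j (z - j) * kap (z - j))‖ ≤
      A * ∑' j : ℤ, ite (j = l) 0 (‖kap (z - j)‖) := by
    rw [← tsum_mul_left]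
    apply tsum_of_norm_bounded (hk'.mul_left A).hasSum
    intro j
    split_ifs
    · simp
    · exact norm_term_le hF hz j
  have h4 := tsum_norm_kap_le_one hz
  have h5 : ∑' j : ℤ, ite (j = l) 0 (‖kap (z - j)‖) ≤ ‖1 - kap (z - l)‖ := by
    have h6 : (1 : ℝ) - ‖kap (z - l)‖ ≤ ‖1 - kap (z - l)‖ := by
      have := norm_sub_norm_le (1 : ℂ) (kap (z - l))
      rwa [norm_one] at this
    linarith
  have h7 := norm_one_sub_kap_le (sub_int_mem_Hp hz l)
  calc ‖Psi F z - F l (z - l)‖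
      = ‖-(F l (z - l) * (1 - kap (z - l))) +
          ∑' j : ℤ, ite (j = l) 0 (F j (z - j) * kap (z - j))‖ := by
        rw [h1]; congr 1; ring
    _ ≤ ‖F l (z - l) * (1 - kap (z - l))‖ +
          ‖∑' j : ℤ, ite (j = l) 0 (F j (z - j) * kap (z - j))‖ := by
        refine (norm_add_le _ _).trans ?_
        rw [norm_neg]
    _ ≤ A * ‖1 - kap (z - l)‖ + A * ‖1 - kap (z - l)‖ := by
        apply add_le_add
        · rw [norm_mul]
          exact mul_le_mul_of_nonneg_right (hF.2 l _ (sub_int_mem_Hp hz l)) (norm_nonneg _)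
        · exact h3.trans (mul_le_mul_of_nonneg_left h5 hA)
    _ = 2 * A * ‖1 - kap (z - l)‖ := by ring
    _ ≤ 2 * A * (4 * π * ‖z - l‖) := by gcongr
    _ = _ := by ring

end Pool.Agent.Lib.MP_264cca_an
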