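import Pool.Agent.Lib.MP_264cca_an.UltraLim

/-!
# A nonprincipal idempotent ultrafilter on `ℤ`
-/

open Set Topology Filter Metric

namespace Pool.Agent.Lib.MP_264cca_an

attribute [local instance] Ultrafilter.add Ultrafilter.addSemigroup

lemma exists_idempotent_aux : ∃ U : Ultrafilter ℕ+, U + U = U :=
  exists_idempotent_of_compact_t2_of_continuous_add_left Ultrafilter.continuous_add_left

theorem exists_recurrent : ∃ U : Ultrafilter ℤ, Tendsto (fun j : ℤ => j.natAbs) U atTop ∧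
    ∀ g, BH Hp g → ∀ z ∈ Hp, Phi U (Phi U g) z = Phi U g z := by
  obtain ⟨U₀, hU₀⟩ := exists_idempotent_aux
  have hev : ∀ p : ℕ+ → Prop, (∀ᶠ m in (U₀ : Filter ℕ+), p m) ↔
      ∀ᶠ m in (U₀ : Filter ℕ+), ∀ᶠ m' in (U₀ : Filter ℕ+), p (m + m') := by
    intro p
    have := Ultrafilter.eventually_add U₀ U₀ p
    rwa [hU₀] at this
  refine ⟨U₀.map (fun n : ℕ+ => ((n : ℕ) : ℤ)), ?_, ?_⟩
  · rw [Filter.tendsto_atTop]
    intro M
    rw [Ultrafilter.coe_map, Filter.eventually_map]
    by_contra hcon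
    rw [← Ultrafilter.eventually_not] at hcon
    have hfin : {n : ℕ+ | ¬ M ≤ (((n : ℕ) : ℤ)).natAbs}.Finite := by
      apply Set.Finite.of_injOn (f := fun n : ℕ+ => (n : ℕ)) (t := Iic M)
      · intro n hn
        simp only [mem_ofPred_eq, not_le, Int.natAbs_natCast] at hn
        exact hn.le
      · intro a _ b _ h
        exact PNat.coe_injective h
      · exact finite_Iic M
    obtain ⟨n, _, hn⟩ := Ultrafilter.eq_pure_of_finite_mem hfin hcon
    have h1 : ∀ᶠ m in (U₀ : Filter ℕ+), m = n := by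
      rw [hn]
      exact Ultrafilter.mem_pure.mpr rfl
    have h2 := (hev _).mp h1
    have h3 := (h1.and h2).exists
    obtain ⟨m, hm1, hm2⟩ := h3
    obtain ⟨m', hm3, hm4⟩ := (h1.and hm2).exists
    subst hm1
    rw [hm3] at hm4
    have h5 := congrArg (fun k : ℕ+ => (k : ℕ)) hm4
    simp only [PNat.add_coe] at h5
    have h6 := m.pos
    omega
  · intro g hg z hz
    set U := U₀.map (fun n : ℕ+ => ((n : ℕ) : ℤ)) with hU
    apply ulim_eq
    rw [Metric.tendsto_nhds]
    intro ε hε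
    have h1 : ∀ᶠ k : ℤ in (U : Filter ℤ), dist (g (z + (k : ℂ))) (Phi U g z) < ε / 2 :=
      (Metric.tendsto_nhds.mp (tendsto_Phi U hg hz)) (ε / 2) (by positivity)
    rw [hU, Ultrafilter.coe_map, Filter.eventually_map] at h1
    have h2 := (hev _).mp h1
    rw [hU, Ultrafilter.coe_map, Filter.eventually_map]
    filter_upwards [h2] with m hm
    have h3 : Tendsto (fun k : ℤ => dist (g (z + ((m : ℕ) : ℤ) + k)) (Phi U g z)) U
        (𝓝 (dist (Phi U g (z + ((m : ℕ) : ℤ))) (Phi U g z))) :=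
      (tendsto_Phi U hg (add_int_mem_Hp hz _)).dist tendsto_const_nhds
    have h4 : dist (Phi U g (z + ((m : ℕ) : ℤ))) (Phi U g z) ≤ ε / 2 := by
      apply le_of_tendsto h3
      rw [hU, Ultrafilter.coe_map, Filter.eventually_map]
      filter_upwards [hm] with m' hm'
      have e : z + (((m : ℕ) : ℤ) : ℂ) + (((m' : ℕ) : ℤ) : ℂ) =
          z + ((((m + m' : ℕ+) : ℕ) : ℤ) : ℂ) := by
        push_cast
        ring
      rw [e]
      exact hm'.le
    linarith

end Pool.Agent.Lib.MP_264cca_an
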