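import Pool.Agent.Lib.MP_264cca_an.CaseC

/-!
# Characters with `0 < |q| < 1` are ultrafilter limits of point evaluations along `z₀ + ℤ`
-/

open Set Topology Filter Metric
open scoped ComplexConjugate Real

namespace Pool.Agent.Lib.MP_264cca_an

/-- Schwarz's lemma in the upper half plane -/
lemma schwarz_Hp {g : ℂ → ℂ} (hd : DifferentiableOn ℂ g Hp) {A : ℝ} (hA : ∀ z ∈ Hp, ‖g z‖ ≤ A)
    {p : ℂ} (hp : p ∈ Hp) (h0 : g p = 0) {z : ℂ} (hz : z ∈ Hp) :
    ‖g z‖ ≤ A * (‖z - p‖ / ‖z - conj p‖) := by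
  have hpi : (0 : ℝ) < p.im := mem_Hp.mp hp
  have hpi' : (p.im : ℂ) ≠ 0 := by exact_mod_cast hpi.ne'
  -- `p = re + i im`
  have hpe : p = p.re + p.im * Complex.I := (Complex.re_add_im p).symm
  set h : ℂ → ℂ := fun ζ => g (p.im * ζ + p.re) with hh
  have hmaps : MapsTo (fun ζ : ℂ => (p.im : ℂ) * ζ + p.re) Hp Hp := by
    intro ζ hζ
    rw [mem_Hp] at *
    simp
    positivity
  have hhd : DifferentiableOn ℂ h Hp :=
    hd.comp (by fun_prop : Differentiable ℂ fun ζ : ℂ => (p.im : ℂ) * ζ + p.re).differentiableOn hmaps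
  have hI : h Complex.I = 0 := by
    rw [hh]
    simp only
    rw [add_comm, ← hpe, h0]
  set ζ : ℂ := (z - p.re) / p.im with hζ
  have hζz : (p.im : ℂ) * ζ + p.re = z := by rw [hζ]; field_simp; ring
  have hζH : ζ ∈ Hp := by
    rw [mem_Hp, hζ, ← Complex.ofReal_re p.im]
    have : ((z - p.re) / (p.im : ℂ)).im = z.im / p.im := by
      rw [Complex.div_ofReal_im]; simp
    simp only [Complex.ofReal_re]
    rw [this]
    exact div_pos (mem_Hp.mp hz) hpi
  have h1 := divw_spec h hζH
  have h2 := norm_divw_le hhd (C := A) (fun w hw => by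
    rw [hI, sub_zero]; exact hA _ (hmaps hw)) hζH
  have h3 : h ζ = g z := by rw [hh]; simp only; rw [hζz]
  rw [h3, hI, zero_add] at h1
  rw [h1, norm_mul, mul_comm]
  have h4 : ‖ww ζ‖ = ‖z - p‖ / ‖z - conj p‖ := by
    unfold ww
    rw [norm_div]
    have e1 : ζ - Complex.I = (z - p) / p.im := by
      rw [hζ]
      conv_rhs => rw [hpe]
      simp only [Complex.add_im, Complex.ofReal_im, Complex.mul_im, Complex.ofReal_re,
        Complex.I_im, mul_one, Complex.I_re, mul_zero, add_zero, zero_add]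
      field_simp
      ring
    have e2 : ζ + Complex.I = (z - conj p) / p.im := by
      have hc : conj p = p.re - p.im * Complex.I := by
        apply Complex.ext <;> simp
      rw [hζ, hc]
      field_simp
      ring
    rw [e1, e2, norm_div, norm_div]
    have : ‖(p.im : ℂ)‖ ≠ 0 := norm_ne_zero_iff.mpr hpi'
    field_simp
  rw [h4]
  exact mul_le_mul_of_nonneg_right h2 (by positivity)

lemma schwarz_ratio_lt_one {p z : ℂ} (hp : p ∈ Hp) (hz : z ∈ Hp) :
    ‖z - p‖ / ‖z - conj p‖ < 1 := by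
  have h1 : z - conj p ≠ 0 := by
    intro h
    have := congrArg Complex.im h
    simp at this
    have h2 := mem_Hp.mp hp
    have h3 := mem_Hp.mp hz
    linarith
  rw [div_lt_one (norm_pos_iff.mpr h1)]
  apply lt_of_pow_lt_pow_left₀ 2 (norm_nonneg _)
  rw [← Complex.normSq_eq_norm_sq, ← Complex.normSq_eq_norm_sq]
  simp only [Complex.normSq_apply, Complex.sub_re, Complex.sub_im, Complex.conj_re, Complex.conj_im]
  have h2 := mem_Hp.mp hp
  have h3 := mem_Hp.mp hz
  nlinarith [mul_pos h2 h3]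

/-! ### Division by `q - q(z₀)` -/

lemma qq_sub (z z₀ : ℂ) : qq (z - z₀) = qq z / qq z₀ := by
  unfold qq
  rw [mul_sub, Complex.exp_sub]

lemma qq_ne_zero (z : ℂ) : qq z ≠ 0 := Complex.exp_ne_zero _

lemma hasDerivAt_qq (z : ℂ) : HasDerivAt qq (2 * π * Complex.I * qq z) z := by
  have h := ((hasDerivAt_id z).const_mul (2 * π * Complex.I)).cexp
  simp only [id, mul_one] at h
  have e : 2 * π * Complex.I * qq z =
      Complex.exp (2 * π * Complex.I * z) * (2 * π * Complex.I) := by
    unfold qq; ring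
  rw [e]
  exact h

/-- lower bound for `q - q(z₀)` -/
lemma qq_sub_lower {z z₀ : ℂ} (h : ‖qq (z - z₀) - 1‖ ≤ 1 / 2) :
    ∃ l : ℤ, ‖qq z₀‖ * ‖z - (z₀ + l)‖ ≤ ‖qq z - qq z₀‖ := by
  obtain ⟨l, hl⟩ := exists_int_near h
  refine ⟨l, ?_⟩
  have h1 : qq z - qq z₀ = qq z₀ * (qq (z - z₀) - 1) := by
    rw [qq_sub]
    field_simp [qq_ne_zero z₀]
  rw [h1, norm_mul]
  apply mul_le_mul_of_nonneg_left _ (norm_nonneg _)
  have : z - (z₀ + l) = z - z₀ - l := by ring
  rw [this]
  exact hl

lemma div_qq {z₀ : ℂ} (hz₀ : z₀ ∈ Hp) {f : ℂ → ℂ} (hf : BH Hp f)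
    (h0 : ∀ j : ℤ, f (z₀ + j) = 0) :
    ∃ g, BH Hp g ∧ ∀ z ∈ Hp, f z = (qq z - qq z₀) * g z := by
  classical
  obtain ⟨A, hA⟩ := hf.2
  have hA0 : 0 ≤ A := (norm_nonneg _).trans (hA _ hz₀)
  set c := qq z₀ with hc
  have hc0 : c ≠ 0 := qq_ne_zero z₀
  have hc0' : 0 < ‖c‖ := norm_pos_iff.mpr hc0
  set g : ℂ → ℂ := fun z => if qq z = c then deriv f z / deriv qq z else f z / (qq z - c) with hg
  have hzeros : ∀ z ∈ Hp, qq z = c → ∃ l : ℤ, z = z₀ + l := by
    intro z _ hz
    have h1 : ‖qq (z - z₀) - 1‖ ≤ 1 / 2 := by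
      rw [qq_sub, hz, ← hc, div_self hc0]; simp
    obtain ⟨l, hl⟩ := qq_sub_lower h1
    refine ⟨l, ?_⟩
    rw [hz, ← hc, sub_self, norm_zero] at hl
    have h2 : ‖z - (z₀ + l)‖ ≤ 0 := by
      by_contra hlt
      push Not at hlt
      have := mul_pos hc0' hlt
      linarith
    exact sub_eq_zero.mp (norm_le_zero_iff.mp h2)
  have hdq : ∀ z, deriv qq z = 2 * π * Complex.I * qq z := fun z => (hasDerivAt_qq z).deriv
  have hdq0 : ∀ z, deriv qq z ≠ 0 := by
    intro z
    rw [hdq]
    simp [Real.pi_ne_zero, qq_ne_zero]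
  have hspec : ∀ z ∈ Hp, f z = (qq z - c) * g z := by
    intro z hz
    by_cases h : qq z = c
    · obtain ⟨l, hl⟩ := hzeros z hz h
      rw [h, sub_self, zero_mul, hl, h0 l]
    · have : qq z - c ≠ 0 := sub_ne_zero.mpr h
      rw [hg]
      simp only [h, if_false]
      field_simp
  have hgd : DifferentiableOn ℂ g Hp := by
    intro z hz
    apply DifferentiableAt.differentiableWithinAt
    by_cases h : qq z = c
    · -- removable singularity at `z`
      obtain ⟨l, hl⟩ := hzeros z hz h
      have hfz : f z = 0 := by rw [hl]; exact h0 l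
      have hloc : ∀ᶠ u in 𝓝 z, g u = dslope f z u / dslope qq z u := by
        have hcont : ContinuousAt (dslope qq z) z :=
          continuousAt_dslope_same.mpr qq_differentiable.differentiableAt
        have hne : ∀ᶠ u in 𝓝 z, dslope qq z u ≠ 0 := by
          apply hcont.eventually_ne
          rw [dslope_same]
          exact hdq0 z
        filter_upwards [hne] with u hu
        by_cases huz : u = z
        · subst huz
          rw [dslope_same, dslope_same, hg]
          simp [h]
        · have h1 : qq u - c = (u - z) * dslope qq z u := by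
            have := sub_smul_dslope qq z u
            rw [smul_eq_mul] at this
            rw [this, h]
          have h2 : f u = (u - z) * dslope f z u := by
            have := sub_smul_dslope f z u
            rw [smul_eq_mul, hfz, sub_zero] at this
            exact this.symm
          have h3 : u - z ≠ 0 := sub_ne_zero.mpr huz
          have h4 : qq u ≠ c := by
            intro h5
            have : qq u - c = 0 := sub_eq_zero.mpr h5
            rw [h1] at this
            rcases mul_eq_zero.mp this with h6 | h6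
            · exact h3 h6
            · exact hu h6
          rw [hg]
          simp only [h4, if_false]
          rw [h1, h2]
          field_simp
      have hdf : DifferentiableAt ℂ (dslope f z) z :=
        ((Complex.differentiableOn_dslope (isOpen_Hp.mem_nhds hz)).mpr hf.1).differentiableAt
          (isOpen_Hp.mem_nhds hz)
      have hdqq : DifferentiableAt ℂ (dslope qq z) z :=
        ((Complex.differentiableOn_dslope (isOpen_Hp.mem_nhds hz)).mpr
          qq_differentiable.differentiableOn).differentiableAt (isOpen_Hp.mem_nhds hz)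
      have : DifferentiableAt ℂ (fun u => dslope f z u / dslope qq z u) z := by
        apply hdf.div hdqq
        rw [dslope_same]
        exact hdq0 z
      exact this.congr_of_eventuallyEq hloc
    · have hloc : ∀ᶠ u in 𝓝 z, g u = f u / (qq u - c) := by
        have hne : ∀ᶠ u in 𝓝 z, qq u ≠ c :=
          qq_differentiable.continuous.continuousAt.eventually_ne h
        filter_upwards [hne] with u hu
        rw [hg]
        simp only [hu, if_false]
      have hfz : DifferentiableAt ℂ f z := hf.1.differentiableAt (isOpen_Hp.mem_nhds hz)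
      have : DifferentiableAt ℂ (fun u => f u / (qq u - c)) z :=
        hfz.div (qq_differentiable.differentiableAt.sub_const c) (sub_ne_zero.mpr h)
      exact this.congr_of_eventuallyEq hloc
  have hz₀i : 0 < z₀.im := mem_Hp.mp hz₀
  -- bound off the zeros
  have hbound : ∀ z ∈ Hp, qq z ≠ c → ‖g z‖ ≤ 2 * A / ‖c‖ + A / (‖c‖ * z₀.im) := by
    intro z hz h
    have hne : 0 < ‖qq z - c‖ := norm_pos_iff.mpr (sub_ne_zero.mpr h)
    have hgz : ‖g z‖ = ‖f z‖ / ‖qq z - c‖ := by
      rw [hg]; simp only [h, if_false]; rw [norm_div]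
    rw [hgz]
    rcases le_or_gt ‖qq (z - z₀) - 1‖ (1 / 2) with h1 | h1
    · obtain ⟨l, hl⟩ := qq_sub_lower h1
      have hp : z₀ + l ∈ Hp := add_int_mem_Hp hz₀ l
      have hs := schwarz_Hp hf.1 hA hp (h0 l) hz
      have hzp : 0 < ‖z - (z₀ + l)‖ := by
        rw [norm_pos_iff, sub_ne_zero]
        rintro rfl
        exact h (by rw [qq_add_int])
      have him : z₀.im ≤ ‖z - conj (z₀ + l)‖ := by
        have h2 := Complex.abs_im_le_norm (z - conj (z₀ + l))
        have h3 : (z - conj (z₀ + l)).im = z.im + z₀.im := by simp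
        rw [h3] at h2
        have h4 := mem_Hp.mp hz
        linarith [le_abs_self (z.im + z₀.im)]
      have h5 : ‖f z‖ / ‖qq z - c‖ ≤ A / (‖c‖ * z₀.im) := by
        rw [div_le_div_iff₀ hne (by positivity)]
        have hl' : ‖c‖ * ‖z - (z₀ + l)‖ ≤ ‖qq z - c‖ := hl
        have hcp : 0 < ‖z - conj (z₀ + l)‖ := lt_of_lt_of_le hz₀i him
        have hs' : ‖f z‖ * ‖z - conj (z₀ + l)‖ ≤ A * ‖z - (z₀ + l)‖ := by
          rw [← mul_div_assoc, le_div_iff₀ hcp] at hs
          exact hs
        calc ‖f z‖ * (‖c‖ * z₀.im) = ‖c‖ * (‖f z‖ * z₀.im) := by ring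
          _ ≤ ‖c‖ * (‖f z‖ * ‖z - conj (z₀ + l)‖) := by gcongr
          _ ≤ ‖c‖ * (A * ‖z - (z₀ + l)‖) := by gcongr
          _ = A * (‖c‖ * ‖z - (z₀ + l)‖) := by ring
          _ ≤ A * ‖qq z - c‖ := by gcongr
      have h6 : 0 ≤ 2 * A / ‖c‖ := by positivity
      linarith
    · have h2 : qq z - c = c * (qq (z - z₀) - 1) := by
        rw [qq_sub, ← hc]
        field_simp
      have h3 : ‖c‖ / 2 ≤ ‖qq z - c‖ := by
        rw [h2, norm_mul]
        nlinarith
      have h5 : ‖f z‖ / ‖qq z - c‖ ≤ 2 * A / ‖c‖ := by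
        rw [div_le_div_iff₀ hne hc0']
        have := hA z hz
        nlinarith [norm_nonneg (f z)]
      have h6 : 0 ≤ A / (‖c‖ * z₀.im) := by positivity
      linarith
  refine ⟨g, ⟨hgd, 2 * A / ‖c‖ + A / (‖c‖ * z₀.im), ?_⟩, hspec⟩
  intro z hz
  by_cases h : qq z = c
  · -- by continuity
    have hcont : ContinuousAt g z := (hgd.differentiableAt (isOpen_Hp.mem_nhds hz)).continuousAt
    have h1 : Tendsto (fun u => ‖g u‖) (𝓝[≠] z) (𝓝 ‖g z‖) :=
      hcont.norm.tendsto.mono_left nhdsWithin_le_nhds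
    apply le_of_tendsto h1
    have h2 : ∀ᶠ u in 𝓝[≠] z, u ∈ Hp := nhdsWithin_le_nhds (isOpen_Hp.mem_nhds hz)
    have h3 : ∀ᶠ u in 𝓝[≠] z, qq u ≠ c := by
      rw [← h]
      exact (hasDerivAt_qq z).eventually_ne (by simp [Real.pi_ne_zero, qq_ne_zero])
    filter_upwards [h2, h3] with u hu hu'
    exact hbound u hu hu'
  · exact hbound z hz h

end Pool.Agent.Lib.MP_264cca_an
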