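import Pool.Agent.Lib.MP_264cca_an.Interp

/-!
# Interpolation on `z₀ + ℤ` and the description of the set `0 < |q| < 1`
-/

open Set Topology Filter Metric
open scoped ComplexConjugate Real

namespace Pool.Agent.Lib.MP_264cca_an

/-- interpolating kernel at `z₀` -/
noncomputable def kk (z₀ z : ℂ) : ℂ := (dslope qq z₀ z / (2 * π * Complex.I * qq z₀)) ^ 2

lemma norm_dslope_qq_le {z₀ z : ℂ} (hz₀ : z₀ ∈ Hp) (hz : z ∈ Hp) :
    ‖dslope qq z₀ z‖ ≤ 2 * π ∧ ‖z - z₀‖ * ‖dslope qq z₀ z‖ ≤ 2 := by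
  have hpi := Real.pi_pos
  constructor
  · by_cases h : z = z₀
    · subst h
      rw [dslope_same, (hasDerivAt_qq z).deriv, norm_mul, norm_mul, norm_mul]
      simp only [Complex.norm_ofNat, Complex.norm_real, Real.norm_eq_abs, abs_of_pos hpi,
        Complex.norm_I, mul_one]
      have := (norm_qq_lt_one hz).le
      nlinarith
    · rw [dslope_of_ne _ h, slope_def_field, norm_div]
      rw [div_le_iff₀ (norm_pos_iff.mpr (sub_ne_zero.mpr h))]
      have hconv : Convex ℝ Hp := convex_halfSpace_im_gt 0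
      exact hconv.norm_image_sub_le_of_norm_hasDerivWithin_le
        (fun w _ => (hasDerivAt_qq w).hasDerivWithinAt)
        (fun w hw => by
          rw [norm_mul, norm_mul, norm_mul]
          simp only [Complex.norm_ofNat, Complex.norm_real, Real.norm_eq_abs, abs_of_pos hpi,
            Complex.norm_I, mul_one]
          have := (norm_qq_lt_one hw).le
          nlinarith) hz₀ hz
  · have h := sub_smul_dslope qq z₀ z
    rw [← norm_smul, h]
    calc ‖qq z - qq z₀‖ ≤ 1 + 1 :=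
          (norm_sub_le _ _).trans (add_le_add (norm_qq_lt_one hz).le (norm_qq_lt_one hz₀).le)
      _ = 2 := by norm_num

lemma norm_kk_le {z₀ z : ℂ} (hz₀ : z₀ ∈ Hp) (hz : z ∈ Hp) :
    ‖kk z₀ z‖ ≤ (2 / ‖qq z₀‖ ^ 2) * (1 / (1 + ‖z - z₀‖ ^ 2)) := by
  obtain ⟨h1, h2⟩ := norm_dslope_qq_le hz₀ hz
  have hpi := Real.pi_gt_three
  have hc : 0 < ‖qq z₀‖ := norm_pos_iff.mpr (qq_ne_zero z₀)
  set D := ‖dslope qq z₀ z‖ with hD
  set r := ‖z - z₀‖ with hr
  have hD0 : 0 ≤ D := norm_nonneg _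
  have hr0 : 0 ≤ r := norm_nonneg _
  have hden : ‖2 * π * Complex.I * qq z₀‖ = 2 * π * ‖qq z₀‖ := by
    rw [norm_mul, norm_mul, norm_mul]
    simp [abs_of_pos Real.pi_pos]
  unfold kk
  rw [norm_pow, norm_div, hden, ← hD]
  have h3 : D ^ 2 * (1 + r ^ 2) ≤ 2 * (2 * π) ^ 2 := by
    have h4 : D ^ 2 ≤ (2 * π) ^ 2 := pow_le_pow_left₀ hD0 h1 2
    have h5 : (r * D) ^ 2 ≤ 2 ^ 2 := pow_le_pow_left₀ (by positivity) h2 2
    nlinarith
  rw [div_pow, mul_pow, div_mul_div_comm, mul_one, div_le_div_iff₀ (by positivity) (by positivity)]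
  calc D ^ 2 * (‖qq z₀‖ ^ 2 * (1 + r ^ 2)) = (D ^ 2 * (1 + r ^ 2)) * ‖qq z₀‖ ^ 2 := by ring
    _ ≤ (2 * (2 * π) ^ 2) * ‖qq z₀‖ ^ 2 := by gcongr
    _ = 2 * ((2 * π) ^ 2 * ‖qq z₀‖ ^ 2) := by ring

lemma kk_self (z₀ : ℂ) : kk z₀ z₀ = 1 := by
  unfold kk
  rw [dslope_same, (hasDerivAt_qq z₀).deriv, div_self, one_pow]
  simp [Real.pi_ne_zero, qq_ne_zero]

lemma kk_add_int (z₀ : ℂ) {m : ℤ} (hm : m ≠ 0) : kk z₀ (z₀ + m) = 0 := by
  unfold kk
  have h : z₀ + m ≠ z₀ := by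
    intro h
    have : (m : ℂ) = 0 := by linear_combination h
    exact hm (by exact_mod_cast this)
  rw [dslope_of_ne _ h, slope_def_field, qq_add_int, sub_self, zero_div, zero_div]
  simp

lemma kk_differentiable (z₀ : ℂ) : Differentiable ℂ (kk z₀) := by
  have h : Differentiable ℂ (dslope qq z₀) := by
    rw [← differentiableOn_univ, Complex.differentiableOn_dslope univ_mem, differentiableOn_univ]
    exact qq_differentiable
  unfold kk
  exact (h.div_const _).pow 2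

lemma summable_one_div_one_add_sq_shift (x : ℝ) :
    Summable (fun j : ℤ => 1 / (1 + (x - j) ^ 2)) ∧
      ∑' j : ℤ, 1 / (1 + (x - j) ^ 2) ≤ 4 * ∑' j : ℤ, 1 / (1 + (j : ℝ) ^ 2) := by
  set n : ℤ := round x with hn
  have hxn : |x - n| ≤ 1 / 2 := abs_sub_round x
  have hle : ∀ j : ℤ, 1 / (1 + (x - j) ^ 2) ≤ 4 * (1 / (1 + ((j - n : ℤ) : ℝ) ^ 2)) := by
    intro j
    rw [mul_one_div, div_le_div_iff₀ (by positivity) (by positivity)]
    push_cast
    set t := x - n with ht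
    have h1 : x - j = t - (j - n) := by rw [ht]; ring
    rw [h1]
    set m : ℝ := (j : ℝ) - n with hm
    have h2 : |t| ≤ 1 / 2 := hxn
    have h3 := abs_le.mp h2
    nlinarith [sq_nonneg (m - 1), sq_nonneg (m + 1), sq_nonneg t, abs_le.mp h2,
      mul_nonneg (sub_nonneg.mpr h3.2) (sq_nonneg m), sq_nonneg (m - 2 * t), sq_nonneg (m - 4/3*t)]
  have hs : Summable (fun j : ℤ => 4 * (1 / (1 + ((j - n : ℤ) : ℝ) ^ 2))) := by
    apply Summable.mul_left
    exact (Equiv.subRight n).summable_iff.mpr summable_inv_one_add_sq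
  have hs' : Summable (fun j : ℤ => 1 / (1 + (x - j) ^ 2)) :=
    Summable.of_nonneg_of_le (fun j => by positivity) hle hs
  refine ⟨hs', ?_⟩
  calc ∑' j : ℤ, 1 / (1 + (x - j) ^ 2) ≤ ∑' j : ℤ, 4 * (1 / (1 + ((j - n : ℤ) : ℝ) ^ 2)) :=
        hs'.tsum_le_tsum hle hs
    _ = 4 * ∑' j : ℤ, 1 / (1 + ((j - n : ℤ) : ℝ) ^ 2) := tsum_mul_left
    _ = 4 * ∑' j : ℤ, 1 / (1 + (j : ℝ) ^ 2) := by
        congr 1
        exact (Equiv.subRight n).tsum_eq (fun j : ℤ => 1 / (1 + (j : ℝ) ^ 2))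

lemma re_sub_sq_le (z : ℂ) (j : ℤ) : (z.re - j) ^ 2 ≤ ‖z - j‖ ^ 2 := by
  have h : |(z - j).re| ≤ ‖z - j‖ := Complex.abs_re_le_norm _
  have h2 : (z - j).re = z.re - j := by simp
  rw [h2] at h
  rw [← sq_abs]
  exact pow_le_pow_left₀ (abs_nonneg _) h 2

/-- interpolating function -/
noncomputable def IntS (z₀ : ℂ) (a : ℤ → ℂ) (z : ℂ) : ℂ := ∑' j : ℤ, a j * kk z₀ (z - j)

lemma norm_kk_sub_le {z₀ z : ℂ} (hz₀ : z₀ ∈ Hp) (hz : z ∈ Hp) (j : ℤ) :
    ‖kk z₀ (z - j)‖ ≤ (2 / ‖qq z₀‖ ^ 2) * (1 / (1 + ((z - z₀).re - j) ^ 2)) := by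
  refine (norm_kk_le hz₀ (sub_int_mem_Hp hz j)).trans ?_
  have h1 : z - j - z₀ = (z - z₀) - j := by ring
  rw [h1]
  have h2 := re_sub_sq_le (z - z₀) j
  gcongr

lemma summable_IntS_norm {z₀ z : ℂ} (hz₀ : z₀ ∈ Hp) (hz : z ∈ Hp) {a : ℤ → ℂ} {A : ℝ}
    (ha : ∀ j, ‖a j‖ ≤ A) : Summable (fun j : ℤ => ‖a j * kk z₀ (z - j)‖) ∧
      ∑' j : ℤ, ‖a j * kk z₀ (z - j)‖ ≤
        A * ((2 / ‖qq z₀‖ ^ 2) * (4 * ∑' j : ℤ, 1 / (1 + (j : ℝ) ^ 2))) := by
  have hA0 : 0 ≤ A := (norm_nonneg _).trans (ha 0)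
  obtain ⟨h1, h2⟩ := summable_one_div_one_add_sq_shift (z - z₀).re
  have hle : ∀ j : ℤ, ‖a j * kk z₀ (z - j)‖ ≤
      A * ((2 / ‖qq z₀‖ ^ 2) * (1 / (1 + ((z - z₀).re - j) ^ 2))) := by
    intro j
    rw [norm_mul]
    exact mul_le_mul (ha j) (norm_kk_sub_le hz₀ hz j) (norm_nonneg _) hA0
  have hs : Summable (fun j : ℤ =>
      A * ((2 / ‖qq z₀‖ ^ 2) * (1 / (1 + ((z - z₀).re - j) ^ 2)))) :=
    (h1.mul_left _).mul_left _
  have hs' := Summable.of_nonneg_of_le (fun j => norm_nonneg _) hle hs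
  refine ⟨hs', ?_⟩
  calc ∑' j : ℤ, ‖a j * kk z₀ (z - j)‖
      ≤ ∑' j : ℤ, A * ((2 / ‖qq z₀‖ ^ 2) * (1 / (1 + ((z - z₀).re - j) ^ 2))) :=
        hs'.tsum_le_tsum hle hs
    _ = A * ((2 / ‖qq z₀‖ ^ 2) * ∑' j : ℤ, (1 / (1 + ((z - z₀).re - j) ^ 2))) := by
        rw [tsum_mul_left, tsum_mul_left]
    _ ≤ _ := by gcongr

lemma BH_IntS {z₀ : ℂ} (hz₀ : z₀ ∈ Hp) {a : ℤ → ℂ} {A : ℝ} (ha : ∀ j, ‖a j‖ ≤ A) :
    BH Hp (IntS z₀ a) := by
  have hA0 : 0 ≤ A := (norm_nonneg _).trans (ha 0)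
  refine ⟨?_, A * ((2 / ‖qq z₀‖ ^ 2) * (4 * ∑' j : ℤ, 1 / (1 + (j : ℝ) ^ 2))), fun z hz => ?_⟩
  · intro z hz
    set R := ‖z‖ + 1 with hR
    have hopen : IsOpen (Hp ∩ ball (0 : ℂ) R) := isOpen_Hp.inter isOpen_ball
    have hzmem : z ∈ Hp ∩ ball (0 : ℂ) R := ⟨hz, by simp [hR]⟩
    set R' := R + ‖z₀‖ with hR'
    have h := Complex.differentiableOn_tsum_of_summable_norm
      (u := fun j : ℤ => A * ((2 / ‖qq z₀‖ ^ 2) * (2 * (1 + R' ^ 2) * (1 / (1 + (j : ℝ) ^ 2)))))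
      (F := fun (j : ℤ) (z : ℂ) => a j * kk z₀ (z - j))
      (U := Hp ∩ ball (0 : ℂ) R)
      (((summable_inv_one_add_sq.mul_left _).mul_left _).mul_left _)
      (by
        intro j
        have hsub : Differentiable ℂ (fun z : ℂ => z - j) := differentiable_id.sub_const _
        exact (((kk_differentiable z₀).comp hsub).const_mul _).differentiableOn)
      hopen
      (by
        intro j w hw
        rw [norm_mul]
        refine mul_le_mul (ha j) ?_ (norm_nonneg _) hA0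
        refine (norm_kk_sub_le hz₀ hw.1 j).trans ?_
        apply mul_le_mul_of_nonneg_left _ (by positivity)
        rw [mul_one_div, div_le_div_iff₀ (by positivity) (by positivity)]
        have hw2 : ‖w‖ < R := by simpa using hw.2
        have h1 : |(w - z₀).re| ≤ R' := by
          refine (Complex.abs_re_le_norm _).trans ?_
          refine (norm_sub_le _ _).trans ?_
          rw [hR']; linarith
        set x := (w - z₀).re with hx
        have h2 : x ^ 2 ≤ R' ^ 2 := by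
          rw [← sq_abs]
          exact pow_le_pow_left₀ (abs_nonneg _) h1 2
        have h3 : (j : ℝ) ^ 2 ≤ 2 * (x - j) ^ 2 + 2 * x ^ 2 := by
          nlinarith [sq_nonneg (x - j - x), sq_nonneg (x - j + x)]
        nlinarith [sq_nonneg (x - j), mul_nonneg (sq_nonneg (x - j)) (sq_nonneg R')])
    exact (h.differentiableAt (hopen.mem_nhds hzmem)).differentiableWithinAt
  · obtain ⟨h1, h2⟩ := summable_IntS_norm hz₀ hz ha
    exact (norm_tsum_le_tsum_norm h1).trans h2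

lemma IntS_apply (z₀ : ℂ) (a : ℤ → ℂ) (l : ℤ) : IntS z₀ a (z₀ + l) = a l := by
  unfold IntS
  rw [tsum_eq_single l]
  · have : z₀ + l - l = z₀ := by ring
    rw [this, kk_self, mul_one]
  · intro j hj
    have h1 : z₀ + l - j = z₀ + ((l - j : ℤ) : ℂ) := by push_cast; ring
    rw [h1, kk_add_int z₀ (sub_ne_zero.mpr (Ne.symm hj)), mul_zero]

/-- on the fibre `q = q(z₀)`, `x(f)` depends only on the values `f(z₀+j)` -/
lemma ap_eq_of_values {x : MaxSpace Hp} {z₀ : ℂ} (hz₀ : z₀ ∈ Hp) (hx : ap x qq = qq z₀)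
    {f g : ℂ → ℂ} (hf : BH Hp f) (hg : BH Hp g) (h : ∀ j : ℤ, f (z₀ + j) = g (z₀ + j)) :
    ap x f = ap x g := by
  obtain ⟨k, hk, hfk⟩ := div_qq hz₀ (hf.sub hg) (fun j => sub_eq_zero.mpr (h j))
  have h1 : ap x (fun z => f z - g z) = 0 := by
    rw [ap_congr x ((BH_qq.sub (BH.const (qq z₀))).mul hk) hfk,
      ap_mul x (BH_qq.sub (BH.const (qq z₀))) hk, ap_sub x BH_qq (BH.const (qq z₀)), hx, ap_const,
      sub_self, zero_mul]
  rw [ap_sub x hf hg] at h1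
  exact sub_eq_zero.mp h1

/-- **Claim 1.** -/
theorem exists_ultrafilter_of_q {x : MaxSpace Hp} (h0 : ap x qq ≠ 0) (h1 : ‖ap x qq‖ < 1) :
    ∃ z₀ ∈ Hp, ∃ V : Ultrafilter ℤ, ∀ f, BH Hp f → ap x f = Phi V f z₀ := by
  classical
  -- choose `z₀`
  obtain ⟨z₀, hz₀, hx⟩ : ∃ z₀ ∈ Hp, ap x qq = qq z₀ := by
    set c := ap x qq with hc
    set z₀ := Complex.log c / (2 * π * Complex.I) with hz
    have hne : (2 * π * Complex.I : ℂ) ≠ 0 := by simp [Real.pi_ne_zero]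
    have hq : qq z₀ = c := by
      unfold qq
      rw [hz, mul_div_cancel₀ _ hne, Complex.exp_log h0]
    refine ⟨z₀, ?_, hq.symm⟩
    rw [mem_Hp]
    by_contra hle
    push Not at hle
    have h2 := norm_qq z₀
    rw [hq] at h2
    rw [h2, Real.exp_lt_one_iff] at h1
    have := Real.pi_pos
    nlinarith
  refine ⟨z₀, hz₀, ?_⟩
  -- indicator sequences
  let e : Set ℤ → ℤ → ℂ := fun J j => if j ∈ J then 1 else 0
  have he : ∀ J j, ‖e J j‖ ≤ 1 := by
    intro J j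
    by_cases h : j ∈ J <;> simp [e, h]
  have hE : ∀ J, BH Hp (IntS z₀ (e J)) := fun J => BH_IntS hz₀ (he J)
  have hmul : ∀ J K, ap x (IntS z₀ (e J)) * ap x (IntS z₀ (e K)) = ap x (IntS z₀ (e (J ∩ K))) := by
    intro J K
    rw [← ap_mul x (hE J) (hE K)]
    apply ap_eq_of_values hz₀ hx ((hE J).mul (hE K)) (hE _)
    intro j
    rw [IntS_apply, IntS_apply, IntS_apply]
    by_cases h1 : j ∈ J <;> by_cases h2 : j ∈ K <;> simp [e, h1, h2]
  have hadd : ∀ J, ap x (IntS z₀ (e J)) + ap x (IntS z₀ (e Jᶜ)) = 1 := by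
    intro J
    rw [← ap_add x (hE J) (hE Jᶜ), ← ap_const x 1]
    apply ap_eq_of_values hz₀ hx ((hE J).add (hE Jᶜ)) (BH.const 1)
    intro j
    rw [IntS_apply, IntS_apply]
    by_cases h1 : j ∈ J <;> simp [e, h1]
  have huniv : ap x (IntS z₀ (e univ)) = 1 := by
    rw [← ap_const x 1]
    apply ap_eq_of_values hz₀ hx (hE _) (BH.const 1)
    intro j
    rw [IntS_apply]; simp [e]
  have h01 : ∀ J, ap x (IntS z₀ (e J)) = 0 ∨ ap x (IntS z₀ (e J)) = 1 := by
    intro J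
    have h2 := hmul J J
    rw [inter_self] at h2
    have h3 : ap x (IntS z₀ (e J)) * (ap x (IntS z₀ (e J)) - 1) = 0 := by
      rw [mul_sub, h2, mul_one, sub_self]
    rcases mul_eq_zero.mp h3 with h | h
    · left; exact h
    · right; exact sub_eq_zero.mp h
  let 𝒱 : Filter ℤ :=
    { sets := {J | ap x (IntS z₀ (e J)) = 1}
      univ_sets := huniv
      sets_of_superset := by
        intro J K hJ hJK
        have h2 := hmul J K
        rw [inter_eq_self_of_subset_left hJK] at h2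
        have hJ' : ap x (IntS z₀ (e J)) = 1 := hJ
        rw [hJ', one_mul] at h2
        exact h2
      inter_sets := by
        intro J K hJ hK
        have h2 := hmul J K
        have hJ' : ap x (IntS z₀ (e J)) = 1 := hJ
        have hK' : ap x (IntS z₀ (e K)) = 1 := hK
        rw [hJ', hK', one_mul] at h2
        exact h2.symm }
  have hmem : ∀ J, J ∈ 𝒱 ↔ ap x (IntS z₀ (e J)) = 1 := fun J => Iff.rfl
  let V : Ultrafilter ℤ := Ultrafilter.ofComplNotMemIff 𝒱 (by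
    intro J
    rw [hmem, hmem]
    have h2 := hadd J
    constructor
    · intro h3
      rcases h01 Jᶜ with h4 | h4
      · rw [h4, add_zero] at h2; exact h2
      · exact absurd h4 h3
    · intro h3 h4
      rw [h3, h4] at h2
      norm_num at h2)
  refine ⟨V, fun f hf => ?_⟩
  symm
  apply ulim_eq
  rw [Metric.tendsto_nhds]
  intro ε hε
  set α := ap x f with hα
  set J : Set ℤ := {j | dist (f (z₀ + j)) α < ε} with hJ
  by_contra hnot
  have hJc : Jᶜ ∈ V := Ultrafilter.compl_mem_iff_notMem.mpr hnot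
  have hJc' : ap x (IntS z₀ (e Jᶜ)) = 1 := hJc
  let a : ℤ → ℂ := fun j => if j ∈ J then 0 else (f (z₀ + j) - α)⁻¹
  have ha : ∀ j, ‖a j‖ ≤ 1 / ε := by
    intro j
    by_cases h : j ∈ J
    · simp only [a, h, if_true, norm_zero]; positivity
    · simp only [a, h, if_false, norm_inv]
      have h2 : ε ≤ ‖f (z₀ + j) - α‖ := by
        rw [← dist_eq_norm]
        exact not_lt.mp h
      rw [one_div]
      exact inv_anti₀ hε h2
  have hIa := BH_IntS hz₀ ha
  have h3 : ap x (fun z => (f z - α) * IntS z₀ a z) = ap x (IntS z₀ (e Jᶜ)) := by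
    apply ap_eq_of_values hz₀ hx ((hf.sub (BH.const α)).mul hIa) (hE _)
    intro j
    rw [IntS_apply, IntS_apply]
    by_cases h : j ∈ J
    · simp [a, e, h]
    · simp only [a, e, h, if_false, mem_compl_iff, not_false_eq_true, if_true]
      apply mul_inv_cancel₀
      intro h4
      apply h
      rw [hJ]
      show dist (f (z₀ + j)) α < ε
      rw [dist_eq_norm, h4, norm_zero]
      exact hε
  rw [ap_mul x (hf.sub (BH.const α)) hIa, ap_sub x hf (BH.const α), ap_const, ← hα, sub_self,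
    zero_mul, hJc'] at h3
  exact zero_ne_one h3

end Pool.Agent.Lib.MP_264cca_an
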