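import Pool.Agent.Lib.MP_264cca_an.BasePt
import Pool.Agent.Lib.MP_264cca_an.CaseA
import Pool.Agent.Lib.MP_264cca_an.Idempotent

/-!
# The counterexample: first on the half plane, then on the disc
-/

open Set Topology Filter Metric
open scoped ComplexConjugate Real

namespace Pool.Agent.Lib.MP_264cca_an

/-- the counterexample on the upper half plane -/
theorem main_Hp : ∃ y : MaxSpace Hp, part y = {y} ∧
    ∀ x₀ : MaxSpace Hp, (¬ ∃ m, part x₀ = {m}) → y ∉ shilov (part x₀) := by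
  obtain ⟨v, hv⟩ := exists_basePoint
  obtain ⟨U, hnp, hrec⟩ := exists_recurrent
  have hyq : ap (compPhi U v) qq = 1 := by rw [ap_compPhi_qq, ap_qq_of_over hv.1]
  have htriv : part (compPhi U v) = {compPhi U v} := by
    apply Subset.antisymm
    · intro x hx
      have h1 := mem_part_symm hx
      obtain ⟨ρ, hρ, hn⟩ := mem_part_iff.mp hx
      have h2 : ap x qq = ap (compPhi U v) qq :=
        hn.eq_of_norm_eq_one hρ BH_qq.1 (fun z hz => (norm_qq_lt_one hz).le) (by rw [hyq, norm_one])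
      have h3 : ‖ap x qq‖ = 1 := by rw [h2, hyq, norm_one]
      exact eq_of_mem_closure_part hv hnp (subset_closure h1) h3
    · rintro x rfl
      exact self_mem_part _
  refine ⟨compPhi U v, htriv, fun x₀ hx₀ hmem => ?_⟩
  have hcl : compPhi U v ∈ closure (part x₀) :=
    shilov_subset_closure ⟨x₀, self_mem_part x₀⟩ hmem
  have hq1 : ‖ap x₀ qq‖ ≤ 1 := ap_norm_le x₀ BH_qq.1 (fun z hz => (norm_qq_lt_one hz).le)
  rcases lt_or_eq_of_le hq1 with hlt | heq
  · by_cases h0 : ap x₀ qq = 0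
    · exact notMem_closure_of_q_zero hv.1 h0 hcl
    · exact notMem_shilov_of_q hv.1 hnp hrec h0 hlt hmem
  · have := eq_of_mem_closure_part hv hnp hcl heq
    exact hx₀ ⟨compPhi U v, by rw [this, htriv]⟩

/-! ### transport along a biholomorphism -/

/-- composition with an analytic map -/
noncomputable def pull {Ω₁ Ω₂ : Set ℂ} (φ : ℂ → ℂ) (hd : DifferentiableOn ℂ φ Ω₁)
    (hm : MapsTo φ Ω₁ Ω₂) : Hinf Ω₂ →ₐ[ℂ] Hinf Ω₁ where
  toFun f := ⟨fun z => (f : Ω₂ → ℂ) ⟨φ z, hm z.2⟩, by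
    obtain ⟨⟨g, hg, hfg⟩, C, hC⟩ := f.2
    exact ⟨⟨fun z => g (φ z), hg.comp hd hm, fun z => hfg _⟩, C, fun z => hC _⟩⟩
  map_one' := rfl
  map_mul' _ _ := rfl
  map_zero' := rfl
  map_add' _ _ := rfl
  commutes' _ := rfl

section transport

variable {Ω₁ Ω₂ : Set ℂ} {φ ψ : ℂ → ℂ} (hφd : DifferentiableOn ℂ φ Ω₁) (hφ : MapsTo φ Ω₁ Ω₂)
  (hψd : DifferentiableOn ℂ ψ Ω₂) (hψ : MapsTo ψ Ω₂ Ω₁) (h₁ : ∀ z ∈ Ω₁, ψ (φ z) = z)
  (h₂ : ∀ z ∈ Ω₂, φ (ψ z) = z)

lemma pull_apply (f : Hinf Ω₂) (z : Ω₁) :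
    ((pull φ hφd hφ f : Hinf Ω₁) : Ω₁ → ℂ) z = (f : Ω₂ → ℂ) ⟨φ z, hφ z.2⟩ := rfl

include h₁ in
lemma pull_pull (f : Hinf Ω₁) : pull φ hφd hφ (pull ψ hψd hψ f) = f := by
  apply Subtype.ext
  funext z
  rw [pull_apply, pull_apply]
  have h : (⟨ψ (φ z), hψ (hφ z.2)⟩ : Ω₁) = z := Subtype.ext (h₁ z z.2)
  exact congrArg (f : Ω₁ → ℂ) h

/-- the induced map on characters -/
noncomputable def push (x : MaxSpace Ω₁) : MaxSpace Ω₂ := x.comp (pull φ hφd hφ)

lemma push_apply (x : MaxSpace Ω₁) (f : Hinf Ω₂) :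
    push hφd hφ x f = x (pull φ hφd hφ f) := rfl

include h₁ h₂ in
/-- the induced homeomorphism of the maximal ideal spaces -/
noncomputable def pushHomeo : MaxSpace Ω₁ ≃ₜ MaxSpace Ω₂ where
  toFun := push hφd hφ
  invFun := push hψd hψ
  left_inv x := by
    apply AlgHom.ext
    intro f
    rw [push_apply, push_apply, pull_pull hφd hφ hψd hψ h₁]
  right_inv x := by
    apply AlgHom.ext
    intro f
    rw [push_apply, push_apply, pull_pull hψd hψ hφd hφ h₂]
  continuous_toFun := continuous_induced_rng.mpr (continuous_pi fun f => continuous_eval _)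
  continuous_invFun := continuous_induced_rng.mpr (continuous_pi fun f => continuous_eval _)

include hψd hψ h₁ in
lemma rho_push_le (x y : MaxSpace Ω₁) : rho x y ≤ rho (push hφd hφ x) (push hφd hφ y) := by
  apply rho_le
  intro g hd hg h0
  have hB : BH Ω₁ g := ⟨hd, 1, hg⟩
  have hB2 : BH Ω₂ (fun z => g (ψ z)) := ⟨hd.comp hψd hψ, 1, fun z hz => hg _ (hψ hz)⟩
  have e : ∀ w : MaxSpace Ω₁, ap (push hφd hφ w) (fun z => g (ψ z)) = ap w g := by
    intro w
    rw [ap_eq _ hB2, ap_eq _ hB, push_apply]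
    congr 1
    apply Subtype.ext
    funext z
    exact congrArg g (h₁ z z.2)
  rw [← e y]
  apply le_rho _ _ hB2.1 (fun z hz => hg _ (hψ hz))
  rw [e x, h0]

end transport

section transport2

variable {Ω₁ Ω₂ : Set ℂ} (e : MaxSpace Ω₁ ≃ₜ MaxSpace Ω₂)

lemma part_image (he : ∀ x y, rho (e x) (e y) = rho x y) (x : MaxSpace Ω₁) :
    part (e x) = e '' part x := by
  ext y
  constructor
  · intro hy
    refine ⟨e.symm y, ?_, e.apply_symm_apply y⟩
    show rho x (e.symm y) < 1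
    rw [← he, e.apply_symm_apply]
    exact hy
  · rintro ⟨y, hy, rfl⟩
    show rho (e x) (e y) < 1
    rw [he]
    exact hy

lemma isClosedBoundary_image (A : Hinf Ω₂ → Hinf Ω₁) (hA : ∀ x f, e x f = x (A f))
    {P E : Set (MaxSpace Ω₁)} (h : IsClosedBoundary P E) :
    IsClosedBoundary (e '' P) (e '' E) := by
  obtain ⟨h1, h2, h3⟩ := h
  refine ⟨e.isClosedMap _ h1, ?_, fun f => ?_⟩
  · rw [← e.image_closure]
    exact image_mono h2
  · obtain ⟨y, hy, hmax⟩ := h3 (A f)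
    refine ⟨e y, ⟨y, hy, rfl⟩, ?_⟩
    rw [← e.image_closure]
    rintro _ ⟨x, hx, rfl⟩
    rw [hA, hA]
    exact hmax x hx

end transport2

/-- the counterexample on the unit disc -/
theorem main_disc : ∃ m : MaxSpace (ball (0 : ℂ) 1), part m = {m} ∧
    ∀ P : Set (MaxSpace (ball (0 : ℂ) 1)), IsNontrivialPart P → m ∉ shilov P := by
  obtain ⟨y, hy, hP⟩ := main_Hp
  have hc : MapsTo cc (ball 0 1) Hp := fun _ h => cc_mem_Hp h
  have h1 : ∀ z ∈ Hp, cc (ww z) = z := fun z hz => cc_ww hz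
  have h2 : ∀ z ∈ ball (0 : ℂ) 1, ww (cc z) = z := fun z hz => ww_cc hz
  set e : MaxSpace Hp ≃ₜ MaxSpace (ball (0 : ℂ) 1) :=
    pushHomeo ww_differentiableOn ww_mapsTo cc_differentiableOn hc h1 h2 with he
  have hrho : ∀ x x' : MaxSpace Hp, rho (e x) (e x') = rho x x' := by
    intro x x'
    apply le_antisymm
    · have := rho_push_le cc_differentiableOn hc ww_differentiableOn ww_mapsTo h2 (e x) (e x')
      have e1 : ∀ w : MaxSpace Hp, push cc_differentiableOn hc (e w) = w := fun w =>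
        e.symm_apply_apply w
      rwa [e1, e1] at this
    · exact rho_push_le ww_differentiableOn ww_mapsTo cc_differentiableOn hc h1 x x'
  refine ⟨e y, ?_, ?_⟩
  · rw [part_image e hrho, hy, image_singleton]
  · rintro P ⟨⟨m, rfl⟩, hnt⟩ hmem
    set x₀ := e.symm m with hx₀
    have hm : m = e x₀ := (e.apply_symm_apply m).symm
    rw [hm, part_image e hrho] at hmem hnt
    have hnt' : ¬ ∃ m, part x₀ = {m} := by
      rintro ⟨m', hm'⟩
      exact hnt ⟨e m', by rw [hm', image_singleton]⟩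
    apply hP x₀ hnt'
    intro E hE
    have h3 := hmem _ (isClosedBoundary_image e (pull ww ww_differentiableOn ww_mapsTo)
      (fun x f => rfl) hE)
    obtain ⟨y', hy', hyy⟩ := h3
    rwa [e.injective hyy] at hy'

end Pool.Agent.Lib.MP_264cca_an
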