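import Pool.Agent.Lib.MP_264cca_an.Basic

/-!
# The state space of `H^∞|_P` and its extreme points

Every extreme point of the state space (and of its faces `φ(q) = 1`) is a point of every closed
boundary, hence of the Shilov boundary, and is determined by one-sided Harnack domination.
-/

open Set Topology Filter
open scoped ComplexConjugate

namespace Pool.Agent.Lib.MP_264cca_an

variable {Ω : Set ℂ}

/-- nonnegative real part on `clos P` -/
def PosOn (P : Set (MaxSpace Ω)) (f : Hinf Ω) : Prop := ∀ x ∈ closure P, 0 ≤ (x f).re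

/-- the state space of `H^∞|_P` -/
def States (P : Set (MaxSpace Ω)) : Set (Hinf Ω → ℂ) :=
  {φ | (∀ f g, φ (f + g) = φ f + φ g) ∧ (∀ (c : ℂ) f, φ (c • f) = c * φ f) ∧ φ 1 = 1 ∧
    ∀ f, PosOn P f → 0 ≤ (φ f).re}

lemma mem_States_of_mem {P : Set (MaxSpace Ω)} {x : MaxSpace Ω} (hx : x ∈ closure P) :
    (fun f => x f) ∈ States P := by
  refine ⟨fun f g => map_add x f g, fun c f => ?_, map_one x, fun f hf => hf x hx⟩
  show x (c • f) = c * x f
  rw [map_smul, smul_eq_mul]

lemma re_le_of_bound {P : Set (MaxSpace Ω)} {φ : Hinf Ω → ℂ} (hφ : φ ∈ States P) {f : Hinf Ω}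
    {C : ℝ} (hC : ∀ x ∈ closure P, (x f).re ≤ C) : (φ f).re ≤ C := by
  obtain ⟨h1, h2, h3, h4⟩ := hφ
  have h5 := h4 ((C : ℂ) • (1 : Hinf Ω) + (-1 : ℂ) • f) (by
    intro x hx
    have h := hC x hx
    rw [map_add, map_smul, map_smul, map_one]
    simp only [smul_eq_mul, mul_one, Complex.add_re, Complex.ofReal_re, neg_mul, one_mul,
      Complex.neg_re]
    linarith)
  rw [h1, h2, h2, h3] at h5
  simp only [mul_one, Complex.add_re, Complex.ofReal_re, neg_mul, one_mul, Complex.neg_re] at h5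
  linarith

lemma norm_le_of_bound {P : Set (MaxSpace Ω)} {φ : Hinf Ω → ℂ} (hφ : φ ∈ States P) {f : Hinf Ω}
    {C : ℝ} (hC : ∀ x ∈ closure P, ‖x f‖ ≤ C) (hC0 : 0 ≤ C) : ‖φ f‖ ≤ C := by
  by_cases h0 : φ f = 0
  · rw [h0, norm_zero]; exact hC0
  have hn : (0 : ℝ) < ‖φ f‖ := norm_pos_iff.mpr h0
  set u : ℂ := conj (φ f) / ‖φ f‖ with hu
  have hu1 : ‖u‖ = 1 := by
    rw [hu, norm_div, Complex.norm_conj, Complex.norm_real, norm_norm]
    exact div_self hn.ne'
  have hre : (φ (u • f)).re ≤ C := by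
    apply re_le_of_bound hφ
    intro x hx
    rw [map_smul, smul_eq_mul]
    calc (u * x f).re ≤ ‖u * x f‖ := Complex.re_le_norm _
      _ = ‖x f‖ := by rw [norm_mul, hu1, one_mul]
      _ ≤ C := hC x hx
  rw [hφ.2.1] at hre
  have h5 : u * φ f = (‖φ f‖ : ℂ) := by
    rw [hu, div_mul_eq_mul_div, Complex.conj_mul']
    have : (‖φ f‖ : ℂ) ≠ 0 := by exact_mod_cast hn.ne'
    field_simp
  rw [h5, Complex.ofReal_re] at hre
  exact hre

lemma isClosed_States (P : Set (MaxSpace Ω)) : IsClosed (States P) := by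
  have e : States P = (⋂ (f : Hinf Ω) (g : Hinf Ω), {φ | φ (f + g) = φ f + φ g}) ∩
      ((⋂ (c : ℂ) (f : Hinf Ω), {φ | φ (c • f) = c * φ f}) ∩
      ({φ | φ 1 = 1} ∩ ⋂ (f : Hinf Ω) (_ : PosOn P f), {φ | 0 ≤ (φ f).re})) := by
    ext φ
    simp only [States, mem_ofPred_eq, mem_inter_iff, mem_iInter]
  rw [e]
  apply IsClosed.inter
  · refine isClosed_iInter fun f => isClosed_iInter fun g => ?_
    exact isClosed_eq (continuous_apply _) ((continuous_apply f).add (continuous_apply g))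
  apply IsClosed.inter
  · refine isClosed_iInter fun c => isClosed_iInter fun f => ?_
    exact isClosed_eq (continuous_apply _) (continuous_const.mul (continuous_apply f))
  apply IsClosed.inter
  · exact isClosed_eq (continuous_apply _) continuous_const
  · refine isClosed_iInter fun f => isClosed_iInter fun _ => ?_
    exact isClosed_le continuous_const (Complex.continuous_re.comp (continuous_apply f))

lemma isCompact_States (P : Set (MaxSpace Ω)) : IsCompact (States P) := by
  choose C hC using fun f : Hinf Ω => bound_eval f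
  apply IsCompact.of_isClosed_subset
    (isCompact_univ_pi fun f => isCompact_closedBall (0 : ℂ) (max (C f) 0)) (isClosed_States P)
  intro φ hφ f _
  rw [mem_closedBall_zero_iff]
  exact norm_le_of_bound hφ (fun x _ => (hC f x).trans (le_max_left _ _)) (le_max_right _ _)

/-- the face `Re φ(q) = 1` -/
def Face (P : Set (MaxSpace Ω)) (q : Hinf Ω) : Set (Hinf Ω → ℂ) :=
  {φ | φ ∈ States P ∧ (φ q).re = 1}

lemma isCompact_Face (P : Set (MaxSpace Ω)) (q : Hinf Ω) : IsCompact (Face P q) := by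
  apply IsCompact.of_isClosed_subset (isCompact_States P) _ (fun φ h => h.1)
  exact (isClosed_States P).inter
    (isClosed_eq (Complex.continuous_re.comp (continuous_apply q)) continuous_const)

/-- extreme points of the face have no proper decompositions in the state space -/
lemma ext_split {P : Set (MaxSpace Ω)} {q : Hinf Ω} (hq : ∀ x ∈ closure P, (x q).re ≤ 1)
    {φ φ₁ φ₂ : Hinf Ω → ℂ} (hφ : φ ∈ (Face P q).extremePoints ℝ) (h₁ : φ₁ ∈ States P)
    (h₂ : φ₂ ∈ States P) {t : ℝ} (ht0 : 0 < t) (ht1 : t < 1)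
    (h : ∀ f, φ f = t * φ₁ f + (1 - t) * φ₂ f) : φ₁ = φ := by
  have h1 := re_le_of_bound h₁ hq
  have h2 := re_le_of_bound h₂ hq
  have h3 : (φ q).re = 1 := hφ.1.2
  have h4 : (φ q).re = t * (φ₁ q).re + (1 - t) * (φ₂ q).re := by
    rw [h q]
    have : ((1 : ℂ) - t) = ((1 - t : ℝ) : ℂ) := by push_cast; rfl
    rw [this, Complex.add_re, Complex.re_ofReal_mul, Complex.re_ofReal_mul]
  have h5 : (φ₁ q).re = 1 := by nlinarith
  have h6 : (φ₂ q).re = 1 := by nlinarith
  apply hφ.2 (x₁ := φ₁) ⟨h₁, h5⟩ (x₂ := φ₂) ⟨h₂, h6⟩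
  refine ⟨t, 1 - t, ht0, by linarith, by ring, ?_⟩
  funext f
  rw [h f]
  simp only [Pi.add_apply, Pi.smul_apply, Complex.real_smul]
  push_cast
  ring

section Boundary

variable {P E : Set (MaxSpace Ω)}

/-- positivity on a closed boundary implies positivity on `clos P` -/
lemma posOn_of_boundary (hE : IsClosedBoundary P E) {f : Hinf Ω}
    (hf : ∀ y ∈ E, 0 ≤ (y f).re) : PosOn P f := by
  intro x hx
  by_contra hneg
  push Not at hneg
  obtain ⟨B, hB⟩ := bound_eval f
  have hB0 : 0 ≤ B := (norm_nonneg _).trans (hB x)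
  set δ := -(x f).re with hδ
  have hδ0 : 0 < δ := by rw [hδ]; linarith
  set M : ℝ := B ^ 2 / δ + 1 with hM
  have hM0 : 0 < M := by positivity
  obtain ⟨y, hy, hmax⟩ := hE.2.2 ((M : ℂ) • (1 : Hinf Ω) + (-1 : ℂ) • f)
  have h1 := hmax x hx
  have e : ∀ u : MaxSpace Ω, ‖u ((M : ℂ) • (1 : Hinf Ω) + (-1 : ℂ) • f)‖ ^ 2 =
      M ^ 2 - 2 * M * (u f).re + ‖u f‖ ^ 2 := by
    intro u
    rw [map_add, map_smul, map_smul, map_one, smul_eq_mul, mul_one, smul_eq_mul,
      ← Complex.normSq_eq_norm_sq, ← Complex.normSq_eq_norm_sq, Complex.normSq_apply,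
      Complex.normSq_apply]
    simp only [neg_mul, one_mul, Complex.add_re, Complex.ofReal_re, Complex.neg_re,
      Complex.add_im, Complex.ofReal_im, Complex.neg_im]
    ring
  have h2 : ‖x ((M : ℂ) • (1 : Hinf Ω) + (-1 : ℂ) • f)‖ ^ 2 ≤
      ‖y ((M : ℂ) • (1 : Hinf Ω) + (-1 : ℂ) • f)‖ ^ 2 :=
    pow_le_pow_left₀ (norm_nonneg _) h1 2
  rw [e, e] at h2
  have h3 := hf y hy
  have h4 : ‖y f‖ ^ 2 ≤ B ^ 2 := pow_le_pow_left₀ (norm_nonneg _) (hB y) 2
  have h5 : 0 ≤ ‖x f‖ ^ 2 := sq_nonneg _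
  have h6 : 2 * M * (y f).re ≥ 0 := by positivity
  have h7 : (x f).re = -δ := by rw [hδ]; ring
  rw [h7] at h2
  have h8 : M * δ = B ^ 2 + δ := by
    rw [hM]; field_simp
  nlinarith

/-- the real part of `f` as a continuous function on `E` -/
noncomputable def evE (E : Set (MaxSpace Ω)) (f : Hinf Ω) : C(E, ℝ) :=
  ⟨fun y => ((y : MaxSpace Ω) f).re,
    Complex.continuous_re.comp ((continuous_eval f).comp continuous_subtype_val)⟩

lemma evE_apply (f : Hinf Ω) (y : E) : evE E f y = ((y : MaxSpace Ω) f).re := rfl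

lemma evE_add (f g : Hinf Ω) : evE E (f + g) = evE E f + evE E g := by
  ext y; simp [evE_apply]

lemma evE_smul (c : ℂ) (f : Hinf Ω) :
    evE E (c • f) = c.re • evE E f + c.im • evE E (Complex.I • f) := by
  ext y
  simp only [evE_apply, map_smul, smul_eq_mul, ContinuousMap.add_apply, ContinuousMap.smul_apply,
    Complex.mul_re, Complex.I_re, Complex.I_im]
  ring

lemma evE_one : evE E (1 : Hinf Ω) = 1 := by
  ext y; simp [evE_apply]

/-- the real part of a state as a real linear map -/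
noncomputable def psi (φ : Hinf Ω → ℂ) (hφ : φ ∈ States P) : Hinf Ω →ₗ[ℝ] ℝ where
  toFun f := (φ f).re
  map_add' f g := by rw [hφ.1, Complex.add_re]
  map_smul' r f := by
    have h : r • f = (r : ℂ) • f := rfl
    rw [h, hφ.2.1, Complex.re_ofReal_mul]
    rfl

/-- a state is represented by a positive functional on every closed boundary -/
theorem exists_extension (hE : IsClosedBoundary P E) {φ : Hinf Ω → ℂ} (hφ : φ ∈ States P) :
    ∃ Λ : C(E, ℝ) →ₗ[ℝ] ℝ, (∀ h : C(E, ℝ), (∀ y, 0 ≤ h y) → 0 ≤ Λ h) ∧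
      ∀ f, Λ (evE E f) = (φ f).re := by
  have : CompactSpace E := isCompact_iff_compactSpace.mp hE.1.isCompact
  let s : PointedCone ℝ (C(E, ℝ) × Hinf Ω) :=
    { carrier := {p | ∀ y : E, 0 ≤ p.1 y + evE E p.2 y}
      add_mem' := by
        intro a b ha hb y
        have h1 := ha y
        have h2 := hb y
        simp only [Prod.fst_add, Prod.snd_add, evE_add, ContinuousMap.add_apply]
        linarith
      zero_mem' := by
        intro y
        simp [evE_apply]
      smul_mem' := by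
        intro c p hp y
        have h1 := hp y
        have h2 : evE E ((c • p).2) y = c * evE E p.2 y := by
          rw [evE_apply, evE_apply]
          have h : (c • p).2 = ((c : ℝ) : ℂ) • p.2 := rfl
          rw [h, map_smul, smul_eq_mul, Complex.re_ofReal_mul]
        have h3 : ((c • p).1) y = c * p.1 y := rfl
        rw [h2, h3, ← mul_add]
        exact mul_nonneg c.2 h1 }
  let D : Submodule ℝ (C(E, ℝ) × Hinf Ω) := LinearMap.ker (LinearMap.fst ℝ C(E, ℝ) (Hinf Ω))
  have hDmem : ∀ p : D, (p : C(E, ℝ) × Hinf Ω).1 = 0 := fun p => LinearMap.mem_ker.mp p.2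
  let F : (C(E, ℝ) × Hinf Ω) →ₗ.[ℝ] ℝ :=
    ((psi φ hφ).comp (LinearMap.snd ℝ C(E, ℝ) (Hinf Ω))).toPMap D
  have hF : ∀ p : F.domain, F p = (φ (p : C(E, ℝ) × Hinf Ω).2).re := fun p => rfl
  obtain ⟨g, hg1, hg2⟩ := riesz_extension s F
    (by
      intro p hp
      rw [hF]
      apply hφ.2.2.2
      apply posOn_of_boundary hE
      intro y hy
      have h1 := hp ⟨y, hy⟩
      rw [hDmem p] at h1
      simpa [evE_apply] using h1)
    (by
      intro p
      set c : ℝ := ‖p.1‖ with hc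
      refine ⟨⟨(0, (c : ℂ) • (1 : Hinf Ω) + (-1 : ℂ) • p.2), ?_⟩, ?_⟩
      · show _ ∈ D
        exact LinearMap.mem_ker.mpr rfl
      · intro y
        have h1 : -c ≤ p.1 y := by
          have := ContinuousMap.norm_coe_le_norm p.1 y
          rw [Real.norm_eq_abs] at this
          exact (abs_le.mp this).1
        have h2 : evE E (((0 : C(E, ℝ)), (c : ℂ) • (1 : Hinf Ω) + (-1 : ℂ) • p.2) + p).2 y = c := by
          rw [evE_apply]
          have e : (((0 : C(E, ℝ)), (c : ℂ) • (1 : Hinf Ω) + (-1 : ℂ) • p.2) + p).2 =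
              (c : ℂ) • (1 : Hinf Ω) := by simp
          rw [e, map_smul, map_one, smul_eq_mul, mul_one, Complex.ofReal_re]
        have h3 : (((0 : C(E, ℝ)), (c : ℂ) • (1 : Hinf Ω) + (-1 : ℂ) • p.2) + p).1 y = p.1 y := by
          simp
        show 0 ≤ (((0 : C(E, ℝ)), (c : ℂ) • (1 : Hinf Ω) + (-1 : ℂ) • p.2) + p).1 y +
          evE E (((0 : C(E, ℝ)), (c : ℂ) • (1 : Hinf Ω) + (-1 : ℂ) • p.2) + p).2 y
        rw [h2, h3]
        linarith)
  have hpos : ∀ h : C(E, ℝ), (∀ y, 0 ≤ h y) → 0 ≤ g (h, 0) := by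
    intro h hh
    apply hg2
    intro y
    have := hh y
    simpa [evE_apply] using this
  have hgf : ∀ f : Hinf Ω, g (0, f) = (φ f).re := by
    intro f
    have h1 := hg1 ⟨(0, f), LinearMap.mem_ker.mpr rfl⟩
    rw [hF] at h1
    exact h1
  refine ⟨g.comp (LinearMap.inl ℝ C(E, ℝ) (Hinf Ω)), fun h hh => hpos h hh, fun f => ?_⟩
  have h1 : 0 ≤ g (evE E f, -f) := by
    apply hg2
    intro y
    simp [evE_apply]
  have h2 : 0 ≤ g (-evE E f, f) := by
    apply hg2
    intro y
    simp [evE_apply]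
  have h3 : g (evE E f, -f) = g (evE E f, 0) - g (0, f) := by
    rw [← map_sub]; congr 1; ext <;> simp
  have h4 : g (-evE E f, f) = -g (evE E f, 0) + g (0, f) := by
    rw [← map_neg, ← map_add]; congr 1; ext <;> simp
  rw [hgf] at h3 h4
  show g (evE E f, 0) = (φ f).re
  linarith

/-- extreme points of the face are points of every closed boundary -/
theorem ext_mem_boundary (hP : P.Nonempty) {q : Hinf Ω} (hq : ∀ x ∈ closure P, (x q).re ≤ 1)
    {φ : Hinf Ω → ℂ} (hφ : φ ∈ (Face P q).extremePoints ℝ) (hE : IsClosedBoundary P E) :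
    ∃ y ∈ E, ∀ f, y f = φ f := by
  have : CompactSpace E := isCompact_iff_compactSpace.mp hE.1.isCompact
  have hS : φ ∈ States P := hφ.1.1
  obtain ⟨Λ, hΛ, hΛe⟩ := exists_extension hE hS
  have hΛ1 : Λ 1 = 1 := by
    rw [← evE_one (E := E), hΛe, hS.2.2.1, Complex.one_re]
  have hmono : ∀ h k : C(E, ℝ), (∀ y, h y ≤ k y) → Λ h ≤ Λ k := by
    intro h k hk
    have := hΛ (k - h) (fun y => by simpa using hk y)
    rw [map_sub] at this
    linarith
  -- the functionals `f ↦ Λ(h f)`
  have hin : ∀ h : C(E, ℝ), (∀ y, 0 ≤ h y) → 0 < Λ h →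
      (fun f => ((Λ h : ℝ) : ℂ)⁻¹ * (((Λ (h * evE E f) : ℝ) : ℂ) -
        Complex.I * ((Λ (h * evE E (Complex.I • f)) : ℝ) : ℂ))) ∈ States P := by
    intro h hh hpos
    have hne : ((Λ h : ℝ) : ℂ) ≠ 0 := by exact_mod_cast hpos.ne'
    refine ⟨fun f g => ?_, fun c f => ?_, ?_, fun f hf => ?_⟩
    · simp only [smul_add, evE_add, mul_add, map_add, Complex.ofReal_add]
      ring
    · have e1 : Complex.I • (c • f) = (Complex.I * c) • f := by rw [smul_smul]
      beta_reduce
      rw [e1, evE_smul c f, evE_smul (Complex.I * c) f]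
      simp only [mul_add, map_add, mul_smul_comm, map_smul, smul_eq_mul, Complex.mul_re,
        Complex.mul_im, Complex.I_re, Complex.I_im]
      push_cast
      have hc : c = (c.re : ℂ) + (c.im : ℂ) * Complex.I := (Complex.re_add_im c).symm
      conv_rhs => rw [hc]
      ring_nf
      simp only [Complex.I_sq]
      ring
    · have e1 : evE E (Complex.I • (1 : Hinf Ω)) = 0 := by
        ext y; simp [evE_apply]
      simp only [e1, evE_one, mul_one, mul_zero, map_zero, Complex.ofReal_zero, sub_zero]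
      exact inv_mul_cancel₀ hne
    · have h1 : 0 ≤ Λ (h * evE E f) := by
        apply hΛ
        intro y
        exact mul_nonneg (hh y) (hf _ (hE.2.1 y.2))
      have e2 : ((((Λ h : ℝ) : ℂ)⁻¹ * (((Λ (h * evE E f) : ℝ) : ℂ) -
        Complex.I * ((Λ (h * evE E (Complex.I • f)) : ℝ) : ℂ)))).re =
          (Λ h)⁻¹ * Λ (h * evE E f) := by
        rw [← Complex.ofReal_inv, Complex.re_ofReal_mul]
        simp
      show 0 ≤ ((((Λ h : ℝ) : ℂ)⁻¹ * (((Λ (h * evE E f) : ℝ) : ℂ) -
        Complex.I * ((Λ (h * evE E (Complex.I • f)) : ℝ) : ℂ)))).re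
      rw [e2]
      positivity
  have hφΛ : ∀ f, φ f = ((Λ (evE E f) : ℝ) : ℂ) -
      Complex.I * ((Λ (evE E (Complex.I • f)) : ℝ) : ℂ) := by
    intro f
    rw [hΛe, hΛe, hS.2.1]
    apply Complex.ext <;> simp
  -- multiplicativity
  have hmul1 : ∀ h : C(E, ℝ), (∀ y, 1 / 4 ≤ h y) → (∀ y, h y ≤ 3 / 4) → ∀ f,
      Λ (h * evE E f) = Λ h * (φ f).re := by
    intro h h1 h2 f
    have t1 : 1 / 4 ≤ Λ h := by
      have := hmono ((1 / 4 : ℝ) • 1) h (fun y => by simpa using h1 y)
      rw [map_smul, hΛ1] at this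
      simpa using this
    have t2 : Λ h ≤ 3 / 4 := by
      have := hmono h ((3 / 4 : ℝ) • 1) (fun y => by simpa using h2 y)
      rw [map_smul, hΛ1] at this
      simpa using this
    have t3 : Λ (1 - h) = 1 - Λ h := by rw [map_sub, hΛ1]
    have hA := hin h (fun y => by linarith [h1 y]) (by linarith)
    have hB := hin (1 - h) (fun y => by
      have := h2 y
      simp only [ContinuousMap.sub_apply, ContinuousMap.one_apply]
      linarith) (by rw [t3]; linarith)
    have hne1 : ((Λ h : ℝ) : ℂ) ≠ 0 := by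
      have : Λ h ≠ 0 := by linarith
      exact_mod_cast this
    have hne2 : ((Λ (1 - h) : ℝ) : ℂ) ≠ 0 := by
      have : Λ (1 - h) ≠ 0 := by rw [t3]; linarith
      exact_mod_cast this
    have key := ext_split hq hφ hA hB (t := Λ h) (by linarith) (by linarith) (by
      intro f
      have e1 : ((1 : ℂ) - (Λ h : ℝ)) = ((Λ (1 - h) : ℝ) : ℂ) := by rw [t3]; push_cast; rfl
      rw [e1]
      beta_reduce
      rw [mul_inv_cancel_left₀ hne1, mul_inv_cancel_left₀ hne2, hφΛ f]
      simp only [sub_mul, one_mul, map_sub, Complex.ofReal_sub]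
      ring)
    have k2 := congrArg (fun u : Hinf Ω → ℂ => (u f).re) key
    have e2 : ((((Λ h : ℝ) : ℂ)⁻¹ * (((Λ (h * evE E f) : ℝ) : ℂ) -
        Complex.I * ((Λ (h * evE E (Complex.I • f)) : ℝ) : ℂ)))).re =
          (Λ h)⁻¹ * Λ (h * evE E f) := by
      rw [← Complex.ofReal_inv, Complex.re_ofReal_mul]
      simp
    have k3 : (Λ h)⁻¹ * Λ (h * evE E f) = (φ f).re := by
      rw [← e2]; exact k2
    have hne : Λ h ≠ 0 := by linarith
    rw [← k3]
    field_simp
  have hmul : ∀ (h : C(E, ℝ)) f, Λ (h * evE E f) = Λ h * (φ f).re := by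
    intro h f
    set s : ℝ := 1 / (4 * (1 + ‖h‖)) with hs
    have hs0 : 0 < s := by positivity
    have hb : ∀ y, |s * h y| ≤ 1 / 4 := by
      intro y
      have h1 := ContinuousMap.norm_coe_le_norm h y
      rw [Real.norm_eq_abs] at h1
      rw [abs_mul, abs_of_pos hs0, hs, one_div_mul_eq_div, div_le_div_iff₀ (by positivity)
        (by norm_num)]
      nlinarith [norm_nonneg h]
    have hap : ∀ y, ((1 / 2 : ℝ) • (1 : C(E, ℝ)) + s • h) y = 1 / 2 + s * h y := by
      intro y; simp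
    have h1 := hmul1 ((1 / 2 : ℝ) • 1 + s • h)
      (fun y => by rw [hap]; linarith [(abs_le.mp (hb y)).1])
      (fun y => by rw [hap]; linarith [(abs_le.mp (hb y)).2]) f
    rw [add_mul, smul_mul_assoc, smul_mul_assoc, one_mul, map_add, map_add, map_smul, map_smul,
      map_smul, map_smul, hΛ1, hΛe] at h1
    simp only [smul_eq_mul] at h1
    have h2 : s * Λ (h * evE E f) = s * (Λ h * (φ f).re) := by linarith
    exact mul_left_cancel₀ hs0.ne' h2
  -- variance zero
  have hvar : ∀ f, Λ ((evE E f - (φ f).re • 1) * (evE E f - (φ f).re • 1)) = 0 := by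
    intro f
    have e : (evE E f - (φ f).re • (1 : C(E, ℝ))) * (evE E f - (φ f).re • 1) =
        (evE E f - (φ f).re • 1) * evE E f - (φ f).re • (evE E f - (φ f).re • 1) := by
      rw [mul_sub, mul_smul_comm, mul_one]
    rw [e, map_sub, hmul, map_smul, map_sub, map_smul, hΛ1, hΛe]
    simp
  by_contra hcon
  push Not at hcon
  -- cover
  have hcov : (univ : Set E) ⊆ ⋃ f : Hinf Ω, {y : E | (y : MaxSpace Ω) f ≠ φ f} := by
    intro y _
    obtain ⟨f, hf⟩ := hcon y y.2
    exact mem_iUnion.mpr ⟨f, hf⟩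
  obtain ⟨T, hT⟩ := isCompact_univ.elim_finite_subcover
    (fun f : Hinf Ω => {y : E | (y : MaxSpace Ω) f ≠ φ f})
    (fun f => isOpen_ne_fun ((continuous_eval f).comp continuous_subtype_val) continuous_const)
    hcov
  set H : C(E, ℝ) := ∑ f ∈ T, ((evE E f - (φ f).re • 1) * (evE E f - (φ f).re • 1) +
    (evE E (Complex.I • f) - (φ (Complex.I • f)).re • 1) *
      (evE E (Complex.I • f) - (φ (Complex.I • f)).re • 1)) with hH
  have hH0 : Λ H = 0 := by
    rw [hH, map_sum]
    apply Finset.sum_eq_zero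
    intro f _
    rw [map_add, hvar, hvar, add_zero]
  have hHy : ∀ y : E, H y = ∑ f ∈ T, ((((y : MaxSpace Ω) f).re - (φ f).re) ^ 2 +
      ((((y : MaxSpace Ω) f)).im - (φ f).im) ^ 2) := by
    intro y
    rw [hH, ContinuousMap.sum_apply]
    apply Finset.sum_congr rfl
    intro f _
    rw [hS.2.1]
    simp only [ContinuousMap.add_apply, ContinuousMap.mul_apply, ContinuousMap.sub_apply,
      ContinuousMap.smul_apply, ContinuousMap.one_apply, evE_apply, map_smul, smul_eq_mul,
      Complex.mul_re, Complex.I_re, Complex.I_im]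
    ring
  have hHpos : ∀ y : E, 0 < H y := by
    intro y
    rw [hHy]
    have hy := hT (mem_univ y)
    simp only [mem_iUnion] at hy
    obtain ⟨f, hfT, hf⟩ := hy
    apply Finset.sum_pos' (fun g _ => by positivity)
    refine ⟨f, hfT, ?_⟩
    have hf' : (y : MaxSpace Ω) f ≠ φ f := hf
    by_contra hle
    push Not at hle
    apply hf'
    have h1 := sq_nonneg (((y : MaxSpace Ω) f).re - (φ f).re)
    have h2 := sq_nonneg (((y : MaxSpace Ω) f).im - (φ f).im)
    apply Complex.ext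
    · have : (((y : MaxSpace Ω) f).re - (φ f).re) ^ 2 = 0 := by linarith
      exact sub_eq_zero.mp (pow_eq_zero_iff two_ne_zero |>.mp this)
    · have : (((y : MaxSpace Ω) f).im - (φ f).im) ^ 2 = 0 := by linarith
      exact sub_eq_zero.mp (pow_eq_zero_iff two_ne_zero |>.mp this)
  obtain ⟨y₀, hy₀, -⟩ := hE.2.2 (0 : Hinf Ω)
  have hnE : Nonempty E := ⟨⟨y₀, hy₀⟩⟩
  obtain ⟨y₁, -, hmin⟩ := isCompact_univ.exists_isMinOn (univ_nonempty (α := E))
    H.continuous.continuousOn
  have h1 := hmono ((H y₁) • 1) H (fun y => by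
    have := hmin (mem_univ y)
    simpa using this)
  rw [map_smul, hΛ1, hH0, smul_eq_mul, mul_one] at h1
  exact absurd (hHpos y₁) (not_lt.mpr h1)

end Boundary

/-- **Existence of good Shilov boundary points.** -/
theorem exists_point {P : Set (MaxSpace Ω)} (hP : P.Nonempty) {q : Hinf Ω}
    (hq : ∀ x ∈ closure P, (x q).re ≤ 1) (hx : ∃ x ∈ closure P, (x q).re = 1) :
    ∃ m : MaxSpace Ω, m ∈ shilov P ∧ (m q).re = 1 ∧
      ∀ y : MaxSpace Ω, ∀ c : ℝ, 0 < c → c < 1 → (∀ f, PosOn P f → 0 ≤ (y f).re) →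
        (∀ f, PosOn P f → c * (y f).re ≤ (m f).re) → y = m := by
  obtain ⟨x, hx, hxq⟩ := hx
  have hne : (Face P q).Nonempty := ⟨fun f => x f, mem_States_of_mem hx, hxq⟩
  obtain ⟨φ, hφ⟩ := (isCompact_Face P q).extremePoints_nonempty hne
  have hcl : IsClosedBoundary P (closure P) :=
    isClosedBoundary_of hP isClosed_closure (le_refl _)
      (fun g hg a h x hx => h x (subset_closure hx))
  obtain ⟨m, hm, hmφ⟩ := ext_mem_boundary hP hq hφ hcl
  refine ⟨m, ?_, ?_, ?_⟩
  · intro E hE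
    obtain ⟨y, hy, hyφ⟩ := ext_mem_boundary hP hq hφ hE
    have : y = m := by
      apply AlgHom.ext
      intro f
      rw [hyφ, hmφ]
    rwa [← this]
  · rw [hmφ]; exact hφ.1.2
  · intro y c hc0 hc1 hy1 hy2
    have hyS : (fun f => y f) ∈ States P := by
      refine ⟨fun f g => map_add y f g, fun c f => ?_, map_one y, hy1⟩
      show y (c • f) = c * y f
      rw [map_smul, smul_eq_mul]
    have h1c : ((1 : ℂ) - c) ≠ 0 := by
      have : (1 - c : ℝ) ≠ 0 := by linarith
      have h2 : ((1 - c : ℝ) : ℂ) ≠ 0 := by exact_mod_cast this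
      rwa [Complex.ofReal_sub, Complex.ofReal_one] at h2
    have hzS : (fun f => ((1 : ℂ) - c)⁻¹ * (m f - c * y f)) ∈ States P := by
      refine ⟨fun f g => ?_, fun a f => ?_, ?_, fun f hf => ?_⟩
      · beta_reduce
        rw [map_add, map_add]; ring
      · beta_reduce
        rw [map_smul, map_smul, smul_eq_mul, smul_eq_mul]; ring
      · beta_reduce
        rw [map_one, map_one, mul_one]
        exact inv_mul_cancel₀ h1c
      · have e : ((1 : ℂ) - c)⁻¹ = (((1 - c : ℝ)⁻¹ : ℝ) : ℂ) := by push_cast; rfl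
        show 0 ≤ (((1 : ℂ) - c)⁻¹ * (m f - c * y f)).re
        rw [e, Complex.re_ofReal_mul, Complex.sub_re, Complex.re_ofReal_mul]
        have h3 := hy2 f hf
        have h4 : 0 < (1 - c)⁻¹ := by
          apply inv_pos.mpr; linarith
        apply mul_nonneg h4.le
        linarith
    have key := ext_split hq hφ hyS hzS hc0 hc1 (by
      intro f
      beta_reduce
      rw [← hmφ, mul_inv_cancel_left₀ h1c]
      ring)
    apply AlgHom.ext
    intro f
    rw [hmφ]
    exact congrFun key f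

end Pool.Agent.Lib.MP_264cca_an
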