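import Pool.Agent.Lib.MP_264cca_an.Minimal
import Pool.Agent.Lib.MP_264cca_an.State

/-!
# Points of `clos P_e` in the fibre `q = 1`, for `e` an idempotent of a minimal left ideal
-/

open Set Topology Filter Metric
open scoped ComplexConjugate Real

namespace Pool.Agent.Lib.MP_264cca_an

attribute [local instance] Ultrafilter.add Ultrafilter.addSemigroup

/-! ### Harnack's inequality -/

/-- auxiliary: `1 / (1 + g)` -/
lemma BH_inv_one_add {Ω : Set ℂ} {g : ℂ → ℂ} (hg : BH Ω g) (hre : ∀ z ∈ Ω, 0 ≤ (g z).re) :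
    BH Ω (fun z => (1 + g z)⁻¹) := by
  have h1 : ∀ z ∈ Ω, 1 ≤ ‖1 + g z‖ := by
    intro z hz
    have h2 := Complex.re_le_norm (1 + g z)
    have h3 := hre z hz
    simp only [Complex.add_re, Complex.one_re] at h2
    linarith
  refine ⟨((hg.1.const_add 1)).inv (fun z hz => ?_), 1, fun z hz => ?_⟩
  · have := h1 z hz
    intro h0
    rw [h0, norm_zero] at this
    linarith
  · rw [norm_inv]
    exact inv_le_one_of_one_le₀ (h1 z hz)

theorem harnack {Ω : Set ℂ} {m y : MaxSpace Ω} {ρ : ℝ} (hρ : ρ < 1) (hn : Near ρ m y) :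
    ∃ c : ℝ, 0 < c ∧ c < 1 ∧ ∀ g, BH Ω g → (∀ z ∈ Ω, 0 ≤ (g z).re) →
      c * (ap y g).re ≤ (ap m g).re ∧ 0 ≤ (ap y g).re := by
  have hρ0 : 0 ≤ ρ := by
    have := hn (fun _ => 0) (differentiableOn_const _) (fun _ _ => by simp)
    rw [ap_const, ap_const] at this
    simpa using this
  refine ⟨(1 - ρ ^ 2) / 4, by nlinarith, by nlinarith, fun g hg hre => ?_⟩
  have hinv := BH_inv_one_add hg hre
  have hnum : BH Ω (fun z => 1 - g z) := (BH.const 1).sub hg
  have hden : BH Ω (fun z => 1 + g z) := (BH.const 1).add hg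
  have hne : ∀ z ∈ Ω, 1 + g z ≠ 0 := by
    intro z hz h0
    have h3 := hre z hz
    have h4 := congrArg Complex.re h0
    simp only [Complex.add_re, Complex.one_re, Complex.zero_re] at h4
    linarith
  set u : ℂ → ℂ := fun z => (1 - g z) * (1 + g z)⁻¹ with hu
  have huB : BH Ω u := hnum.mul hinv
  have hu1 : ∀ z ∈ Ω, ‖u z‖ ≤ 1 := by
    intro z hz
    simp only [hu]
    rw [norm_mul, norm_inv, ← div_eq_mul_inv]
    apply div_le_one_of_le₀ _ (norm_nonneg _)
    apply le_of_sq_le_sq _ (norm_nonneg _)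
    rw [← Complex.normSq_eq_norm_sq, ← Complex.normSq_eq_norm_sq, Complex.normSq_apply,
      Complex.normSq_apply]
    simp only [Complex.sub_re, Complex.sub_im, Complex.add_re, Complex.add_im, Complex.one_re,
      Complex.one_im]
    have := hre z hz
    nlinarith
  have hap : ∀ x : MaxSpace Ω, (1 + ap x g) * ap x (fun z => (1 + g z)⁻¹) = 1 ∧
      ap x u = (1 - ap x g) * ap x (fun z => (1 + g z)⁻¹) := by
    intro x
    constructor
    · have e1 : ap x (fun z => 1 + g z) = 1 + ap x g := by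
        rw [ap_add x (BH.const 1) hg, ap_const]
      rw [← e1, ← ap_mul x hden hinv]
      rw [ap_congr x (BH.const 1) (fun z hz => mul_inv_cancel₀ (hne z hz)), ap_const]
    · have e1 : ap x (fun z => 1 - g z) = 1 - ap x g := by
        rw [ap_sub x (BH.const 1) hg, ap_const]
      rw [← e1, ← ap_mul x hnum hinv]
  obtain ⟨ha1, ha2⟩ := hap m
  obtain ⟨hb1, hb2⟩ := hap y
  set a := ap m g with ha
  set b := ap y g with hb
  set ia := ap m (fun z => (1 + g z)⁻¹)
  set ib := ap y (fun z => (1 + g z)⁻¹)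
  have hia : ia ≠ 0 := fun h => by rw [h, mul_zero] at ha1; exact zero_ne_one ha1
  have hib : ib ≠ 0 := fun h => by rw [h, mul_zero] at hb1; exact zero_ne_one hb1
  have hre_of : ∀ (w i : ℂ), i ≠ 0 → (1 + w) * i = 1 → ‖(1 - w) * i‖ ≤ 1 → 0 ≤ w.re := by
    intro w i hi hwi hle
    have hi0 : 0 < ‖i‖ := norm_pos_iff.mpr hi
    have h1 : ‖1 + w‖ * ‖i‖ = 1 := by rw [← norm_mul, hwi, norm_one]
    rw [norm_mul] at hle
    have h2 : ‖1 - w‖ * ‖i‖ ≤ ‖1 + w‖ * ‖i‖ := by rw [h1]; exact hle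
    have h3 : ‖1 - w‖ ≤ ‖1 + w‖ := le_of_mul_le_mul_right h2 hi0
    have h4 : ‖1 - w‖ ^ 2 ≤ ‖1 + w‖ ^ 2 := pow_le_pow_left₀ (norm_nonneg _) h3 2
    rw [← Complex.normSq_eq_norm_sq, ← Complex.normSq_eq_norm_sq, Complex.normSq_apply,
      Complex.normSq_apply] at h4
    simp only [Complex.sub_re, Complex.sub_im, Complex.add_re, Complex.add_im, Complex.one_re,
      Complex.one_im] at h4
    nlinarith
  have hbre : 0 ≤ b.re := hre_of b ib hib hb1 (by rw [← hb2]; exact ap_norm_le y huB.1 hu1)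
  have hare : 0 ≤ a.re := hre_of a ia hia ha1 (by rw [← ha2]; exact ap_norm_le m huB.1 hu1)
  refine ⟨?_, hbre⟩
  have hnear := hn u huB.1 hu1
  rw [ha2, hb2] at hnear
  -- `a - b` and `a + conj b`
  have e1 : (1 - a) * ia - (1 - b) * ib = 2 * (b - a) * (ia * ib) := by
    linear_combination (1 - b) * ib * ha1 - (1 - a) * ia * hb1
  have hcb : (1 + conj b) * conj ib = 1 := by
    have := congrArg conj hb1
    simpa using this
  have e2 : 1 - conj ((1 - b) * ib) * ((1 - a) * ia) = 2 * (a + conj b) * (ia * conj ib) := by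
    simp only [map_mul, map_sub, map_one]
    linear_combination (-(1 + conj b) * conj ib) * ha1 - hcb
  have hni : 0 < ‖ia * ib‖ := norm_pos_iff.mpr (mul_ne_zero hia hib)
  have hni2 : ‖ia * conj ib‖ = ‖ia * ib‖ := by
    rw [norm_mul, norm_mul, Complex.norm_conj]
  have h2n : ‖(2 : ℂ)‖ = 2 := by simp
  have e1n : ‖(1 - a) * ia - (1 - b) * ib‖ = 2 * ‖b - a‖ * ‖ia * ib‖ := by
    rw [e1, norm_mul, norm_mul, h2n]
  have e2n : ‖1 - conj ((1 - b) * ib) * ((1 - a) * ia)‖ = 2 * ‖a + conj b‖ * ‖ia * ib‖ := by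
    rw [e2, norm_mul, norm_mul, h2n, hni2]
  rw [e1n, e2n] at hnear
  have h5 : ‖b - a‖ ≤ ρ * ‖a + conj b‖ := by
    have h6 : (2 * ‖b - a‖) * ‖ia * ib‖ ≤ (2 * (ρ * ‖a + conj b‖)) * ‖ia * ib‖ := by
      calc (2 * ‖b - a‖) * ‖ia * ib‖ ≤ ρ * (2 * ‖a + conj b‖ * ‖ia * ib‖) := hnear
        _ = _ := by ring
    have h7 := le_of_mul_le_mul_right h6 hni
    linarith
  have h6 : ‖b - a‖ ^ 2 ≤ ρ ^ 2 * ‖a + conj b‖ ^ 2 := by
    have := pow_le_pow_left₀ (norm_nonneg _) h5 2
    rwa [mul_pow] at this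
  have h7 : ‖a + conj b‖ ^ 2 - ‖b - a‖ ^ 2 = 4 * a.re * b.re := by
    rw [← Complex.normSq_eq_norm_sq, ← Complex.normSq_eq_norm_sq, Complex.normSq_apply,
      Complex.normSq_apply]
    simp only [Complex.sub_re, Complex.sub_im, Complex.add_re, Complex.add_im, Complex.conj_re,
      Complex.conj_im]
    ring
  have h8 : (a.re + b.re) ^ 2 ≤ ‖a + conj b‖ ^ 2 := by
    have h9 := Complex.abs_re_le_norm (a + conj b)
    simp only [Complex.add_re, Complex.conj_re] at h9
    rw [← sq_abs (a.re + b.re)]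
    exact pow_le_pow_left₀ (abs_nonneg _) h9 2
  have hr : 0 ≤ 1 - ρ ^ 2 := by nlinarith
  have h9 : (1 - ρ ^ 2) * (a.re + b.re) ^ 2 ≤ 4 * a.re * b.re := by
    have := mul_le_mul_of_nonneg_left h8 hr
    nlinarith
  rcases eq_or_lt_of_le hbre with h0 | hpos
  · rw [← h0, mul_zero]; exact hare
  · have h10 : (1 - ρ ^ 2) * b.re ^ 2 ≤ 4 * a.re * b.re := by
      have h11 : b.re ^ 2 ≤ (a.re + b.re) ^ 2 := pow_le_pow_left₀ hbre (by linarith) 2
      exact (mul_le_mul_of_nonneg_left h11 hr).trans h9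
    have h12 : ((1 - ρ ^ 2) * b.re) * b.re ≤ (4 * a.re) * b.re := by
      calc ((1 - ρ ^ 2) * b.re) * b.re = (1 - ρ ^ 2) * b.re ^ 2 := by ring
        _ ≤ _ := h10
    have h13 := le_of_mul_le_mul_right h12 hpos
    linarith

/-! ### Families tending to zero along a minimal left ideal -/

/-- `J` belongs to every member of `K` -/
def Big (K : Set (Ultrafilter ℤ)) (J : Set ℤ) : Prop := ∀ V ∈ K, J ∈ V

/-- `N → ∞` along every member of `K` -/
def ToTop (K : Set (Ultrafilter ℤ)) (N : ℤ → ℕ) : Prop := ∀ V ∈ K, Tendsto N V atTop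

/-- the key lemma on families tending to zero, for a set of ultrafilters -/
theorem ap_Psi_eq_zero_of_big {x : MaxSpace Hp} (hx : ap x qq = 1) {K : Set (Ultrafilter ℤ)}
    (hnp : ToTop K (fun j : ℤ => j.natAbs))
    (hU : ∀ J : Set ℤ, Big K J → ap x (Psi (ind J)) = 1)
    (hw : ∀ N : ℤ → ℕ, ToTop K N → ap x (Psi (fun j z => ww z ^ N j)) = 0)
    {A : ℝ} {d : ℤ → ℂ → ℂ} (hd : LH A d)
    (h0 : ∀ V ∈ K, ∀ z ∈ Hp, Tendsto (fun j => d j z) V (𝓝 0)) :
    ap x (Psi d) = 0 := by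
  classical
  -- Taylor coefficients tend to zero
  have hrr : ∀ n : ℕ, (∃ C : ℝ, ∀ j, ∀ z ∈ Hp, ‖rr (d j) n z‖ ≤ C) ∧
      ∀ V ∈ K, ∀ z ∈ Hp, Tendsto (fun j => rr (d j) n z) V (𝓝 0) := by
    intro n
    induction n with
    | zero => exact ⟨⟨A, hd.2⟩, h0⟩
    | succ n ih =>
      obtain ⟨⟨C, hC⟩, ht⟩ := ih
      constructor
      · refine ⟨2 * C, fun j z hz => ?_⟩
        apply norm_divw_le (rr_differentiableOn (hd.1 j) n) _ hz
        intro z hz
        calc ‖rr (d j) n z - rr (d j) n Complex.I‖ ≤ C + C :=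
              (norm_sub_le _ _).trans (add_le_add (hC j z hz) (hC j _ I_mem_Hp))
          _ = 2 * C := by ring
      · exact fun V hV => tendsto_divw V (fun j => rr (d j) n)
          (fun j => rr_differentiableOn (hd.1 j) n) hC (ht V hV)
  have htc : ∀ V ∈ K, ∀ n : ℕ, Tendsto (fun j => ‖tc (d j) n‖) V (𝓝 0) := by
    intro V hV n
    have := ((hrr n).2 V hV _ I_mem_Hp).norm
    simpa [tc] using this
  -- the exponents
  let P : ℤ → ℕ → Prop := fun j n => (∑ k ∈ Finset.range n, ‖tc (d j) k‖) * (n + 1) ≤ 1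
  set N : ℤ → ℕ := fun j => Nat.findGreatest (P j) j.natAbs with hN
  have hP0 : ∀ j, P j 0 := by intro j; simp [P]
  have hPN : ∀ j, P j (N j) := fun j => Nat.findGreatest_spec (Nat.zero_le _) (hP0 j)
  have hNtop : ToTop K N := by
    intro V hV
    rw [Filter.tendsto_atTop]
    intro n
    have h1 : Tendsto (fun j => (∑ k ∈ Finset.range n, ‖tc (d j) k‖) * ((n : ℝ) + 1)) V
        (𝓝 ((∑ _k ∈ Finset.range n, (0 : ℝ)) * ((n : ℝ) + 1))) :=
      (tendsto_finsetSum _ (fun k _ => htc V hV k)).mul_const _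
    simp only [Finset.sum_const_zero, zero_mul] at h1
    have h2 : ∀ᶠ j in (V : Filter ℤ),
        (∑ k ∈ Finset.range n, ‖tc (d j) k‖) * ((n : ℝ) + 1) < 1 :=
      h1.eventually (gt_mem_nhds zero_lt_one)
    filter_upwards [h2, (hnp V hV).eventually_ge_atTop n] with j hj1 hj2
    exact Nat.le_findGreatest hj2 hj1.le
  have hsum : ∀ j, ∑ k ∈ Finset.range (N j), ‖tc (d j) k‖ ≤ 1 / ((N j : ℝ) + 1) := by
    intro j
    rw [le_div_iff₀ (by positivity)]
    exact hPN j
  have hsum1 : ∀ j, ∑ k ∈ Finset.range (N j), ‖tc (d j) k‖ ≤ 1 := by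
    intro j
    refine (hsum j).trans ?_
    rw [div_le_one (by positivity)]
    have : (0 : ℝ) ≤ N j := Nat.cast_nonneg _
    linarith
  -- the pieces
  set p : ℤ → ℂ → ℂ := fun j z => ∑ k ∈ Finset.range (N j), tc (d j) k * ww z ^ k with hp
  set g : ℤ → ℂ → ℂ := fun j => rr (d j) (N j) with hg
  have hpn : ∀ j, ∀ z ∈ Hp, ‖p j z‖ ≤ 1 / ((N j : ℝ) + 1) := by
    intro j z hz
    refine le_trans ?_ (hsum j)
    apply norm_sum_le_of_le
    intro k _
    rw [norm_mul, norm_pow]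
    have h1 : ‖ww z‖ ^ k ≤ 1 := pow_le_one₀ (norm_nonneg _) (norm_ww_lt_one hz).le
    calc ‖tc (d j) k‖ * ‖ww z‖ ^ k ≤ ‖tc (d j) k‖ * 1 :=
          mul_le_mul_of_nonneg_left h1 (norm_nonneg _)
      _ = _ := mul_one _
  have hpL : LH 1 p := by
    refine ⟨fun j => ?_, fun j z hz => ?_⟩
    · apply DifferentiableOn.fun_sum
      intro k _
      exact (differentiableOn_const _).mul (ww_differentiableOn.pow k)
    · refine (hpn j z hz).trans ?_
      rw [div_le_one (by positivity)]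
      have : (0 : ℝ) ≤ N j := Nat.cast_nonneg _
      linarith
  have hgL : LH (A + 1) g := by
    refine ⟨fun j => rr_differentiableOn (hd.1 j) _, fun j z hz => ?_⟩
    exact (norm_rr_le (hd.1 j) (hd.2 j) (N j) hz).trans (add_le_add (le_refl _) (hsum1 j))
  have hwL : LH 1 (fun (j : ℤ) z => ww z ^ N j) := LH_wpow N
  have hdec : ∀ j, ∀ z ∈ Hp, d j z = p j z + ww z ^ N j * g j z := fun j z hz =>
    taylor_spec (d j) (N j) hz
  have h1 : ap x (Psi d) = ap x (Psi p) := by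
    rw [ap_Psi_congr x (hpL.add (hwL.mul hgL)) hdec, ap_Psi_add x hpL (hwL.mul hgL),
      ap_Psi_mul hx hwL hgL, hw N hNtop, zero_mul, add_zero]
  rw [h1]
  have h2 : ∀ n : ℕ, ‖ap x (Psi p)‖ ≤ 1 / ((n : ℝ) + 1) := by
    intro n
    apply norm_ap_Psi_le_of_ind hx (J := {j | n ≤ N j})
      (hU _ (fun V hV => (hNtop V hV).eventually_ge_atTop n)) (by positivity) hpL
    intro j hj z hz
    refine (hpn j z hz).trans ?_
    have : (n : ℝ) ≤ N j := by exact_mod_cast hj
    exact one_div_le_one_div_of_le (by positivity) (by linarith)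
  have h3 : ‖ap x (Psi p)‖ ≤ 0 :=
    ge_of_tendsto' tendsto_one_div_add_atTop_nhds_zero_nat h2
  exact norm_le_zero_iff.mp h3

section

variable {K : Set (Ultrafilter ℤ)} (hK : Minimal (· ∈ {K | IsLI K}) K) {e : Ultrafilter ℤ}
  (he : e ∈ K) (hee : e + e = e) {x₀ : MaxSpace Hp}
  (hx₀ : ∀ f, BH Hp f → ap x₀ f = Phi e f Complex.I)
include hx₀

/-- the values of `m ∈ clos P_e` are determined by `Φ_e` -/
lemma ap_eq_of_closure {m : MaxSpace Hp} (hm : m ∈ closure (part x₀)) {f g : ℂ → ℂ}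
    (hf : BH Hp f) (hg : BH Hp g) (h : ∀ z ∈ Hp, Phi e f z = Phi e g z) : ap m f = ap m g := by
  have h1 : ap m (fun z => f z - g z) = 0 := by
    apply closure_const hm (hf.sub hg)
    intro x hx
    obtain ⟨z, hz, hxz⟩ := exists_of_mem_part I_mem_Hp hx₀ hx
    rw [ap_sub x hf hg, hxz f hf, hxz g hg, h z hz, sub_self]
  rw [ap_sub m hf hg] at h1
  exact sub_eq_zero.mp h1

omit hx₀ in
include hK he in
lemma shiftLim_ind {J : Set ℤ} (hJ : Big K J) (l : ℤ) (z : ℂ) : shiftLim e (ind J) l z = 1 := by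
  apply ulim_eq
  apply tendsto_const_nhds.congr'
  have h := hJ _ (map_add_mem hK he l)
  rw [Ultrafilter.mem_map] at h
  have h2 : ∀ᶠ m in (e : Filter ℤ), m + l ∈ J := h
  filter_upwards [h2] with m hm
  rw [ind_of_mem (by rwa [add_comm])]

include hK he

lemma ap_ind_closure {m : MaxSpace Hp} (hm : m ∈ closure (part x₀)) (hq : ap m qq = 1)
    {J : Set ℤ} (hJ : Big K J) : ap m (Psi (ind J)) = 1 := by
  have hc : LH 1 (fun (_ : ℤ) (_ : ℂ) => (1 : ℂ)) :=
    LH.const (differentiableOn_const _) (fun _ _ => by simp)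
  rw [← ap_Psi_const hq 1]
  apply ap_eq_of_closure hx₀ hm (BH_Psi (LH_ind J)) (BH_Psi hc)
  intro z hz
  rw [Phi_Psi e (LH_ind J) hz, Phi_Psi e hc hz]
  apply Psi_congr _ hz
  intro l w _
  rw [shiftLim_ind hK he hJ l w]
  exact (ulim_eq tendsto_const_nhds).symm

lemma ap_wpow_closure {m : MaxSpace Hp} (hm : m ∈ closure (part x₀))
    {N : ℤ → ℕ} (hN : ToTop K N) : ap m (Psi (fun j z => ww z ^ N j)) = 0 := by
  rw [← ap_const m 0]
  apply ap_eq_of_closure hx₀ hm (BH_Psi (LH_wpow N)) (BH.const 0)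
  intro z hz
  rw [Phi_Psi e (LH_wpow N) hz, Phi_const]
  have h0 : Psi (fun _ _ => (0 : ℂ)) z = 0 := by
    unfold Psi
    simp
  rw [← h0]
  apply Psi_congr _ hz
  intro l w hw
  apply ulim_eq
  have h1 : Tendsto (fun m : ℤ => N (l + m)) e atTop := by
    have h2 := hN _ (map_add_mem hK he l)
    rw [Ultrafilter.coe_map, Filter.tendsto_map'_iff] at h2
    refine h2.congr ?_
    intro m
    simp only [Function.comp_apply, add_comm]
  exact (tendsto_pow_atTop_nhds_zero_of_norm_lt_one (norm_ww_lt_one hw)).comp h1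

include hee

/-- every point in the part of `m ∈ clos P_e`, `q(m) = 1`, is fixed by `Φ_e` -/
theorem ap_fix {m : MaxSpace Hp} (hm : m ∈ closure (part x₀)) (hq : ap m qq = 1)
    {y : MaxSpace Hp} (hy : y ∈ part m) {f : ℂ → ℂ} (hf : BH Hp f) :
    ap y f = ap y (Phi e f) := by
  have hKp : IsLI K := hK.prop
  obtain ⟨ρ, hρ, hn⟩ := mem_part_iff.mp hy
  have hyq : ap y qq = 1 := by
    rw [hn.eq_of_norm_eq_one hρ BH_qq.1 (fun z hz => (norm_qq_lt_one hz).le)
      (by rw [hq, norm_one]), hq]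
  have hU : ∀ J : Set ℤ, Big K J → ap y (Psi (ind J)) = 1 := by
    intro J hJ
    have h1 := ap_ind_closure hK he hx₀ hm hq hJ
    rw [hn.eq_of_norm_eq_one hρ (BH_Psi (LH_ind J)).1 (fun z hz => norm_Psi_le (LH_ind J) hz)
      (by rw [h1, norm_one]), h1]
  have hw : ∀ N : ℤ → ℕ, ToTop K N → ap y (Psi (fun j z => ww z ^ N j)) = 0 := by
    intro N hN
    set c := ap y (Psi (fun (j : ℤ) z => ww z ^ N j)) with hcdef
    set N' : ℤ → ℕ := fun j => Nat.sqrt (N j) with hN'
    have hN't : ToTop K N' := by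
      intro V hV
      rw [Filter.tendsto_atTop]
      intro n
      filter_upwards [(hN V hV).eventually_ge_atTop (n * n)] with j hj
      exact Nat.le_sqrt.mpr hj
    set c' := ap y (Psi (fun (j : ℤ) z => ww z ^ N' j)) with hc'
    have hc'1 : ‖c'‖ ≤ ρ := hn.norm_le_of_eq_zero (BH_Psi (LH_wpow N')).1
      (fun z hz => norm_Psi_le (LH_wpow N') hz) (ap_wpow_closure hK he hx₀ hm hN't)
    have hpow : ∀ r : ℕ, ‖c‖ ≤ ‖c'‖ ^ r := by
      intro r
      set M : ℤ → ℕ := fun j => N j - r * N' j with hM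
      have hLG : LH (1 * 1) (fun (j : ℤ) z => (ww z ^ N' j) ^ r * ww z ^ M j) :=
        ((LH_wpow N').pow (fun _ => r)).mul (LH_wpow M)
      have hJ : Big K {j | r * N' j ≤ N j} := by
        intro V hV
        have : ∀ᶠ j in (V : Filter ℤ), r ≤ N' j := (hN't V hV).eventually_ge_atTop r
        filter_upwards [this] with j hj
        calc r * N' j ≤ N' j * N' j := Nat.mul_le_mul_right _ hj
          _ ≤ N j := Nat.sqrt_le (N j)
      have hdiff : ap y (Psi (fun (j : ℤ) z => ww z ^ N j -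
          (ww z ^ N' j) ^ r * ww z ^ M j)) = 0 := by
        have := norm_ap_Psi_le_of_ind hyq (hU _ hJ) (le_refl (0 : ℝ)) ((LH_wpow N).sub hLG)
          (by
            intro j hj z hz
            have hj' : r * N' j ≤ N j := hj
            have : ww z ^ N j = (ww z ^ N' j) ^ r * ww z ^ M j := by
              rw [← pow_mul, ← pow_add]
              congr 1
              rw [hM]
              simp only
              rw [mul_comm (N' j) r]
              omega
            rw [this, sub_self, norm_zero])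
        exact norm_le_zero_iff.mp this
      rw [ap_Psi_sub y (LH_wpow N) hLG, ap_Psi_mul hyq ((LH_wpow N').pow (fun _ => r)) (LH_wpow M),
        ap_Psi_pow hyq (LH_wpow N')] at hdiff
      rw [hcdef, sub_eq_zero.mp hdiff, norm_mul, norm_pow]
      calc ‖c'‖ ^ r * ‖ap y (Psi (fun (j : ℤ) z => ww z ^ M j))‖ ≤ ‖c'‖ ^ r * 1 :=
            mul_le_mul_of_nonneg_left (norm_ap_Psi_le y (LH_wpow M)) (by positivity)
        _ = ‖c'‖ ^ r := mul_one _
    have h1 : ‖c‖ ≤ 0 := ge_of_tendsto'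
      (tendsto_pow_atTop_nhds_zero_of_lt_one (norm_nonneg c') (lt_of_le_of_lt hc'1 hρ)) hpow
    exact norm_le_zero_iff.mp h1
  obtain ⟨A, hA⟩ := hf.2
  have hPhi : BH Hp (Phi e f) := hf.Phi e
  have hD : BH Hp (fun z => f z - Phi e f z) := hf.sub hPhi
  have hDb : ∀ z ∈ Hp, ‖f z - Phi e f z‖ ≤ A + A := fun z hz =>
    (norm_sub_le _ _).trans (add_le_add (hA z hz) (norm_Phi_le e hA hz))
  have hL : LH (A + A) (fun (j : ℤ) z => f (z + j) - Phi e f (z + j)) :=
    LH.translates (g := fun z => f z - Phi e f z) hD.1 hDb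
  have hz := ap_Psi_eq_zero_of_big hyq (K := K) (fun V hV => hKp.2.2.2 V hV) hU hw hL (by
    intro V hV z hz
    obtain ⟨W, hW⟩ := exists_add_eq hK he hV
    have hVe : V + e = V := by rw [← hW, add_assoc, hee]
    have h1 := (tendsto_Phi V hf hz).sub (tendsto_Phi V hPhi hz)
    have h2 : Phi V (Phi e f) z = Phi V f z := by
      rw [← Phi_add_uf V e hf hz, hVe]
    rw [h2, sub_self] at h1
    exact h1)
  have h3 := ap_Psi_translates hyq hD
  have h4 : ap y (fun z => f z - Phi e f z) = 0 := by rw [← h3]; exact hz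
  rw [ap_sub y hf hPhi] at h4
  exact sub_eq_zero.mp h4

end

end Pool.Agent.Lib.MP_264cca_an
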