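import Pool.Agent.Lib.MP_264cca_an.Main
import Pool.Agent.Lib.MP_264cca_an.TrivFix

/-!
# One trivial point in the Shilov boundaries of uncountably many nontrivial parts
-/

open Set Topology Filter Metric
open scoped ComplexConjugate Real

namespace Pool.Agent.Lib.MP_264cca_an

attribute [local instance] Ultrafilter.add Ultrafilter.addSemigroup

/-- the point `f ↦ Φ_V f(i)` -/
noncomputable def xV (V : Ultrafilter ℤ) : MaxSpace Hp := (exists_evPhi V I_mem_Hp).choose

lemma ap_xV (V : Ultrafilter ℤ) (f : ℂ → ℂ) (hf : BH Hp f) : ap (xV V) f = Phi V f Complex.I :=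
  (exists_evPhi V I_mem_Hp).choose_spec f hf

lemma tendsto_char {Ω : Set ℂ} {ι : Type*} {l : Filter ι} {x : ι → MaxSpace Ω} {y : MaxSpace Ω}
    (h : ∀ g, BH Ω g → Tendsto (fun i => ap (x i) g) l (𝓝 (ap y g))) : Tendsto x l (𝓝 y) := by
  have hind : IsInducing (fun (m : MaxSpace Ω) (f : Hinf Ω) => m f) := ⟨rfl⟩
  rw [hind.tendsto_nhds_iff, tendsto_pi_nhds]
  intro f
  obtain ⟨g, hg, rfl⟩ := exists_raw f
  have := h g hg
  simp only [ap_eq _ hg] at this
  exact this

lemma part_subset_closure (W U : Ultrafilter ℤ) :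
    part (xV (W + U)) ⊆ closure (part (xV U)) := by
  intro x hx
  obtain ⟨z, hz, hxz⟩ := exists_of_mem_part I_mem_Hp (ap_xV (W + U)) hx
  choose xn hxn using fun n : ℤ => exists_evPhi U (add_int_mem_Hp hz n)
  apply mem_closure_of_tendsto (f := xn) (b := (W : Filter ℤ))
  · apply tendsto_char
    intro g hg
    rw [hxz g hg, Phi_add_uf W U hg hz]
    refine (tendsto_Phi W (hg.Phi U) hz).congr ?_
    intro n
    exact (hxn n g hg).symm
  · exact Eventually.of_forall fun n =>
      mem_part_of_evPhi I_mem_Hp (add_int_mem_Hp hz n) (ap_xV U) (hxn n)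

lemma closure_part_eq {K : Set (Ultrafilter ℤ)} (hK : Minimal (· ∈ {K | IsLI K}) K)
    {U V : Ultrafilter ℤ} (hU : U ∈ K) (hV : V ∈ K) :
    closure (part (xV U)) = closure (part (xV V)) := by
  have key : ∀ {U V : Ultrafilter ℤ}, U ∈ K → V ∈ K →
      closure (part (xV U)) ⊆ closure (part (xV V)) := by
    intro U V hU hV
    obtain ⟨W, hW⟩ := exists_add_eq hK hV hU
    rw [← hW]
    exact closure_minimal (part_subset_closure W V) isClosed_closure
  exact Subset.antisymm (key hU hV) (key hV hU)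

lemma shilov_congr {Ω : Set ℂ} {P P' : Set (MaxSpace Ω)} (h : closure P = closure P') :
    shilov P = shilov P' := by
  unfold shilov IsClosedBoundary
  rw [h]

lemma nontrivial_xV (V : Ultrafilter ℤ) : IsNontrivialPart (part (xV V)) := by
  refine ⟨⟨xV V, rfl⟩, ?_⟩
  rintro ⟨m, hm⟩
  have h2 : (2 * Complex.I : ℂ) ∈ Hp := by simp [mem_Hp]
  obtain ⟨x, hx⟩ := exists_evPhi V h2
  have h3 : x ∈ part (xV V) := mem_part_of_evPhi I_mem_Hp h2 (ap_xV V) hx
  have h4 : xV V ∈ part (xV V) := self_mem_part _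
  rw [hm, mem_singleton_iff] at h3 h4
  have h5 : ap x qq = ap (xV V) qq := by rw [h3, h4]
  rw [hx qq BH_qq, ap_xV V qq BH_qq, Phi_qq, Phi_qq] at h5
  have h6 := congrArg norm h5
  rw [norm_qq, norm_qq] at h6
  have h7 := Real.exp_injective h6
  simp at h7

/-- the counterexample to uniqueness on the upper half plane -/
theorem main_Hp2 : ∃ m : MaxSpace Hp, part m = {m} ∧
    ¬ {P : Set (MaxSpace Hp) | IsNontrivialPart P ∧ m ∈ shilov P}.Countable := by
  obtain ⟨K, hK⟩ := exists_minimal_LI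
  obtain ⟨e, he, hee⟩ := exists_idem hK
  have hqn : ∀ z ∈ Hp, ‖qq z‖ ≤ 1 := fun z hz => (norm_qq_lt_one hz).le
  set P₀ : Set (MaxSpace Hp) := part (xV e) with hP₀
  have hP₀ne : P₀.Nonempty := ⟨xV e, self_mem_part _⟩
  -- the function `q` attains the value one on `clos P₀`
  have hre : ∀ x : MaxSpace Hp, (x (toH qq BH_qq)).re ≤ 1 := by
    intro x
    rw [← ap_eq x BH_qq]
    exact (Complex.re_le_norm _).trans (ap_norm_le x BH_qq.1 hqn)
  have hex : ∃ x ∈ closure P₀, (x (toH qq BH_qq)).re = 1 := by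
    obtain ⟨x, hx, hmax⟩ := isClosed_closure.isCompact.exists_isMaxOn hP₀ne.closure
      ((Complex.continuous_re.comp (continuous_eval (toH qq BH_qq))).continuousOn)
    refine ⟨x, hx, le_antisymm (hre x) ?_⟩
    have h1 : ∀ t : ℝ, 0 < t → Real.exp (-(2 * π * t)) ≤ (x (toH qq BH_qq)).re := by
      intro t ht
      have hz : (t * Complex.I : ℂ) ∈ Hp := by simp [mem_Hp, ht]
      obtain ⟨y, hy⟩ := exists_evPhi e hz
      have hy2 : y ∈ closure P₀ :=
        subset_closure (mem_part_of_evPhi I_mem_Hp hz (ap_xV e) hy)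
      have h2 := hmax hy2
      simp only [mem_ofPred_eq, Function.comp_apply] at h2
      rw [← ap_eq y BH_qq, hy qq BH_qq, Phi_qq] at h2
      refine le_trans (le_of_eq ?_) h2
      unfold qq
      have : 2 * π * Complex.I * (t * Complex.I) = ((-(2 * π * t) : ℝ) : ℂ) := by
        push_cast
        linear_combination (2 * (π : ℂ) * t) * Complex.I_mul_I
      rw [this, ← Complex.ofReal_exp, Complex.ofReal_re]
    have h5 : Tendsto (fun t : ℝ => Real.exp (-(2 * π * t))) (𝓝[>] 0) (𝓝 1) := by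
      have : Tendsto (fun t : ℝ => Real.exp (-(2 * π * t))) (𝓝 0) (𝓝 (Real.exp (-(2 * π * 0)))) := by
        apply Continuous.tendsto
        fun_prop
      rw [mul_zero, neg_zero, Real.exp_zero] at this
      exact this.mono_left nhdsWithin_le_nhds
    refine le_of_tendsto h5 ?_
    filter_upwards [self_mem_nhdsWithin] with t ht
    exact h1 t ht
  obtain ⟨m, hm, hmq, hmu⟩ := exists_point hP₀ne (fun x _ => hre x) hex
  have hmcl : m ∈ closure P₀ := shilov_subset_closure hP₀ne hm
  have hmq1 : ap m qq = 1 := by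
    rw [← ap_eq m BH_qq] at hmq
    have h1 : ‖ap m qq‖ ≤ 1 := ap_norm_le m BH_qq.1 hqn
    have h2 : ‖ap m qq‖ ^ 2 = (ap m qq).re ^ 2 + (ap m qq).im ^ 2 := by
      rw [← Complex.normSq_eq_norm_sq, Complex.normSq_apply]; ring
    have h3 : ‖ap m qq‖ ^ 2 ≤ 1 := pow_le_one₀ (norm_nonneg _) h1
    rw [hmq] at h2
    have h4 : (ap m qq).im = 0 := by
      have : (ap m qq).im ^ 2 ≤ 0 := by linarith
      exact pow_eq_zero_iff two_ne_zero |>.mp (le_antisymm this (sq_nonneg _))
    exact Complex.ext hmq h4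
  -- the part of `m` is trivial
  have htriv : part m = {m} := by
    apply Subset.antisymm
    · intro y hy
      obtain ⟨ρ, hρ, hn⟩ := mem_part_iff.mp hy
      obtain ⟨c, hc0, hc1, hc⟩ := harnack hρ hn
      have hfixy : ∀ g, BH Hp g → ap y g = ap y (Phi e g) := fun g hg =>
        ap_fix hK he hee (ap_xV e) hmcl hmq1 hy hg
      have hfixm : ∀ g, BH Hp g → ap m g = ap m (Phi e g) := fun g hg =>
        ap_fix hK he hee (ap_xV e) hmcl hmq1 (self_mem_part m) hg
      have hpos : ∀ g (hg : BH Hp g), PosOn P₀ (toH g hg) → ∀ z ∈ Hp, 0 ≤ (Phi e g z).re := by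
        intro g hg hP z hz
        obtain ⟨x, hx⟩ := exists_evPhi e hz
        have h1 := hP x (subset_closure (mem_part_of_evPhi I_mem_Hp hz (ap_xV e) hx))
        rwa [← ap_eq x hg, hx g hg] at h1
      rw [mem_singleton_iff]
      apply hmu y c hc0 hc1
      · intro f hf
        obtain ⟨g, hg, rfl⟩ := exists_raw f
        rw [← ap_eq y hg, hfixy g hg]
        exact (hc _ (hg.Phi e) (hpos g hg hf)).2
      · intro f hf
        obtain ⟨g, hg, rfl⟩ := exists_raw f
        rw [← ap_eq y hg, ← ap_eq m hg, hfixy g hg, hfixm g hg]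
        exact (hc _ (hg.Phi e) (hpos g hg hf)).1
    · rintro x rfl
      exact self_mem_part _
  refine ⟨m, htriv, fun hcount => ?_⟩
  -- uncountably many parts
  apply not_countable_LI hK
  have hcov : K ⊆ ⋃ P ∈ {P : Set (MaxSpace Hp) | IsNontrivialPart P ∧ m ∈ shilov P},
      {V | V ∈ K ∧ part (xV V) = P} := by
    intro V hV
    refine mem_iUnion₂.mpr ⟨part (xV V), ⟨nontrivial_xV V, ?_⟩, hV, rfl⟩
    rw [shilov_congr (closure_part_eq hK hV he)]
    exact hm
  refine (Countable.biUnion hcount (fun P _ => ?_)).mono hcov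
  by_cases hne : {V | V ∈ K ∧ part (xV V) = P}.Nonempty
  · obtain ⟨V₀, -, hV₀⟩ := hne
    apply (countable_range (fun k : ℤ => V₀.map (fun m => m + k))).mono
    rintro V ⟨-, hV⟩
    have h1 : xV V ∈ part (xV V₀) := by
      rw [hV₀, ← hV]
      exact self_mem_part _
    obtain ⟨ρ, hρ, hn⟩ := mem_part_iff.mp h1
    obtain ⟨k, hk⟩ := exists_shift_of_near hρ hn I_mem_Hp I_mem_Hp (ap_xV V₀) (ap_xV V)
    exact ⟨k, hk.symm⟩
  · rw [not_nonempty_iff_eq_empty] at hne
    rw [hne]
    exact countable_empty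

/-- the counterexample to uniqueness on the unit disc -/
theorem main_disc2 : ∃ m : MaxSpace (ball (0 : ℂ) 1), part m = {m} ∧
    ¬ {P : Set (MaxSpace (ball (0 : ℂ) 1)) | IsNontrivialPart P ∧ m ∈ shilov P}.Countable := by
  obtain ⟨y, hy, hP⟩ := main_Hp2
  have hc : MapsTo cc (ball 0 1) Hp := fun _ h => cc_mem_Hp h
  have h1 : ∀ z ∈ Hp, cc (ww z) = z := fun z hz => cc_ww hz
  have h2 : ∀ z ∈ ball (0 : ℂ) 1, ww (cc z) = z := fun z hz => ww_cc hz
  set e : MaxSpace Hp ≃ₜ MaxSpace (ball (0 : ℂ) 1) :=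
    pushHomeo ww_differentiableOn ww_mapsTo cc_differentiableOn hc h1 h2 with he
  have e1 : ∀ w : MaxSpace Hp, push cc_differentiableOn hc (e w) = w := fun w =>
    e.symm_apply_apply w
  have hrho : ∀ x x' : MaxSpace Hp, rho (e x) (e x') = rho x x' := by
    intro x x'
    apply le_antisymm
    · have := rho_push_le cc_differentiableOn hc ww_differentiableOn ww_mapsTo h2 (e x) (e x')
      rwa [e1, e1] at this
    · exact rho_push_le ww_differentiableOn ww_mapsTo cc_differentiableOn hc h1 x x'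
  refine ⟨e y, ?_, fun hcount => hP ?_⟩
  · rw [part_image e hrho, hy, image_singleton]
  · -- `P ↦ e '' P` is injective and maps good parts to good parts
    have hinj : Function.Injective (fun P : Set (MaxSpace Hp) => e '' P) :=
      e.injective.image_injective
    refine (hcount.preimage hinj).mono ?_
    rintro P ⟨⟨⟨m, rfl⟩, hnt⟩, hmem⟩
    refine ⟨⟨⟨e m, (part_image e hrho m).symm⟩, ?_⟩, ?_⟩
    · rintro ⟨m', hm'⟩
      apply hnt
      refine ⟨e.symm m', ?_⟩
      have h3 : e '' part m = e '' {e.symm m'} := by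
        rw [image_singleton, e.apply_symm_apply]
        exact hm'
      exact hinj h3
    · intro E hE
      -- pull `E` back
      have h3 : IsClosedBoundary (e.symm '' (e '' part m)) (e.symm '' E) := by
        apply isClosedBoundary_image e.symm (pull cc cc_differentiableOn hc) _ hE
        intro x f
        rfl
      have h4 : e.symm '' (e '' part m) = part m := by
        rw [image_image]
        simp
      rw [h4] at h3
      obtain ⟨u, hu, huy⟩ := hmem _ h3
      have : u = e y := by rw [← huy, e.apply_symm_apply]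
      rwa [← this]

end Pool.Agent.Lib.MP_264cca_an
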