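import Pool.Agent.Lib.MP_264cca_an.CaseA
import Pool.Agent.Lib.MP_264cca_an.Idempotent

/-!
# Minimal closed left ideals of nonprincipal ultrafilters on `ℤ`
-/

open Set Topology Filter Metric

namespace Pool.Agent.Lib.MP_264cca_an

attribute [local instance] Ultrafilter.add Ultrafilter.addSemigroup

/-- closed left ideals of nonprincipal ultrafilters -/
def IsLI (K : Set (Ultrafilter ℤ)) : Prop :=
  IsClosed K ∧ K.Nonempty ∧ (∀ V ∈ K, ∀ W : Ultrafilter ℤ, W + V ∈ K) ∧
    ∀ V ∈ K, Tendsto (fun j : ℤ => j.natAbs) V atTop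

lemma isLI_all : IsLI {V : Ultrafilter ℤ | Tendsto (fun j : ℤ => j.natAbs) V atTop} := by
  refine ⟨?_, ?_, ?_, fun V hV => hV⟩
  · have e : {V : Ultrafilter ℤ | Tendsto (fun j : ℤ => j.natAbs) V atTop} =
        ⋂ n : ℕ, {V : Ultrafilter ℤ | {j : ℤ | n ≤ j.natAbs} ∈ V} := by
      ext V
      simp only [mem_ofPred_eq, mem_iInter, Filter.tendsto_atTop]
      rfl
    rw [e]
    exact isClosed_iInter fun n => ultrafilter_isClosed_basic _
  · obtain ⟨U, hU, -⟩ := exists_recurrent
    exact ⟨U, hU⟩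
  · intro V hV W
    show Tendsto (fun j : ℤ => j.natAbs) (W + V : Ultrafilter ℤ) atTop
    rw [Filter.tendsto_atTop]
    intro n
    rw [Ultrafilter.eventually_add]
    refine Eventually.of_forall fun k => ?_
    filter_upwards [hV.eventually_ge_atTop (n + k.natAbs)] with m hm
    omega

theorem exists_minimal_LI : ∃ K : Set (Ultrafilter ℤ), Minimal (· ∈ {K | IsLI K}) K := by
  obtain ⟨K, -, hK⟩ := zorn_superset_nonempty {K : Set (Ultrafilter ℤ) | IsLI K} (by
    intro c hc hchain hne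
    refine ⟨⋂₀ c, ⟨isClosed_sInter fun K hK => (hc hK).1, ?_, ?_, ?_⟩,
      fun K hK => sInter_subset_of_mem hK⟩
    · have : Nonempty c := hne.to_subtype
      rw [sInter_eq_iInter]
      apply IsCompact.nonempty_iInter_of_directed_nonempty_isCompact_isClosed _
      · intro s t
        obtain h | h := hchain.total s.2 t.2
        exacts [⟨s, Subset.rfl, h⟩, ⟨t, h, Subset.rfl⟩]
      · exact fun s => (hc s.2).2.1
      · exact fun s => (hc s.2).1.isCompact
      · exact fun s => (hc s.2).1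
    · intro V hV W
      rw [mem_sInter] at hV ⊢
      exact fun K hK => (hc hK).2.2.1 V (hV K hK) W
    · intro V hV
      obtain ⟨K, hK⟩ := hne
      exact (hc hK).2.2.2 V (hV K hK)) _ isLI_all
  exact ⟨K, hK⟩

section

variable {K : Set (Ultrafilter ℤ)} (hK : Minimal (· ∈ {K | IsLI K}) K)
include hK

lemma exists_add_eq {U V : Ultrafilter ℤ} (hU : U ∈ K) (hV : V ∈ K) :
    ∃ W : Ultrafilter ℤ, W + U = V := by
  have hKp : IsLI K := hK.prop
  have h1 : IsLI (range (fun W : Ultrafilter ℤ => W + U)) := by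
    refine ⟨(isCompact_range (Ultrafilter.continuous_add_left U)).isClosed, ⟨U + U, U, rfl⟩,
      ?_, ?_⟩
    · rintro _ ⟨W, rfl⟩ W'
      exact ⟨W' + W, add_assoc _ _ _⟩
    · rintro _ ⟨W, rfl⟩
      exact hKp.2.2.2 _ (hKp.2.2.1 U hU W)
  have h2 : range (fun W : Ultrafilter ℤ => W + U) ⊆ K := by
    rintro _ ⟨W, rfl⟩
    exact hKp.2.2.1 U hU W
  obtain ⟨W, hW⟩ := hK.le_of_le h1 h2 hV
  exact ⟨W, hW⟩

lemma exists_idem : ∃ e ∈ K, e + e = e := by
  have hKp : IsLI K := hK.prop
  exact exists_idempotent_in_compact_add_subsemigroup Ultrafilter.continuous_add_left K hKp.2.1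
    hKp.1.isCompact (fun x _ y hy => hKp.2.2.1 y hy x)

lemma map_add_mem {V : Ultrafilter ℤ} (hV : V ∈ K) (k : ℤ) : V.map (fun m => m + k) ∈ K := by
  have hKp : IsLI K := hK.prop
  have h := hKp.2.2.1 V hV (pure k)
  have e : (pure k : Ultrafilter ℤ) + V = V.map (fun m => m + k) := by
    apply Ultrafilter.coe_inj.mp
    apply Filter.ext
    intro s
    have h1 : s ∈ ((pure k + V : Ultrafilter ℤ) : Filter ℤ) ↔
        ∀ᶠ m in ((pure k : Ultrafilter ℤ) : Filter ℤ), ∀ᶠ m' in (V : Filter ℤ), m + m' ∈ s :=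
      Ultrafilter.eventually_add (pure k) V (fun m => m ∈ s)
    rw [h1]
    have h2 : (((pure k : Ultrafilter ℤ)) : Filter ℤ) = (pure k : Filter ℤ) := rfl
    rw [h2, Filter.eventually_pure]
    show (∀ᶠ m' in (V : Filter ℤ), k + m' ∈ s) ↔ (fun m => m + k) ⁻¹' s ∈ (V : Filter ℤ)
    have e2 : (fun m : ℤ => m + k) ⁻¹' s = {m' | k + m' ∈ s} := by
      ext m
      show m + k ∈ s ↔ k + m ∈ s
      rw [add_comm]
    rw [e2]
    rfl
  rwa [e] at h

/-- a minimal closed left ideal is uncountable -/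
theorem not_countable_LI : ¬ K.Countable := by
  intro hc
  have hKp : IsLI K := hK.prop
  have hKc : IsCompact K := hKp.1.isCompact
  have : CompactSpace K := isCompact_iff_compactSpace.mp hKc
  have : Countable K := hc.to_subtype
  obtain ⟨V₁, hV₁⟩ := hKp.2.1
  have : Nonempty K := ⟨⟨V₁, hV₁⟩⟩
  obtain ⟨V₀, hV₀⟩ := nonempty_interior_of_iUnion_of_closed (f := fun V : K => ({V} : Set K))
    (fun V => isClosed_singleton) (by ext V; simp)
  have hop : IsOpen ({V₀} : Set K) := by
    have h1 : interior ({V₀} : Set K) = {V₀} := by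
      apply Subset.antisymm interior_subset
      obtain ⟨V, hV⟩ := hV₀
      have h2 : V = V₀ := mem_singleton_iff.mp (interior_subset hV)
      rw [singleton_subset_iff]
      exact h2 ▸ hV
    rw [← h1]
    exact isOpen_interior
  obtain ⟨O, hO, hOV⟩ := isOpen_induced_iff.mp hop
  have hV₀O : (V₀ : Ultrafilter ℤ) ∈ O := by
    have : V₀ ∈ Subtype.val ⁻¹' O := by rw [hOV]; rfl
    exact this
  obtain ⟨_, ⟨s, rfl⟩, hs1, hs2⟩ :=
    ultrafilterBasis_is_basis.exists_subset_of_mem_open hV₀O hO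
  have hs : ∀ V ∈ K, s ∈ V → V = V₀ := by
    intro V hV hsV
    have h1 : (⟨V, hV⟩ : K) ∈ Subtype.val ⁻¹' O := hs2 hsV
    rw [hOV] at h1
    exact congrArg Subtype.val (mem_singleton_iff.mp h1)
  -- every element is a translate
  have htr : ∀ V ∈ K, ∃ k : ℤ, s ∈ V.map (fun m => m + k) := by
    intro V hV
    obtain ⟨W, hW⟩ := exists_add_eq hK hV V₀.2
    have h1 : s ∈ (W + V : Ultrafilter ℤ) := by rw [hW]; exact hs1
    have h2 : ∀ᶠ k in (W : Filter ℤ), ∀ᶠ m in (V : Filter ℤ), k + m ∈ s :=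
      (Ultrafilter.eventually_add W V (fun m => m ∈ s)).mp h1
    obtain ⟨k, hk⟩ := h2.exists
    refine ⟨k, ?_⟩
    rw [Ultrafilter.mem_map]
    have e2 : (fun m : ℤ => m + k) ⁻¹' s = {m' | k + m' ∈ s} := by
      ext m
      show m + k ∈ s ↔ k + m ∈ s
      rw [add_comm]
    rw [e2]
    exact hk
  have hback : ∀ (V : Ultrafilter ℤ) (k : ℤ),
      (V.map (fun m => m + k)).map (fun m => m + (-k)) = V := by
    intro V k
    rw [Ultrafilter.map_map]
    have : (fun m : ℤ => m + (-k)) ∘ (fun m => m + k) = id := by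
      funext m; simp
    rw [this, Ultrafilter.map_id]
  obtain ⟨T, hT⟩ := hKc.elim_finite_subcover
    (fun k : ℤ => {V : Ultrafilter ℤ | (fun m => m + k) ⁻¹' s ∈ V})
    (fun k => ultrafilter_isOpen_basic _) (by
      intro V hV
      obtain ⟨k, hk⟩ := htr V hV
      exact mem_iUnion.mpr ⟨k, Ultrafilter.mem_map.mp hk⟩)
  have hfin : K.Finite := by
    apply Set.Finite.subset (T.finite_toSet.image
      (fun k : ℤ => (V₀ : Ultrafilter ℤ).map (fun m => m + (-k))))
    intro V hV
    have h1 := hT hV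
    simp only [mem_iUnion] at h1
    obtain ⟨k, hkT, hk⟩ := h1
    refine ⟨k, hkT, ?_⟩
    have h2 : V.map (fun m => m + k) = V₀ := hs _ (map_add_mem hK hV k) (Ultrafilter.mem_map.mpr hk)
    show (V₀ : Ultrafilter ℤ).map (fun m => m + (-k)) = V
    rw [← h2, hback]
  have hinf : K.Infinite := by
    apply Set.infinite_of_injective_forall_mem (f := fun k : ℤ => V₁.map (fun m => m + k))
    · intro k l hkl
      by_contra hne
      have h3 : (V₁.map (fun m => m + k)).map (fun m => m + (-l)) = V₁ := by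
        have : V₁.map (fun m => m + k) = V₁.map (fun m => m + l) := hkl
        rw [this, hback]
      rw [Ultrafilter.map_map] at h3
      have h4 : (fun m : ℤ => m + (-l)) ∘ (fun m => m + k) = fun m => m + (k - l) := by
        funext m; simp only [Function.comp_apply]; ring
      rw [h4] at h3
      exact map_add_ne (sub_ne_zero.mpr hne) h3
    · exact fun k => map_add_mem hK hV₁ k
  exact hinf hfin

end

/-- `Φ_{W+U} = Φ_W ∘ Φ_U` -/
lemma Phi_add_uf (W U : Ultrafilter ℤ) {g : ℂ → ℂ} (hg : BH Hp g) {z : ℂ} (hz : z ∈ Hp) :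
    Phi (W + U) g z = Phi W (Phi U g) z := by
  symm
  apply ulim_eq
  rw [Metric.tendsto_nhds]
  intro ε hε
  have h1 : ∀ᶠ k : ℤ in ((W + U : Ultrafilter ℤ) : Filter ℤ),
      dist (g (z + (k : ℂ))) (Phi (W + U) g z) < ε / 2 :=
    (Metric.tendsto_nhds.mp (tendsto_Phi (W + U) hg hz)) (ε / 2) (by positivity)
  rw [Ultrafilter.eventually_add] at h1
  filter_upwards [h1] with m hm
  have h3 : Tendsto (fun k : ℤ => dist (g (z + m + k)) (Phi (W + U) g z)) U
      (𝓝 (dist (Phi U g (z + m)) (Phi (W + U) g z))) :=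
    (tendsto_Phi U hg (add_int_mem_Hp hz _)).dist tendsto_const_nhds
  have h4 : dist (Phi U g (z + m)) (Phi (W + U) g z) ≤ ε / 2 := by
    apply le_of_tendsto h3
    filter_upwards [hm] with m' hm'
    have e : z + (m : ℂ) + (m' : ℂ) = z + ((m + m' : ℤ) : ℂ) := by
      push_cast
      ring
    rw [e]
    exact hm'.le
  linarith

end Pool.Agent.Lib.MP_264cca_an
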