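import Pool.Agent.Lib.MP_264cca_an.Interp2

/-!
# Different `ℤ`-orbits of ultrafilters give different Gleason parts
-/

open Set Topology Filter Metric
open scoped ComplexConjugate Real

namespace Pool.Agent.Lib.MP_264cca_an

/-- one term of the Nevanlinna sum -/
noncomputable def tt (j : ℤ) (z : ℂ) : ℂ :=
  Complex.I * ((1 + j * z) / ((z - j) * (1 + (j : ℂ) ^ 2)))

lemma one_add_sq_ne (j : ℤ) : (1 + (j : ℂ) ^ 2) ≠ 0 := by
  have h : (0 : ℝ) < 1 + (j : ℝ) ^ 2 := by positivity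
  have h2 : ((1 + (j : ℝ) ^ 2 : ℝ) : ℂ) ≠ 0 := by exact_mod_cast h.ne'
  push_cast at h2
  exact h2

lemma tt_eq {z : ℂ} (hz : z ∈ Hp) (j : ℤ) :
    tt j z = Complex.I / (z - j) + Complex.I * ((j / (1 + (j : ℝ) ^ 2) : ℝ) : ℂ) := by
  have h1 := Hp_ne_zero (sub_int_mem_Hp hz j)
  have h2 := one_add_sq_ne j
  unfold tt
  push_cast
  field_simp
  ring

lemma tt_re {z : ℂ} (hz : z ∈ Hp) (j : ℤ) : (tt j z).re = z.im / ‖z - j‖ ^ 2 := by
  rw [tt_eq hz j, Complex.add_re, Complex.re_mul_ofReal, Complex.I_re, zero_mul, add_zero,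
    Complex.div_re, Complex.I_re, Complex.I_im, zero_mul, zero_div, zero_add, one_mul,
    Complex.normSq_eq_norm_sq]
  simp

lemma tt_bound {z : ℂ} {R δ : ℝ} (hδ : 0 < δ) (hz : δ ≤ z.im) (hR : ‖z‖ ≤ R) (j : ℤ) :
    ‖tt j z‖ ≤ ((1 + R) * (1 + (1 + R) / δ)) * (1 / (1 + (j : ℝ) ^ 2)) := by
  have hR0 : 0 ≤ R := (norm_nonneg _).trans hR
  have hzH : z ∈ Hp := lt_of_lt_of_le hδ hz
  have h1 : δ ≤ ‖z - j‖ := by
    have := Complex.abs_im_le_norm (z - j)
    have h2 : (z - j).im = z.im := by simp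
    rw [h2] at this
    exact hz.trans ((le_abs_self _).trans this)
  have hpos : 0 < ‖z - j‖ := lt_of_lt_of_le hδ h1
  have h2 : |(j : ℝ)| ≤ ‖z - j‖ + R := by
    have : ((j : ℝ) : ℂ) = z - (z - j) := by push_cast; ring
    calc |(j : ℝ)| = ‖((j : ℝ) : ℂ)‖ := by simp
      _ = ‖z - (z - j)‖ := by rw [this]
      _ ≤ ‖z‖ + ‖z - j‖ := norm_sub_le _ _
      _ ≤ ‖z - j‖ + R := by linarith
  have h3 : ‖(1 + j * z : ℂ)‖ ≤ (1 + |(j : ℝ)|) * (1 + R) := by
    calc ‖(1 + j * z : ℂ)‖ ≤ ‖(1 : ℂ)‖ + ‖(j * z : ℂ)‖ := norm_add_le _ _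
      _ = 1 + |(j : ℝ)| * ‖z‖ := by
          rw [norm_one, norm_mul]
          congr 2
          rw [← Complex.ofReal_intCast, Complex.norm_real, Real.norm_eq_abs]
      _ ≤ (1 + |(j : ℝ)|) * (1 + R) := by
          have := abs_nonneg (j : ℝ)
          nlinarith [mul_le_mul_of_nonneg_left hR this]
  have h4 : (1 + |(j : ℝ)|) ≤ (1 + (1 + R) / δ) * ‖z - j‖ := by
    have h5 : 1 + R ≤ (1 + R) / δ * ‖z - j‖ := by
      rw [div_mul_eq_mul_div, le_div_iff₀ hδ]
      exact mul_le_mul_of_nonneg_left h1 (by linarith)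
    linarith
  have hden : ‖((z - j) * (1 + (j : ℂ) ^ 2))‖ = ‖z - j‖ * (1 + (j : ℝ) ^ 2) := by
    rw [norm_mul]
    congr 1
    have : (1 + (j : ℂ) ^ 2) = ((1 + (j : ℝ) ^ 2 : ℝ) : ℂ) := by push_cast; rfl
    rw [this, Complex.norm_real, Real.norm_of_nonneg (by positivity)]
  unfold tt
  rw [norm_mul, Complex.norm_I, one_mul, norm_div, hden, mul_one_div,
    div_le_div_iff₀ (by positivity) (by positivity)]
  calc ‖(1 + j * z : ℂ)‖ * (1 + (j : ℝ) ^ 2)
      ≤ ((1 + |(j : ℝ)|) * (1 + R)) * (1 + (j : ℝ) ^ 2) := by gcongr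
    _ ≤ (((1 + (1 + R) / δ) * ‖z - j‖) * (1 + R)) * (1 + (j : ℝ) ^ 2) := by gcongr
    _ = (1 + R) * (1 + (1 + R) / δ) * (‖z - j‖ * (1 + (j : ℝ) ^ 2)) := by ring

lemma tt_differentiableOn (j : ℤ) : DifferentiableOn ℂ (tt j) Hp := by
  unfold tt
  apply DifferentiableOn.const_mul
  apply DifferentiableOn.div
  · exact (by fun_prop : Differentiable ℂ fun z : ℂ => 1 + (j : ℂ) * z).differentiableOn
  · exact (by fun_prop : Differentiable ℂ fun z : ℂ => (z - j) * (1 + (j : ℂ) ^ 2)).differentiableOn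
  · intro z hz
    exact mul_ne_zero (Hp_ne_zero (sub_int_mem_Hp hz j)) (one_add_sq_ne j)

open Classical in
/-- the Nevanlinna sum over `J` -/
noncomputable def RJ (J : Set ℤ) (z : ℂ) : ℂ := ∑' j : ℤ, if j ∈ J then tt j z else 0

open Classical in
lemma summable_RJ (J : Set ℤ) {z : ℂ} (hz : z ∈ Hp) :
    Summable (fun j : ℤ => if j ∈ J then tt j z else 0) := by
  apply Summable.of_norm_bounded
    (g := fun j : ℤ => ((1 + ‖z‖) * (1 + (1 + ‖z‖) / z.im)) * (1 / (1 + (j : ℝ) ^ 2)))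
    (summable_inv_one_add_sq.mul_left _)
  intro j
  have hz' := mem_Hp.mp hz
  by_cases h : j ∈ J
  · simp only [h, if_true]
    exact tt_bound hz' le_rfl le_rfl j
  · simp only [h, if_false, norm_zero]
    positivity

lemma RJ_differentiableOn (J : Set ℤ) : DifferentiableOn ℂ (RJ J) Hp := by
  classical
  intro z hz
  have hz' := mem_Hp.mp hz
  set R := ‖z‖ + 1 with hR
  set δ := z.im / 2 with hδ
  have hδ0 : 0 < δ := by positivity
  have hopen : IsOpen ({w : ℂ | δ < w.im} ∩ ball (0 : ℂ) R) :=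
    (isOpen_lt continuous_const Complex.continuous_im).inter isOpen_ball
  have hzmem : z ∈ {w : ℂ | δ < w.im} ∩ ball (0 : ℂ) R :=
    ⟨by show δ < z.im; rw [hδ]; linarith, by simp [hR]⟩
  have h := Complex.differentiableOn_tsum_of_summable_norm
    (u := fun j : ℤ => ((1 + R) * (1 + (1 + R) / δ)) * (1 / (1 + (j : ℝ) ^ 2)))
    (F := fun (j : ℤ) (z : ℂ) => if j ∈ J then tt j z else 0)
    (U := {w : ℂ | δ < w.im} ∩ ball (0 : ℂ) R)
    (summable_inv_one_add_sq.mul_left _)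
    (by
      intro j
      by_cases h : j ∈ J
      · simp only [h, if_true]
        exact (tt_differentiableOn j).mono (fun w hw => lt_trans hδ0 hw.1)
      · simp only [h, if_false]
        exact differentiableOn_const _)
    hopen
    (by
      intro j w hw
      have hw2 : ‖w‖ < R := by simpa using hw.2
      have hw1 : δ < w.im := hw.1
      by_cases h : j ∈ J
      · simp only [h, if_true]
        exact tt_bound hδ0 hw1.le hw2.le j
      · simp only [h, if_false, norm_zero]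
        have : 0 ≤ R := (norm_nonneg _).trans hw2.le
        positivity)
  exact (h.differentiableAt (hopen.mem_nhds hzmem)).differentiableWithinAt

open Classical in
lemma RJ_re_hasSum (J : Set ℤ) {z : ℂ} (hz : z ∈ Hp) :
    HasSum (fun j : ℤ => if j ∈ J then z.im / ‖z - j‖ ^ 2 else 0) (RJ J z).re := by
  have h := Complex.hasSum_re (summable_RJ J hz).hasSum
  have e : (fun j : ℤ => if j ∈ J then z.im / ‖z - j‖ ^ 2 else 0) =
      fun j : ℤ => ((if j ∈ J then tt j z else 0 : ℂ)).re := by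
    funext j
    split_ifs
    · rw [tt_re hz]
    · simp
  rw [e]
  exact h

lemma RJ_re_nonneg (J : Set ℤ) {z : ℂ} (hz : z ∈ Hp) : 0 ≤ (RJ J z).re := by
  classical
  apply (RJ_re_hasSum J hz).nonneg
  intro j
  have := mem_Hp.mp hz
  split_ifs <;> positivity

lemma RJ_re_ge (J : Set ℤ) {z : ℂ} (hz : z ∈ Hp) {j : ℤ} (hj : j ∈ J) :
    z.im / ‖z - j‖ ^ 2 ≤ (RJ J z).re := by
  classical
  have h := le_hasSum (RJ_re_hasSum J hz) j (fun i _ => by
    have := mem_Hp.mp hz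
    split_ifs <;> positivity)
  simpa [hj] using h

lemma summable_im_div (z : ℂ) (hz : z ∈ Hp) :
    Summable (fun j : ℤ => z.im / ‖z + j‖ ^ 2) := by
  classical
  have h := (RJ_re_hasSum univ hz).summable
  simp only [mem_univ, if_true] at h
  have h2 := (Equiv.neg ℤ).summable_iff.mpr h
  refine h2.congr ?_
  intro j
  simp

lemma RJ_re_le (J : Set ℤ) {z : ℂ} (hz : z ∈ Hp) (s : Finset ℤ) {m : ℤ}
    (hm : ∀ j ∈ J, m - j ∉ s) :
    (RJ J (z + m)).re ≤ ∑' l : {l : ℤ // l ∉ s}, z.im / ‖z + (l : ℤ)‖ ^ 2 := by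
  classical
  have hzm := add_int_mem_Hp hz m
  have h1 := RJ_re_hasSum J hzm
  -- reindex `l = m - j`
  have h2 : HasSum (fun l : ℤ => if m - l ∈ J then z.im / ‖z + l‖ ^ 2 else 0)
      (RJ J (z + m)).re := by
    rw [← (Equiv.subLeft m).hasSum_iff]
    convert h1 using 2 with j
    simp only [Function.comp_apply, Equiv.subLeft_apply, sub_sub_cancel]
    have e1 : z + ((m - j : ℤ) : ℂ) = z + m - j := by push_cast; ring
    rw [e1]
    simp
  rw [← h2.tsum_eq]
  have hs := summable_im_div z hz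
  have hz' := mem_Hp.mp hz
  have h3 : Summable (fun l : ℤ => if l ∈ s then 0 else z.im / ‖z + l‖ ^ 2) := by
    apply Summable.of_nonneg_of_le _ _ hs
    · intro l; split_ifs <;> positivity
    · intro l; split_ifs
      · positivity
      · exact le_rfl
  have h4 : ∑' l : ℤ, (if m - l ∈ J then z.im / ‖z + l‖ ^ 2 else 0) ≤
      ∑' l : ℤ, (if l ∈ s then 0 else z.im / ‖z + l‖ ^ 2) := by
    apply h2.summable.tsum_le_tsum _ h3
    intro l
    by_cases hl : m - l ∈ J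
    · have hls : l ∉ s := by
        have := hm _ hl
        rwa [sub_sub_cancel] at this
      simp [hl, hls]
    · simp only [hl, if_false]
      split_ifs <;> positivity
  refine h4.trans (le_of_eq ?_)
  have h5 := tsum_subtype ({l | l ∉ s} : Set ℤ) (fun l : ℤ => z.im / ‖z + l‖ ^ 2)
  refine Eq.trans ?_ h5.symm
  apply tsum_congr
  intro l
  by_cases hl : l ∈ s
  · simp [hl]
  · simp [hl]

/-- **Claim 2.** -/
theorem exists_shift_of_near {x x' : MaxSpace Hp} {ρ : ℝ} (hρ : ρ < 1) (hn : Near ρ x x')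
    {z₁ z₂ : ℂ} (hz₁ : z₁ ∈ Hp) (hz₂ : z₂ ∈ Hp) {V V' : Ultrafilter ℤ}
    (hx : ∀ f, BH Hp f → ap x f = Phi V f z₁) (hx' : ∀ f, BH Hp f → ap x' f = Phi V' f z₂) :
    ∃ k : ℤ, V' = V.map (fun m => m + k) := by
  classical
  by_contra hcon
  push Not at hcon
  have hρ0 : 0 ≤ ρ := by
    have := hn (fun _ => 0) (differentiableOn_const _) (fun _ _ => by simp)
    rw [ap_const, ap_const] at this
    simpa using this
  -- choose separating sets
  have hS : ∀ k : ℤ, ∃ S : Set ℤ, S ∈ V.map (fun m => m + k) ∧ S ∉ V' := by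
    intro k
    by_contra h
    push Not at h
    apply hcon k
    have hle : (V' : Filter ℤ) ≤ (V.map (fun m => m + k) : Ultrafilter ℤ) := fun S hS => h S hS
    exact Ultrafilter.coe_le_coe.mp hle
  choose S hS1 hS2 using hS
  set η := (1 - ρ) / 4 with hη
  have hη0 : 0 < η := by rw [hη]; linarith
  have hη1 : η < 1 := by rw [hη]; linarith
  have hi1 := mem_Hp.mp hz₁
  have hi2 := mem_Hp.mp hz₂
  have hz1n : 0 < ‖z₁‖ := norm_pos_iff.mpr (Hp_ne_zero hz₁)
  set c₁ := z₁.im / ‖z₁‖ ^ 2 with hc₁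
  have hc₁0 : 0 < c₁ := by positivity
  -- choose `A` with `exp(-A c₁) ≤ η`
  obtain ⟨A, hA0, hA⟩ : ∃ A : ℝ, 0 < A ∧ Real.exp (-(A * c₁)) ≤ η := by
    refine ⟨(1 + |Real.log η|) / c₁, by positivity, ?_⟩
    rw [div_mul_cancel₀ _ hc₁0.ne']
    rw [← Real.exp_log hη0]
    apply Real.exp_le_exp.mpr
    rw [Real.log_exp]
    have := neg_abs_le (Real.log η)
    linarith
  -- choose `ε` with `exp(-A ε) ≥ 1 - η`
  set ε := η / A with hε
  have hε0 : 0 < ε := by positivity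
  have hAε : 1 - η ≤ Real.exp (-(A * ε)) := by
    have h1 := Real.add_one_le_exp (-(A * ε))
    have h2 : A * ε = η := by rw [hε]; field_simp
    rw [h2] at h1 ⊢
    linarith
  -- choose the finite set `s`
  have hsum := summable_im_div z₂ hz₂
  have htail := tendsto_tsum_compl_atTop_zero (fun l : ℤ => z₂.im / ‖z₂ + l‖ ^ 2)
  obtain ⟨s, hs⟩ := (htail.eventually (gt_mem_nhds hε0)).exists
  set J : Set ℤ := ⋂ k ∈ s, {m | m + k ∈ S k} with hJdef
  have hJ : J ∈ V := by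
    rw [hJdef, Ultrafilter.mem_coe.symm, Filter.biInter_finset_mem]
    intro k _
    exact hS1 k
  set J' : Set ℤ := ⋂ k ∈ s, (S k)ᶜ with hJ'def
  have hJ' : J' ∈ V' := by
    rw [hJ'def, Ultrafilter.mem_coe.symm, Filter.biInter_finset_mem]
    intro k _
    exact Ultrafilter.compl_mem_iff_notMem.mpr (hS2 k)
  have hsep : ∀ m ∈ J', ∀ j ∈ J, m - j ∉ s := by
    intro m hm j hj hmem
    rw [hJ'def] at hm
    rw [hJdef] at hj
    simp only [mem_iInter] at hm hj
    have h1 := hj _ hmem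
    have h2 := hm _ hmem
    have h3 : j + (m - j) = m := by ring
    simp only [mem_ofPred_eq, h3] at h1
    exact h2 h1
  -- the function
  set f : ℂ → ℂ := fun z => Complex.exp (-(A * RJ J z)) with hf
  have hfd : DifferentiableOn ℂ f Hp := by
    apply DifferentiableOn.cexp
    exact ((RJ_differentiableOn J).const_mul (A : ℂ)).neg
  have hfn : ∀ z, ‖f z‖ = Real.exp (-(A * (RJ J z).re)) := by
    intro z
    rw [hf]
    simp only [Complex.norm_exp, Complex.neg_re, Complex.re_ofReal_mul]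
  have hf1 : ∀ z ∈ Hp, ‖f z‖ ≤ 1 := by
    intro z hz
    rw [hfn, Real.exp_le_one_iff]
    have := RJ_re_nonneg J hz
    have : 0 ≤ A * (RJ J z).re := by positivity
    linarith
  have hfB : BH Hp f := ⟨hfd, 1, hf1⟩
  have hα : ‖ap x f‖ ≤ η := by
    rw [hx f hfB]
    apply norm_ulim_le
    have : ∀ᶠ m in (V : Filter ℤ), m ∈ J := hJ
    filter_upwards [this] with m hm
    rw [hfn]
    refine le_trans ?_ hA
    apply Real.exp_le_exp.mpr
    have h1 := RJ_re_ge J (add_int_mem_Hp hz₁ m) hm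
    have h2 : (z₁ + m).im = z₁.im := by simp
    rw [h2, add_sub_cancel_right] at h1
    have h3 : A * c₁ ≤ A * (RJ J (z₁ + m)).re := mul_le_mul_of_nonneg_left h1 hA0.le
    linarith
  have hβ : 1 - η ≤ ‖ap x' f‖ := by
    rw [hx' f hfB]
    have ht : Tendsto (fun m : ℤ => ‖f (z₂ + m)‖) V' (𝓝 ‖Phi V' f z₂‖) :=
      (tendsto_Phi V' hfB hz₂).norm
    apply ge_of_tendsto ht
    have : ∀ᶠ m in (V' : Filter ℤ), m ∈ J' := hJ'
    filter_upwards [this] with m hm
    rw [hfn]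
    refine hAε.trans ?_
    apply Real.exp_le_exp.mpr
    have h1 := RJ_re_le J hz₂ s (hsep m hm)
    have h2 : A * (RJ J (z₂ + m)).re ≤ A * ε := mul_le_mul_of_nonneg_left (h1.trans hs.le) hA0.le
    linarith
  have hnear := hn f hfd hf1
  have h1 : ‖ap x' f‖ - ‖ap x f‖ ≤ ‖ap x f - ap x' f‖ := by
    rw [norm_sub_rev]; exact norm_sub_norm_le _ _
  have hβ1 : ‖ap x' f‖ ≤ 1 := ap_norm_le x' hfd hf1
  have h2 : ‖1 - conj (ap x' f) * ap x f‖ ≤ 1 + η := by
    calc ‖1 - conj (ap x' f) * ap x f‖ ≤ ‖(1 : ℂ)‖ + ‖conj (ap x' f) * ap x f‖ := norm_sub_le _ _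
      _ = 1 + ‖ap x' f‖ * ‖ap x f‖ := by rw [norm_one, norm_mul, Complex.norm_conj]
      _ ≤ 1 + 1 * η := by
          gcongr
      _ = 1 + η := by ring
  have h3 : ρ * ‖1 - conj (ap x' f) * ap x f‖ ≤ ρ * (1 + η) := mul_le_mul_of_nonneg_left h2 hρ0
  have h4 : 1 - η - η ≤ ρ * (1 + η) := by linarith
  rw [hη] at h4
  nlinarith

end Pool.Agent.Lib.MP_264cca_an
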