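import Mathlib

/-!
# Continuous real functions on the circle are uniform limits of real parts of entire functions
-/

open Set Topology Filter Metric
open scoped ComplexConjugate Real

namespace Pool.Agent.Lib.MP_264cca_an

lemma exists_re_fourier (n : ℤ) (c : ℂ) : ∃ P : ℂ → ℂ, Differentiable ℂ P ∧
    ∀ x : AddCircle (1 : ℝ), (P (AddCircle.toCircle x : ℂ)).re = (c * fourier n x).re := by
  rcases Int.eq_nat_or_neg n with ⟨k, rfl | rfl⟩
  · refine ⟨fun ζ => c * ζ ^ k, by fun_prop, fun x => ?_⟩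
    rw [fourier_apply, AddCircle.toCircle_zsmul]
    simp
  · refine ⟨fun ζ => conj c * ζ ^ k, by fun_prop, fun x => ?_⟩
    rw [fourier_apply, AddCircle.toCircle_zsmul]
    have h1 : ((AddCircle.toCircle x ^ (-(k : ℤ)) : Circle) : ℂ) =
        conj ((AddCircle.toCircle x : ℂ) ^ k) := by
      rw [zpow_neg, zpow_natCast, Circle.coe_inv_eq_conj, Circle.coe_pow]
    rw [h1]
    have h2 : c * conj ((AddCircle.toCircle x : ℂ) ^ k) =
        conj (conj c * (AddCircle.toCircle x : ℂ) ^ k) := by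
      rw [map_mul, Complex.conj_conj]
    rw [h2, Complex.conj_re]

lemma exists_re_span {q : C(AddCircle (1 : ℝ), ℂ)}
    (hq : q ∈ Submodule.span ℂ (range (fourier (T := (1 : ℝ))))) :
    ∀ c : ℂ, ∃ P : ℂ → ℂ, Differentiable ℂ P ∧
    ∀ x : AddCircle (1 : ℝ), (P (AddCircle.toCircle x : ℂ)).re = (c * q x).re := by
  induction hq using Submodule.span_induction with
  | mem q h =>
    obtain ⟨n, rfl⟩ := h
    exact exists_re_fourier n
  | zero => exact fun c => ⟨fun _ => 0, by fun_prop, fun x => by simp⟩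
  | add q₁ q₂ _ _ h₁ h₂ =>
    intro c
    obtain ⟨P₁, hd₁, hP₁⟩ := h₁ c
    obtain ⟨P₂, hd₂, hP₂⟩ := h₂ c
    refine ⟨fun ζ => P₁ ζ + P₂ ζ, hd₁.add hd₂, fun x => ?_⟩
    rw [Complex.add_re, hP₁, hP₂, ContinuousMap.add_apply, mul_add, Complex.add_re]
  | smul a q _ h =>
    intro c
    obtain ⟨P, hd, hP⟩ := h (c * a)
    refine ⟨P, hd, fun x => ?_⟩
    rw [hP, ContinuousMap.smul_apply, smul_eq_mul, mul_assoc]

theorem exists_entire_re_approx {u : ℂ → ℝ} (hu : ContinuousOn u (sphere 0 1)) {ε : ℝ}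
    (hε : 0 < ε) : ∃ P : ℂ → ℂ, Differentiable ℂ P ∧
      ∀ ζ ∈ sphere (0 : ℂ) 1, |(P ζ).re - u ζ| < ε := by
  have : Fact ((0 : ℝ) < 1) := ⟨one_pos⟩
  have hmem : ∀ x : AddCircle (1 : ℝ), (AddCircle.toCircle x : ℂ) ∈ sphere (0 : ℂ) 1 := by
    intro x
    simp
  have hcont : Continuous (fun x : AddCircle (1 : ℝ) => ((u (AddCircle.toCircle x : ℂ) : ℝ) : ℂ)) := by
    apply Complex.continuous_ofReal.comp
    apply hu.comp_continuous _ hmem
    exact continuous_subtype_val.comp AddCircle.continuous_toCircle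
  set U : C(AddCircle (1 : ℝ), ℂ) := ⟨_, hcont⟩ with hU
  have hcl : U ∈ (Submodule.span ℂ (range (fourier (T := (1 : ℝ))))).topologicalClosure := by
    rw [span_fourier_closure_eq_top]
    exact Submodule.mem_top
  rw [← SetLike.mem_coe, Submodule.topologicalClosure_coe, Metric.mem_closure_iff] at hcl
  obtain ⟨q, hq, hqd⟩ := hcl ε hε
  obtain ⟨P, hd, hP⟩ := exists_re_span hq 1
  refine ⟨P, hd, fun ζ hζ => ?_⟩
  have hζ1 : ‖ζ‖ = 1 := by simpa using hζ
  obtain ⟨x, hx⟩ : ∃ x : AddCircle (1 : ℝ), (AddCircle.toCircle x : ℂ) = ζ := by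
    refine ⟨(AddCircle.homeomorphCircle one_ne_zero).symm ⟨ζ, by simpa [Submonoid.unitSphere] using hζ⟩, ?_⟩
    rw [← AddCircle.homeomorphCircle_apply one_ne_zero, Homeomorph.apply_symm_apply]
  have h1 := ContinuousMap.dist_apply_le_dist (f := U) (g := q) x
  rw [← hx, hP, one_mul]
  have h2 : (q x).re - u (AddCircle.toCircle x : ℂ) = -(U x - q x).re := by
    rw [Complex.sub_re]
    have : (U x).re = u (AddCircle.toCircle x : ℂ) := Complex.ofReal_re _
    rw [this]; ring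
  rw [h2, abs_neg]
  calc |(U x - q x).re| ≤ ‖U x - q x‖ := Complex.abs_re_le_norm _
    _ = dist (U x) (q x) := (dist_eq_norm _ _).symm
    _ ≤ dist U q := h1
    _ < ε := hqd

end Pool.Agent.Lib.MP_264cca_an
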