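import Pool.Agent.Lib.MP_264cca_an.Basic

/-!
# Ultrafilter limits of uniformly bounded analytic functions
-/

open Set Topology Filter Metric
open scoped ComplexConjugate

namespace Pool.Agent.Lib.MP_264cca_an

/-- limit of a (bounded) family along an ultrafilter -/
noncomputable def ulim {ι : Type*} (𝒰 : Ultrafilter ι) (a : ι → ℂ) : ℂ :=
  limUnder (𝒰 : Filter ι) a

lemma tendsto_ulim {ι : Type*} (𝒰 : Ultrafilter ι) {a : ι → ℂ} {C : ℝ}
    (h : ∀ᶠ i in (𝒰 : Filter ι), ‖a i‖ ≤ C) : Tendsto a 𝒰 (𝓝 (ulim 𝒰 a)) := by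
  have hc : IsCompact (closedBall (0 : ℂ) C) := isCompact_closedBall _ _
  have h1 : (𝒰.map a : Filter ℂ) ≤ 𝓟 (closedBall 0 C) := by
    rw [le_principal_iff]
    show ∀ᶠ i in (𝒰 : Filter ι), a i ∈ closedBall (0 : ℂ) C
    filter_upwards [h] with i hi
    simpa using hi
  obtain ⟨c, -, hc2⟩ := hc.ultrafilter_le_nhds _ h1
  have h2 : Tendsto a 𝒰 (𝓝 c) := hc2
  exact tendsto_nhds_limUnder ⟨c, h2⟩

lemma ulim_eq {ι : Type*} {𝒰 : Ultrafilter ι} {a : ι → ℂ} {c : ℂ}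
    (h : Tendsto a 𝒰 (𝓝 c)) : ulim 𝒰 a = c := h.limUnder_eq

lemma norm_ulim_le {ι : Type*} {𝒰 : Ultrafilter ι} {a : ι → ℂ} {C : ℝ}
    (h : ∀ᶠ i in (𝒰 : Filter ι), ‖a i‖ ≤ C) : ‖ulim 𝒰 a‖ ≤ C :=
  le_of_tendsto (tendsto_ulim 𝒰 h).norm h

/-- Lipschitz estimate for bounded analytic functions -/
lemma lipschitz_aux {g : ℂ → ℂ} {c : ℂ} {R C : ℝ} (hR : 0 < R)
    (hd : DifferentiableOn ℂ g (ball c R)) (hC : ∀ z ∈ ball c R, ‖g z‖ ≤ C) {z : ℂ}
    (hz : z ∈ ball c R) : ‖g z - g c‖ ≤ (2 * C + 1) / R * ‖z - c‖ := by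
  have hmaps : MapsTo g (ball c R) (closedBall (g c) (2 * C + 1)) := by
    intro w hw
    rw [mem_closedBall, dist_eq_norm]
    have h1 := hC w hw
    have h2 := hC c (mem_ball_self hR)
    calc ‖g w - g c‖ ≤ ‖g w‖ + ‖g c‖ := norm_sub_le _ _
      _ ≤ 2 * C + 1 := by linarith
  have := Complex.dist_le_div_mul_dist_of_mapsTo_ball hd hmaps hz
  rwa [dist_eq_norm, dist_eq_norm] at this

lemma ultralim_tendstoLocallyUniformlyOn {ι : Type*} (𝒰 : Ultrafilter ι) {Ω : Set ℂ}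
    (hΩ : IsOpen Ω) (G : ι → ℂ → ℂ) (hG : ∀ i, DifferentiableOn ℂ (G i) Ω) {C : ℝ}
    (hb : ∀ i, ∀ z ∈ Ω, ‖G i z‖ ≤ C) {g : ℂ → ℂ}
    (hg : ∀ z ∈ Ω, Tendsto (fun i => G i z) 𝒰 (𝓝 (g z))) :
    TendstoLocallyUniformlyOn G g 𝒰 Ω := by
  rw [Metric.tendstoLocallyUniformlyOn_iff]
  intro ε hε z hz
  obtain ⟨R, hR, hball⟩ := Metric.isOpen_iff.mp hΩ z hz
  have hC0 : 0 ≤ C := by
    have : Nonempty ι := 𝒰.neBot.nonempty_of_mem univ_mem |>.to_subtype.elim (fun i => ⟨i.1⟩)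
    obtain ⟨i⟩ := this
    exact (norm_nonneg _).trans (hb i z hz)
  set L := (2 * C + 1) / R with hL
  have hLpos : 0 < L := by positivity
  -- radius
  set δ := min R (ε / (4 * L)) with hδ
  have hδ0 : 0 < δ := lt_min hR (by positivity)
  refine ⟨ball z δ, mem_nhdsWithin_of_mem_nhds (ball_mem_nhds z hδ0), ?_⟩
  have hlip : ∀ i, ∀ w ∈ ball z δ, ‖G i w - G i z‖ ≤ ε / 4 := by
    intro i w hw
    have hwR : w ∈ ball z R := ball_subset_ball (min_le_left _ _) hw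
    have h1 := lipschitz_aux hR ((hG i).mono hball) (fun u hu => hb i u (hball hu)) hwR
    rw [mem_ball, dist_eq_norm] at hw
    calc ‖G i w - G i z‖ ≤ L * ‖w - z‖ := h1
      _ ≤ L * (ε / (4 * L)) := by
          apply mul_le_mul_of_nonneg_left _ hLpos.le
          exact hw.le.trans (min_le_right _ _)
      _ = ε / 4 := by field_simp
  have hlipg : ∀ w ∈ ball z δ, ‖g w - g z‖ ≤ ε / 4 := by
    intro w hw
    have hwR : w ∈ ball z R := ball_subset_ball (min_le_left _ _) hw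
    have h1 : Tendsto (fun i => ‖G i w - G i z‖) 𝒰 (𝓝 ‖g w - g z‖) :=
      ((hg w (hball hwR)).sub (hg z hz)).norm
    exact le_of_tendsto h1 (Eventually.of_forall fun i => hlip i w hw)
  have h2 : ∀ᶠ i in (𝒰 : Filter ι), dist (g z) (G i z) < ε / 4 := by
    have := (hg z hz)
    rw [Metric.tendsto_nhds] at this
    filter_upwards [this (ε / 4) (by linarith)] with i hi
    rwa [dist_comm]
  filter_upwards [h2] with i hi w hw
  have h3 := hlip i w hw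
  have h4 := hlipg w hw
  calc dist (g w) (G i w) ≤ dist (g w) (g z) + dist (g z) (G i z) + dist (G i z) (G i w) :=
        dist_triangle4 _ _ _ _
    _ < ε / 4 + ε / 4 + ε / 2 := by
        rw [dist_eq_norm, dist_eq_norm (G i z), norm_sub_rev (G i z)]
        linarith
    _ = ε := by ring

lemma ultralim_differentiableOn {ι : Type*} (𝒰 : Ultrafilter ι) {Ω : Set ℂ}
    (hΩ : IsOpen Ω) (G : ι → ℂ → ℂ) (hG : ∀ i, DifferentiableOn ℂ (G i) Ω) {C : ℝ}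
    (hb : ∀ i, ∀ z ∈ Ω, ‖G i z‖ ≤ C) {g : ℂ → ℂ}
    (hg : ∀ z ∈ Ω, Tendsto (fun i => G i z) 𝒰 (𝓝 (g z))) :
    DifferentiableOn ℂ g Ω :=
  (ultralim_tendstoLocallyUniformlyOn 𝒰 hΩ G hG hb hg).differentiableOn
    (Eventually.of_forall hG) hΩ

/-! ### The upper half plane and the limits of translates -/

/-- the upper half plane -/
def Hp : Set ℂ := {z | 0 < z.im}

lemma isOpen_Hp : IsOpen Hp := isOpen_lt continuous_const Complex.continuous_im

lemma mem_Hp {z : ℂ} : z ∈ Hp ↔ 0 < z.im := Iff.rfl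

lemma add_int_mem_Hp {z : ℂ} (hz : z ∈ Hp) (m : ℤ) : z + m ∈ Hp := by
  rw [mem_Hp] at *
  simpa using hz

lemma sub_int_mem_Hp {z : ℂ} (hz : z ∈ Hp) (m : ℤ) : z - m ∈ Hp := by
  rw [mem_Hp] at *
  simpa using hz

/-- `Φ_V f (z) = lim_{m → V} f (z + m)` -/
noncomputable def Phi (V : Ultrafilter ℤ) (g : ℂ → ℂ) (z : ℂ) : ℂ :=
  ulim V (fun m : ℤ => g (z + m))

lemma tendsto_Phi (V : Ultrafilter ℤ) {g : ℂ → ℂ} (hg : BH Hp g) {z : ℂ} (hz : z ∈ Hp) :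
    Tendsto (fun m : ℤ => g (z + m)) V (𝓝 (Phi V g z)) := by
  obtain ⟨C, hC⟩ := hg.2
  exact tendsto_ulim V (C := C) (Eventually.of_forall fun m => hC _ (add_int_mem_Hp hz m))

lemma norm_Phi_le (V : Ultrafilter ℤ) {g : ℂ → ℂ} {C : ℝ} (hC : ∀ z ∈ Hp, ‖g z‖ ≤ C)
    {z : ℂ} (hz : z ∈ Hp) : ‖Phi V g z‖ ≤ C :=
  norm_ulim_le (Eventually.of_forall fun m => hC _ (add_int_mem_Hp hz m))

lemma Phi_differentiableOn (V : Ultrafilter ℤ) {g : ℂ → ℂ} (hg : BH Hp g) :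
    DifferentiableOn ℂ (Phi V g) Hp := by
  obtain ⟨C, hC⟩ := hg.2
  apply ultralim_differentiableOn V isOpen_Hp (fun m z => g (z + m)) (C := C)
  · intro m
    apply hg.1.comp
    · exact (differentiable_id.add_const _).differentiableOn
    · intro z hz; exact add_int_mem_Hp hz m
  · intro m z hz
    exact hC _ (add_int_mem_Hp hz m)
  · intro z hz
    exact tendsto_Phi V hg hz

lemma BH.Phi (V : Ultrafilter ℤ) {g : ℂ → ℂ} (hg : BH Hp g) : BH Hp (Phi V g) := by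
  obtain ⟨C, hC⟩ := hg.2
  exact ⟨Phi_differentiableOn V hg, C, fun z hz => norm_Phi_le V hC hz⟩

lemma Phi_congr (V : Ultrafilter ℤ) {g h : ℂ → ℂ} (e : ∀ z ∈ Hp, g z = h z) {z : ℂ}
    (hz : z ∈ Hp) : Phi V g z = Phi V h z := by
  unfold Pool.Agent.Lib.MP_264cca_an.Phi
  congr 1
  funext m
  exact e _ (add_int_mem_Hp hz m)

lemma Phi_add (V : Ultrafilter ℤ) {g h : ℂ → ℂ} (hg : BH Hp g) (hh : BH Hp h) {z : ℂ}
    (hz : z ∈ Hp) : Phi V (fun z => g z + h z) z = Phi V g z + Phi V h z :=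
  ulim_eq ((tendsto_Phi V hg hz).add (tendsto_Phi V hh hz))

lemma Phi_mul (V : Ultrafilter ℤ) {g h : ℂ → ℂ} (hg : BH Hp g) (hh : BH Hp h) {z : ℂ}
    (hz : z ∈ Hp) : Phi V (fun z => g z * h z) z = Phi V g z * Phi V h z :=
  ulim_eq ((tendsto_Phi V hg hz).mul (tendsto_Phi V hh hz))

lemma Phi_const (V : Ultrafilter ℤ) (c : ℂ) (z : ℂ) : Phi V (fun _ => c) z = c :=
  ulim_eq tendsto_const_nhds

/-- the character `x ∘ Φ_V` -/
lemma exists_compPhi (V : Ultrafilter ℤ) (x : MaxSpace Hp) :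
    ∃ y : MaxSpace Hp, ∀ g, BH Hp g → ap y g = ap x (Phi V g) := by
  apply exists_char (fun g => ap x (Phi V g))
  · intro g h hg hh e
    exact ap_congr x (hh.Phi V) (fun z hz => Phi_congr V e hz)
  · intro g h hg hh
    rw [← ap_add x (hg.Phi V) (hh.Phi V)]
    exact ap_congr x ((hg.Phi V).add (hh.Phi V)) (fun z hz => Phi_add V hg hh hz)
  · intro g h hg hh
    rw [← ap_mul x (hg.Phi V) (hh.Phi V)]
    exact ap_congr x ((hg.Phi V).mul (hh.Phi V)) (fun z hz => Phi_mul V hg hh hz)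
  · intro c
    have : ap x (Phi V fun _ => c) = ap x (fun _ => c) :=
      ap_congr x (BH.const c) (fun z _ => Phi_const V c z)
    rw [this, ap_const]

/-- the character `x ∘ Φ_V` -/
noncomputable def compPhi (V : Ultrafilter ℤ) (x : MaxSpace Hp) : MaxSpace Hp :=
  (exists_compPhi V x).choose

lemma ap_compPhi (V : Ultrafilter ℤ) (x : MaxSpace Hp) {g : ℂ → ℂ} (hg : BH Hp g) :
    ap (compPhi V x) g = ap x (Phi V g) := (exists_compPhi V x).choose_spec g hg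

/-- point evaluations -/
lemma exists_ev {Ω : Set ℂ} {z : ℂ} (hz : z ∈ Ω) :
    ∃ y : MaxSpace Ω, ∀ g, BH Ω g → ap y g = g z := by
  apply exists_char (fun g => g z)
  · intro g h _ _ e; exact e z hz
  · intro g h _ _; rfl
  · intro g h _ _; rfl
  · intro c; rfl

/-- the character `f ↦ lim_{m → V} f(z+m)` -/
lemma exists_evPhi (V : Ultrafilter ℤ) {z : ℂ} (hz : z ∈ Hp) :
    ∃ y : MaxSpace Hp, ∀ g, BH Hp g → ap y g = Phi V g z := by
  obtain ⟨x, hx⟩ := exists_ev hz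
  exact ⟨compPhi V x, fun g hg => by rw [ap_compPhi V x hg, hx _ (hg.Phi V)]⟩

end Pool.Agent.Lib.MP_264cca_an
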